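import Mathlib

/-! Poisson summation for complex Gaussians on `ℤ × ℤ`. -/

set_option autoImplicit false

open Complex

namespace Pool.Agent.J4.H31.MF

lemma summable_exp_sq {c : ℝ} (hc : 0 < c) : Summable fun n : ℤ => Real.exp (-c * (n : ℝ) ^ 2) := by
  have h := (summable_jacobiTheta₂_term_iff 0 (I * (c / Real.pi : ℝ))).2 (by
    simp only [mul_im, I_re, I_im, ofReal_re, ofReal_im]
    have := Real.pi_pos
    simp
    positivity)
  have h2 := h.norm
  refine h2.congr fun n => ?_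
  rw [norm_jacobiTheta₂_term]
  congr 1
  simp
  have := Real.pi_ne_zero
  field_simp

lemma summable_exp_sq_shift {c : ℝ} (hc : 0 < c) (x : ℝ) :
    Summable fun n : ℤ => Real.exp (-c * ((n : ℝ) - x) ^ 2) := by
  refine Summable.of_nonneg_of_le (fun n => (Real.exp_pos _).le) (fun n => ?_)
    ((summable_exp_sq (half_pos hc)).mul_left (Real.exp (c * x ^ 2)))
  rw [← Real.exp_add]
  apply Real.exp_le_exp.2
  nlinarith [sq_nonneg ((n : ℝ) - 2 * x)]

lemma form_lower {P S R : ℝ} (hP : 0 < P) (h : S ^ 2 < P * R) :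
    ∃ c : ℝ, 0 < c ∧ ∀ X Y : ℝ, c * (X ^ 2 + Y ^ 2) ≤ P * X ^ 2 + 2 * S * X * Y + R * Y ^ 2 := by
  have hR : 0 < R := by
    by_contra hcon
    push Not at hcon
    nlinarith [sq_nonneg S]
  refine ⟨(P * R - S ^ 2) / (P + R), by
    apply div_pos <;> linarith, fun X Y => ?_⟩
  have hPR : 0 < P + R := by linarith
  rw [div_mul_eq_mul_div, div_le_iff₀ hPR]
  nlinarith [sq_nonneg (P * X + S * Y), sq_nonneg (S * X + R * Y)]

lemma summable_gauss {P S R : ℝ} (hP : 0 < P) (h : S ^ 2 < P * R) (x y : ℝ) :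
    Summable fun p : ℤ × ℤ => Real.exp (-(P * ((p.1 : ℝ) - x) ^ 2 +
      2 * S * ((p.1 : ℝ) - x) * ((p.2 : ℝ) - y) + R * ((p.2 : ℝ) - y) ^ 2)) := by
  obtain ⟨c, hc, hle⟩ := form_lower hP h
  have h1 := (summable_exp_sq_shift hc x).mul_of_nonneg (summable_exp_sq_shift hc y)
    (fun _ => (Real.exp_pos _).le) (fun _ => (Real.exp_pos _).le)
  refine Summable.of_nonneg_of_le (fun p => (Real.exp_pos _).le) (fun p => ?_) h1
  rw [← Real.exp_add]
  apply Real.exp_le_exp.2
  have := hle ((p.1 : ℝ) - x) ((p.2 : ℝ) - y)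
  linarith

/-- Poisson summation for a Gaussian in two variables. -/
theorem poisson2 (a e d : ℂ) (D : ℝ) (hD : 0 < D) (hdet : a * d - e ^ 2 = D) (ha : 0 < a.re)
    (hpos : e.re ^ 2 < a.re * d.re) (b₁ b₂ : ℝ) :
    ∑' p : ℤ × ℤ, cexp (-Real.pi * (a * (p.1 : ℂ) ^ 2 + 2 * e * p.1 * p.2 + d * (p.2 : ℂ) ^ 2) +
      2 * Real.pi * I * (b₁ * p.1 + b₂ * p.2)) =
    (1 / Real.sqrt D : ℝ) * ∑' p : ℤ × ℤ, cexp (-(Real.pi / D) * (d * ((p.1 : ℂ) - b₁) ^ 2 -
      2 * e * ((p.1 : ℂ) - b₁) * ((p.2 : ℂ) - b₂) + a * ((p.2 : ℂ) - b₂) ^ 2)) := by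
  have ha0 : a ≠ 0 := by
    rintro rfl
    simp at ha
  have hDc : (D : ℂ) ≠ 0 := by exact_mod_cast hD.ne'
  have hpi := Real.pi_pos
  -- first sum
  have hs1 : Summable fun p : ℤ × ℤ => cexp (-Real.pi * (a * (p.1 : ℂ) ^ 2 + 2 * e * p.1 * p.2 +
      d * (p.2 : ℂ) ^ 2) + 2 * Real.pi * I * (b₁ * p.1 + b₂ * p.2)) := by
    apply Summable.of_norm
    have h := summable_gauss (P := Real.pi * a.re) (S := Real.pi * e.re) (R := Real.pi * d.re)
      (by positivity) (by nlinarith [mul_pos hpi hpi]) 0 0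
    refine h.congr fun p => ?_
    rw [Complex.norm_exp]
    congr 1
    simp [pow_two]
    ring
  -- the middle sum
  have hs2 : Summable fun p : ℤ × ℤ => cexp (-(Real.pi / a) * ((p.1 : ℂ) + I * (I * b₁ - e * p.2)) ^ 2 -
      Real.pi * d * (p.2 : ℂ) ^ 2 + 2 * Real.pi * I * (b₂ * p.2)) := by
    apply Summable.of_norm
    obtain ⟨w, hw⟩ : ∃ w, e = a * w := ⟨e / a, by field_simp⟩
    have hn : 0 < Complex.normSq a := Complex.normSq_pos.2 ha0
    have hinv : (a⁻¹).re = a.re / Complex.normSq a := by rw [inv_re]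
    have h := summable_gauss (P := Real.pi * (a⁻¹).re) (S := Real.pi * w.im)
      (R := Real.pi * (d - a * w ^ 2).re) (by rw [hinv]; positivity) (by
        rw [hinv]
        have h2 : (w.im) ^ 2 < a.re / Complex.normSq a * (d - a * w ^ 2).re := by
          rw [div_mul_eq_mul_div, lt_div_iff₀ hn]
          rw [hw] at hpos
          simp only [Complex.normSq_apply, pow_two, mul_re, mul_im, sub_re] at hpos ⊢
          nlinarith
        nlinarith [mul_pos hpi hpi]) b₁ 0
    refine h.congr fun p => ?_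
    rw [Complex.norm_exp]
    congr 1
    have e1 : -(Real.pi / a) * ((p.1 : ℂ) + I * (I * b₁ - e * p.2)) ^ 2 -
        Real.pi * d * (p.2 : ℂ) ^ 2 + 2 * Real.pi * I * (b₂ * p.2) =
        -(Real.pi : ℂ) * (a⁻¹ * (((p.1 : ℝ) - b₁ : ℝ) : ℂ) ^ 2 - 2 * I * w * ((((p.1 : ℝ) - b₁) * p.2 : ℝ) : ℂ)
          + (d - a * w ^ 2) * (((p.2 : ℝ) ^ 2 : ℝ) : ℂ)) + ((2 * Real.pi * (b₂ * p.2) : ℝ) : ℂ) * I := by
      rw [hw]
      push_cast
      field_simp
      ring_nf
      simp only [I_sq, show I ^ 3 = -I by rw [pow_succ, I_sq]; ring, show I ^ 4 = 1 by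
        rw [show (4 : ℕ) = 2 * 2 by norm_num, pow_mul, I_sq]; ring]
      ring
    rw [e1]
    simp only [add_re, mul_re, neg_re, ofReal_re, ofReal_im, I_re, I_im, sub_re, neg_im, mul_im,
      sub_im, add_im]
    simp only [← ofReal_pow, ofReal_re, ofReal_im, re_ofNat, im_ofNat]
    push_cast
    ring
  calc _ = ∑' n : ℤ, ∑' m : ℤ, cexp (-Real.pi * (a * (m : ℂ) ^ 2 + 2 * e * m * n +
      d * (n : ℂ) ^ 2) + 2 * Real.pi * I * (b₁ * m + b₂ * n)) := by
        have := hs1.tsum_comm' (f := fun (m n : ℤ) => cexp (-Real.pi * (a * (m : ℂ) ^ 2 + 2 * e * m * n +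
          d * (n : ℂ) ^ 2) + 2 * Real.pi * I * (b₁ * m + b₂ * n)))
          (fun m => hs1.prod_factor m) (fun n => (hs1.prod_symm).prod_factor n)
        rw [this]
        exact hs1.tsum_prod
    _ = ∑' n : ℤ, ∑' m : ℤ, (1 / a ^ (1 / 2 : ℂ)) * cexp (-(Real.pi / a) * ((m : ℂ) +
        I * (I * b₁ - e * n)) ^ 2 - Real.pi * d * (n : ℂ) ^ 2 + 2 * Real.pi * I * (b₂ * n)) := by
        congr 1
        funext n
        have h1 := Complex.tsum_exp_neg_quadratic ha (I * b₁ - e * n)
        have h2 : ∀ m : ℤ, cexp (-Real.pi * (a * (m : ℂ) ^ 2 + 2 * e * m * n +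
          d * (n : ℂ) ^ 2) + 2 * Real.pi * I * (b₁ * m + b₂ * n)) =
          cexp (- Real.pi * d * (n : ℂ) ^ 2 + 2 * Real.pi * I * (b₂ * n)) *
            cexp (-Real.pi * a * (m : ℂ) ^ 2 + 2 * Real.pi * (I * b₁ - e * n) * m) := by
          intro m
          rw [← Complex.exp_add]
          congr 1
          ring
        simp only [h2]
        rw [tsum_mul_left, h1, tsum_mul_left, mul_left_comm, ← tsum_mul_left]
        congr 1
        refine tsum_congr fun m => ?_
        rw [← Complex.exp_add]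
        congr 1
        ring
    _ = ∑' m : ℤ, ∑' n : ℤ, (1 / a ^ (1 / 2 : ℂ)) * cexp (-(Real.pi / a) * ((m : ℂ) +
        I * (I * b₁ - e * n)) ^ 2 - Real.pi * d * (n : ℂ) ^ 2 + 2 * Real.pi * I * (b₂ * n)) := by
        have hs3 := hs2.mul_left (1 / a ^ (1 / 2 : ℂ))
        exact (hs3.tsum_comm' (f := fun (m n : ℤ) => (1 / a ^ (1 / 2 : ℂ)) * cexp (-(Real.pi / a) * ((m : ℂ) +
          I * (I * b₁ - e * n)) ^ 2 - Real.pi * d * (n : ℂ) ^ 2 + 2 * Real.pi * I * (b₂ * n)))
          (fun m => hs3.prod_factor m) (fun n => (hs3.prod_symm).prod_factor n))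
    _ = ∑' m : ℤ, ∑' n : ℤ, (1 / Real.sqrt D : ℝ) * cexp (-(Real.pi / D) * (d * ((m : ℂ) - b₁) ^ 2 -
      2 * e * ((m : ℂ) - b₁) * ((n : ℂ) - b₂) + a * ((n : ℂ) - b₂) ^ 2)) := by
        congr 1
        funext m
        have ha2 : 0 < ((D : ℂ) / a).re := by
          rw [div_re]
          simp only [ofReal_re, ofReal_im, zero_mul, zero_div, add_zero]
          have hn : 0 < Complex.normSq a := Complex.normSq_pos.2 ha0
          positivity
        have h1 := Complex.tsum_exp_neg_quadratic ha2 (I * (b₂ + e / a * (m - b₁)))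
        have h2 : ∀ n : ℤ, (1 / a ^ (1 / 2 : ℂ)) * cexp (-(Real.pi / a) * ((m : ℂ) +
            I * (I * b₁ - e * n)) ^ 2 - Real.pi * d * (n : ℂ) ^ 2 + 2 * Real.pi * I * (b₂ * n)) =
            ((1 / a ^ (1 / 2 : ℂ)) * cexp (-(Real.pi / a) * ((m : ℂ) - b₁) ^ 2)) *
              cexp (-Real.pi * ((D : ℂ) / a) * (n : ℂ) ^ 2 +
                2 * Real.pi * (I * (b₂ + e / a * (m - b₁))) * n) := by
          intro n
          rw [mul_assoc (1 / a ^ (1 / 2 : ℂ)) (cexp _) (cexp _), ← Complex.exp_add]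
          congr 2
          rw [← hdet]
          field_simp
          ring_nf
          simp only [I_sq, show I ^ 3 = -I by rw [pow_succ, I_sq]; ring, show I ^ 4 = 1 by
            rw [show (4 : ℕ) = 2 * 2 by norm_num, pow_mul, I_sq]; ring]
          ring
        simp only [h2]
        have h3 : (1 : ℂ) / a ^ (1 / 2 : ℂ) * (1 / ((D : ℂ) / a) ^ (1 / 2 : ℂ)) = (1 / Real.sqrt D : ℝ) := by
          have harg : a.arg ≠ Real.pi := by
            intro h
            have := Complex.arg_eq_pi_iff.1 h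
            linarith [this.1]
          have h4 : ((D : ℂ) / a) ^ (1 / 2 : ℂ) = (Real.sqrt D : ℂ) / a ^ (1 / 2 : ℂ) := by
            have hsq : (Real.sqrt D : ℂ) = cexp ((Real.log D : ℂ) * (1 / 2)) := by
              rw [Real.sqrt_eq_rpow, Real.rpow_def_of_pos hD]
              push_cast
              rfl
            rw [div_eq_mul_inv (D : ℂ) a, Complex.cpow_def_of_ne_zero (mul_ne_zero hDc (inv_ne_zero ha0)),
              Complex.log_ofReal_mul hD (inv_ne_zero ha0), Complex.log_inv a harg,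
              Complex.cpow_def_of_ne_zero ha0, hsq, ← Complex.exp_sub]
            congr 1
            ring
          rw [h4]
          have : a ^ (1 / 2 : ℂ) ≠ 0 := by
            rw [Ne, Complex.cpow_eq_zero_iff]
            tauto
          have h5 : (Real.sqrt D : ℂ) ≠ 0 := by
            exact_mod_cast (Real.sqrt_pos.2 hD).ne'
          push_cast
          field_simp
        rw [tsum_mul_left, h1, tsum_mul_left, ← h3]
        have e0 : ∀ A B C E : ℂ, A * B * (C * E) = A * C * (B * E) := by intros; ring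
        rw [e0, ← tsum_mul_left]
        congr 1
        refine tsum_congr fun n => ?_
        rw [← Complex.exp_add]
        congr 1
        have e1 : (n : ℂ) + I * (I * (b₂ + e / a * (m - b₁))) = (n - b₂) - e / a * (m - b₁) := by
          linear_combination (b₂ + e / a * (m - b₁)) * I_sq
        rw [e1, ← hdet]
        have hdet' : a * d - e ^ 2 ≠ 0 := by rw [hdet]; exact hDc
        field_simp
        ring
    _ = _ := by
        have hs4 : Summable fun p : ℤ × ℤ => cexp (-(Real.pi / D) * (d * ((p.1 : ℂ) - b₁) ^ 2 -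
            2 * e * ((p.1 : ℂ) - b₁) * ((p.2 : ℂ) - b₂) + a * ((p.2 : ℂ) - b₂) ^ 2)) := by
          apply Summable.of_norm
          have hd : 0 < d.re := by
            by_contra hcon
            push Not at hcon
            nlinarith [sq_nonneg e.re]
          have h := summable_gauss (P := Real.pi / D * d.re) (S := -(Real.pi / D * e.re))
            (R := Real.pi / D * a.re) (by positivity) (by
              have : 0 < Real.pi / D := by positivity
              nlinarith [mul_pos this this]) b₁ b₂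
          refine h.congr fun p => ?_
          rw [Complex.norm_exp]
          congr 1
          have e2 : -((Real.pi : ℂ) / D) * (d * ((p.1 : ℂ) - b₁) ^ 2 -
              2 * e * ((p.1 : ℂ) - b₁) * ((p.2 : ℂ) - b₂) + a * ((p.2 : ℂ) - b₂) ^ 2) =
              ((Real.pi / D : ℝ) : ℂ) * -(d * ((((p.1 : ℝ) - b₁) ^ 2 : ℝ) : ℂ) -
              2 * e * ((((p.1 : ℝ) - b₁) * ((p.2 : ℝ) - b₂) : ℝ) : ℂ) + a * ((((p.2 : ℝ) - b₂) ^ 2 : ℝ) : ℂ)) := by
            push_cast
            ring
          rw [e2, re_ofReal_mul]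
          simp only [neg_re, add_re, sub_re, mul_re, ofReal_re, ofReal_im, mul_zero, sub_zero, re_ofNat, im_ofNat,
            zero_mul]
          ring
        rw [hs4.tsum_prod, ← tsum_mul_left]
        refine tsum_congr fun m => ?_
        rw [← tsum_mul_left]

end Pool.Agent.J4.H31.MF
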