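import Mathlib
import Pool.Agent.J4.H31.MF.Poisson

/-! The theta functions of the lattice `ℤ[φ]` in the variables `(z, u)`. -/

set_option autoImplicit false

open Complex

namespace Pool.Agent.J4.H31.MF

/-- the golden ratio -/
noncomputable def gr : ℝ := Real.goldenRatio

/-- its conjugate -/
noncomputable def gc : ℝ := Real.goldenConj

lemma phi_sq : gr ^ 2 = gr + 1 := Real.goldenRatio_sq
lemma psi_sq : gc ^ 2 = gc + 1 := Real.goldenConj_sq
lemma phi_psi : gr * gc = -1 := Real.goldenRatio_mul_goldenConj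
lemma phi_add_psi : gr + gc = 1 := Real.goldenRatio_add_goldenConj

/-- the norm form of `ℤ[φ]` -/
def nm (p : ℤ × ℤ) : ℤ := p.1 ^ 2 + p.1 * p.2 - p.2 ^ 2

/-- the first real embedding -/
noncomputable def al (p : ℤ × ℤ) : ℝ := p.1 + p.2 * gr

/-- the second real embedding -/
noncomputable def al' (p : ℤ × ℤ) : ℝ := p.1 + p.2 * gc

/-- the majorants of the norm form -/
noncomputable def q (u : ℝ) (p : ℤ × ℤ) : ℝ :=
  Real.exp (2 * u) * al p ^ 2 + Real.exp (-(2 * u)) * al' p ^ 2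

/-- the residue modulo `√5` -/
def res (p : ℤ × ℤ) : ZMod 5 := p.1 + 3 * p.2

/-- the basic exponential -/
noncomputable def ker (x y u : ℝ) (p : ℤ × ℤ) : ℂ :=
  cexp (Real.pi * (2 * x * nm p * I - y * q u p))


lemma al_mul_al' (p : ℤ × ℤ) : al p * al' p = nm p := by
  unfold al al' nm
  push_cast
  linear_combination (p.1 : ℝ) * p.2 * phi_add_psi + (p.2 : ℝ) ^ 2 * phi_psi

lemma al_sq_add (p : ℤ × ℤ) : al p ^ 2 + al' p ^ 2 = 2 * (p.1 : ℝ) ^ 2 + 2 * p.1 * p.2 + 3 * (p.2 : ℝ) ^ 2 := by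
  unfold al al'
  linear_combination (2 * (p.1 : ℝ) * p.2 + p.2 ^ 2) * phi_add_psi + (p.2 : ℝ) ^ 2 * phi_sq + (p.2 : ℝ) ^ 2 * psi_sq

lemma al_sq_lower (p : ℤ × ℤ) : (p.1 : ℝ) ^ 2 + (p.2 : ℝ) ^ 2 ≤ al p ^ 2 + al' p ^ 2 := by
  rw [al_sq_add]
  nlinarith [sq_nonneg ((p.1 : ℝ) + p.2), sq_nonneg (p.2 : ℝ)]

lemma q_nonneg (u : ℝ) (p : ℤ × ℤ) : 0 ≤ q u p := by
  unfold q
  positivity

lemma q_lower {u U : ℝ} (hu : |u| ≤ U) (p : ℤ × ℤ) :
    Real.exp (-(2 * U)) * ((p.1 : ℝ) ^ 2 + (p.2 : ℝ) ^ 2) ≤ q u p := by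
  have h1 := al_sq_lower p
  have h2 := abs_le.1 hu
  have h3 : Real.exp (-(2 * U)) ≤ Real.exp (2 * u) := Real.exp_le_exp.2 (by linarith)
  have h4 : Real.exp (-(2 * U)) ≤ Real.exp (-(2 * u)) := Real.exp_le_exp.2 (by linarith)
  unfold q
  nlinarith [sq_nonneg (al p), sq_nonneg (al' p), Real.exp_pos (-(2 * U))]

lemma two_nm_le (u : ℝ) (p : ℤ × ℤ) : 2 * |(nm p : ℝ)| ≤ q u p := by
  rw [← al_mul_al', abs_mul]
  unfold q
  have h1 : Real.exp (2 * u) = Real.exp u ^ 2 := by rw [← Real.exp_nat_mul]; norm_num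
  have h2 : Real.exp (-(2 * u)) = Real.exp (-u) ^ 2 := by rw [← Real.exp_nat_mul]; norm_num
  have h3 : Real.exp u * Real.exp (-u) = 1 := by rw [← Real.exp_add]; simp
  rw [h1, h2, ← sq_abs (al p), ← sq_abs (al' p)]
  have h4 : 2 * (|al p| * |al' p|) = 2 * (Real.exp u * |al p|) * (Real.exp (-u) * |al' p|) := by
    linear_combination -2 * |al p| * |al' p| * h3
  nlinarith [sq_nonneg (Real.exp u * |al p| - Real.exp (-u) * |al' p|)]

lemma norm_ker (x y u : ℝ) (p : ℤ × ℤ) : ‖ker x y u p‖ = Real.exp (-(Real.pi * y * q u p)) := by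
  unfold ker
  rw [Complex.norm_exp]
  congr 1
  have : (Real.pi : ℂ) * (2 * x * nm p * I - y * q u p) =
      ((2 * Real.pi * x * nm p : ℝ) : ℂ) * I + ((-(Real.pi * y * q u p) : ℝ) : ℂ) := by
    push_cast; ring
  rw [this]
  simp

/-- the dominating function -/
noncomputable def dom (c : ℝ) (p : ℤ × ℤ) : ℝ := Real.exp (-(c * ((p.1 : ℝ) ^ 2 + (p.2 : ℝ) ^ 2)))

lemma summable_dom {c : ℝ} (hc : 0 < c) : Summable (dom c) := by
  have h := (summable_exp_sq hc).mul_of_nonneg (summable_exp_sq hc)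
    (fun _ => (Real.exp_pos _).le) (fun _ => (Real.exp_pos _).le)
  refine h.congr fun p => ?_
  unfold dom
  rw [← Real.exp_add]
  congr 1
  ring

lemma exp_q_le {u U t : ℝ} (hu : |u| ≤ U) (ht : 0 ≤ t) (p : ℤ × ℤ) :
    Real.exp (-(t * q u p)) ≤ dom (t * Real.exp (-(2 * U))) p := by
  unfold dom
  apply Real.exp_le_exp.2
  have := mul_le_mul_of_nonneg_left (q_lower hu p) ht
  linarith

lemma summable_exp_q (u : ℝ) {t : ℝ} (ht : 0 < t) : Summable fun p => Real.exp (-(t * q u p)) :=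
  Summable.of_nonneg_of_le (fun _ => (Real.exp_pos _).le) (fun p => exp_q_le le_rfl ht.le p)
    (summable_dom (by positivity))

lemma summable_w_ker (w : ℤ × ℤ → ℂ) (C : ℝ) (hw : ∀ p, ‖w p‖ ≤ C) (x u : ℝ) {y : ℝ} (hy : 0 < y) :
    Summable fun p => w p * ker x y u p := by
  apply Summable.of_norm_bounded ((summable_exp_q u (t := Real.pi * y) (by positivity)).mul_left C)
  intro p
  rw [norm_mul, norm_ker]
  exact mul_le_mul_of_nonneg_right (hw p) (Real.exp_pos _).le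

/-- the theta function with a weight `v` on the residue classes -/
noncomputable def Th (v : ZMod 5 → ℂ) (z : ℂ) (u : ℝ) : ℂ :=
  ∑' p, v (res p) * ker (z.re / 5) (z.im / 5) u p

lemma exists_bound (v : ZMod 5 → ℂ) : ∃ C : ℝ, ∀ c, ‖v c‖ ≤ C :=
  ⟨∑ c, ‖v c‖, fun c => Finset.single_le_sum (f := fun c => ‖v c‖) (fun _ _ => norm_nonneg _) (Finset.mem_univ c)⟩

lemma summable_Th (v : ZMod 5 → ℂ) {z : ℂ} (hz : 0 < z.im) (u : ℝ) :
    Summable fun p => v (res p) * ker (z.re / 5) (z.im / 5) u p := by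
  obtain ⟨C, hC⟩ := exists_bound v
  exact summable_w_ker _ C (fun p => hC _) _ _ (by positivity)

lemma Th_smul (r : ℂ) (v : ZMod 5 → ℂ) (z : ℂ) (u : ℝ) : Th (fun c => r * v c) z u = r * Th v z u := by
  unfold Th
  rw [← tsum_mul_left]
  simp only [mul_assoc]

lemma Th_sum {ι : Type*} (s : Finset ι) (v : ι → ZMod 5 → ℂ) {z : ℂ} (hz : 0 < z.im) (u : ℝ) :
    Th (fun c => ∑ i ∈ s, v i c) z u = ∑ i ∈ s, Th (v i) z u := by
  unfold Th
  rw [← Summable.tsum_finsetSum (fun i _ => summable_Th (v i) hz u)]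
  refine tsum_congr fun p => ?_
  rw [Finset.sum_mul]

/-- the additive character modulo `5` -/
noncomputable abbrev e5 (c : ZMod 5) : ℂ := ZMod.stdAddChar (N := 5) c

lemma e5_intCast (j : ℤ) : e5 (j : ZMod 5) = cexp (2 * Real.pi * I * j / 5) := by
  unfold e5
  rw [ZMod.stdAddChar_apply, ZMod.toCircle_intCast]
  norm_num

lemma nm_mod (p : ℤ × ℤ) : ((nm p : ℤ) : ZMod 5) = res p ^ 2 := by
  unfold nm res
  push_cast
  have h : ∀ a b : ZMod 5, a ^ 2 + a * b - b ^ 2 = (a + 3 * b) ^ 2 := by decide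
  exact h _ _

lemma Th_T (v : ZMod 5 → ℂ) (z : ℂ) (u : ℝ) :
    Th v (z + 1) u = Th (fun c => v c * e5 (c ^ 2)) z u := by
  unfold Th
  refine tsum_congr fun p => ?_
  rw [mul_assoc]
  congr 1
  rw [← nm_mod, e5_intCast]
  unfold ker
  rw [← Complex.exp_add]
  congr 1
  simp only [add_re, one_re, add_im, one_im, add_zero]
  push_cast
  ring

lemma Th_S_char (h : ℤ) {z : ℂ} (hz : 0 < z.im) (u : ℝ) :
    Th (fun c => e5 (h * c)) z u =
      (Real.sqrt 5 / ‖z‖ : ℝ) * Th (fun c => if c = 2 * h then 1 else 0) (-1 / z) u := by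
  set x := z.re with hx
  set y := z.im with hy
  have hy0 : 0 < y := hz
  set E := Real.exp (2 * u) with hE
  set E' := Real.exp (-(2 * u)) with hE'
  have hEE : E * E' = 1 := by rw [hE, hE', ← Real.exp_add]; simp
  have hE0 : 0 < E := Real.exp_pos _
  have hE0' : 0 < E' := Real.exp_pos _
  have hns : Complex.normSq z = x ^ 2 + y ^ 2 := by
    rw [Complex.normSq_apply]; ring
  have hn0 : 0 < x ^ 2 + y ^ 2 := by positivity
  have hz0 : z ≠ 0 := by
    rintro rfl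
    simp [hy] at hy0
  set a : ℂ := (1 / 5) * (y * (E + E') - 2 * I * x) with ha
  set e : ℂ := (1 / 5) * (y * (E * gr + E' * gc) - I * x) with he
  set d : ℂ := (1 / 5) * (y * (E * gr ^ 2 + E' * gc ^ 2) + 2 * I * x) with hd
  have hφ : (gr : ℂ) ^ 2 = gr + 1 := by exact_mod_cast phi_sq
  have hψ : (gc : ℂ) ^ 2 = gc + 1 := by exact_mod_cast psi_sq
  have hφψ : (gr : ℂ) * gc = -1 := by exact_mod_cast phi_psi
  have hs : (gr : ℂ) + gc = 1 := by exact_mod_cast phi_add_psi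
  have hEEc : (E : ℂ) * E' = 1 := by exact_mod_cast hEE
  have hdet : a * d - e ^ 2 = (((x ^ 2 + y ^ 2) / 5 : ℝ) : ℂ) := by
    rw [ha, he, hd]
    push_cast
    have e1 : (gr : ℂ) ^ 2 + gc ^ 2 = 3 := by rw [hφ, hψ]; linear_combination hs
    have hP : ((E : ℂ) + E') * (E * gr ^ 2 + E' * gc ^ 2) - (E * gr + E' * gc) ^ 2 = 5 := by
      linear_combination (gr ^ 2 + gc ^ 2 - 2 * gr * gc : ℂ) * hEEc + e1 - 2 * hφψ
    have hQ : ((E : ℂ) + E') - (E * gr ^ 2 + E' * gc ^ 2) + (E * gr + E' * gc) = 0 := by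
      linear_combination -(E : ℂ) * hφ - (E' : ℂ) * hψ
    linear_combination (1 / 25 : ℂ) * y ^ 2 * hP + (1 / 25 : ℂ) * 2 * I * x * y * hQ - (1 / 25 : ℂ) * 5 * x ^ 2 * I_sq
  have hare : a.re = 1 / 5 * (y * (E + E')) := by
    rw [ha]
    simp [Complex.mul_re, Complex.mul_im]
  have here : e.re = 1 / 5 * (y * (E * gr + E' * gc)) := by
    rw [he]
    simp [Complex.mul_re, Complex.mul_im]
  have hdre : d.re = 1 / 5 * (y * (E * gr ^ 2 + E' * gc ^ 2)) := by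
    have : d = ((1 / 5 * (y * (E * gr ^ 2 + E' * gc ^ 2)) : ℝ) : ℂ) + ((2 * x / 5 : ℝ) : ℂ) * I := by
      rw [hd]; push_cast; ring
    rw [this, add_re, ofReal_re, re_ofReal_mul, I_re]
    ring
  have hpos : e.re ^ 2 < a.re * d.re := by
    rw [hare, here, hdre]
    have hP : (E + E') * (E * gr ^ 2 + E' * gc ^ 2) - (E * gr + E' * gc) ^ 2 = 5 := by
      exact_mod_cast (show ((E : ℂ) + E') * (E * gr ^ 2 + E' * gc ^ 2) - (E * gr + E' * gc) ^ 2 = 5 by
        have e1 : (gr : ℂ) ^ 2 + gc ^ 2 = 3 := by rw [hφ, hψ]; linear_combination hs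
        linear_combination (gr ^ 2 + gc ^ 2 - 2 * gr * gc : ℂ) * hEEc + e1 - 2 * hφψ)
    nlinarith [mul_pos hy0 hy0]
  have key := poisson2 a e d ((x ^ 2 + y ^ 2) / 5) (by positivity) hdet (by rw [hare]; positivity) hpos
    (h / 5) (3 * h / 5)
  have hL : Th (fun c => e5 (h * c)) z u = ∑' p : ℤ × ℤ, cexp (-Real.pi * (a * (p.1 : ℂ) ^ 2 + 2 * e * p.1 * p.2 +
      d * (p.2 : ℂ) ^ 2) + 2 * Real.pi * I * (((h / 5 : ℝ) : ℂ) * p.1 + ((3 * h / 5 : ℝ) : ℂ) * p.2)) := by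
    unfold Th
    refine tsum_congr fun p => ?_
    have e1 : (h : ZMod 5) * res p = ((h * (p.1 + 3 * p.2) : ℤ) : ZMod 5) := by
      unfold res; push_cast; ring
    show e5 (h * res p) * _ = _
    rw [e1, e5_intCast]
    unfold ker
    rw [← Complex.exp_add]
    congr 1
    rw [ha, he, hd]
    unfold q al al' nm
    rw [← hx, ← hy, ← hE, ← hE']
    push_cast
    ring
  rw [hL, key]
  have hsq : (1 / Real.sqrt ((x ^ 2 + y ^ 2) / 5) : ℝ) = Real.sqrt 5 / ‖z‖ := by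
    rw [Real.sqrt_div hn0.le, ← hns, ← Complex.norm_def]
    field_simp
  rw [hsq]
  congr 1
  -- the bijection
  unfold Th
  set g : ℤ × ℤ → ℤ × ℤ := fun k => (2 * k.1 + k.2 - h, k.1 - 2 * k.2 + h) with hg
  have hinj : Function.Injective g := by
    intro k l hkl
    simp only [hg, Prod.mk.injEq] at hkl
    ext <;> omega
  have hsupp : Function.support (fun p => (if res p = 2 * h then (1 : ℂ) else 0) *
      ker ((-1 / z).re / 5) ((-1 / z).im / 5) u p) ⊆ Set.range g := by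
    intro p hp
    by_cases hc : res p = 2 * h
    · have h1 : ((p.1 + 3 * p.2 - 2 * h : ℤ) : ZMod 5) = 0 := by
        unfold res at hc
        push_cast
        rw [hc]
        ring
      have h2 : (5 : ℤ) ∣ p.1 + 3 * p.2 - 2 * h := by
        exact_mod_cast (ZMod.intCast_zmod_eq_zero_iff_dvd _ 5).1 h1
      refine ⟨((2 * p.1 + p.2 + h) / 5, (p.1 - 2 * p.2 + 3 * h) / 5), ?_⟩
      simp only [hg]
      ext <;> simp only <;> omega
    · simp [hc] at hp
  rw [← hinj.tsum_eq hsupp]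
  refine tsum_congr fun k => ?_
  have hresg : res (g k) = 2 * h := by
    unfold res
    simp only [hg]
    push_cast
    have : (5 : ZMod 5) = 0 := by decide
    linear_combination ((k.1 : ZMod 5) - k.2) * this
  rw [if_pos hresg, one_mul]
  unfold ker
  congr 1
  have hre : (-1 / z).re = -x / (x ^ 2 + y ^ 2) := by
    rw [neg_div, neg_re, one_div, inv_re, hns]; ring
  have him : (-1 / z).im = y / (x ^ 2 + y ^ 2) := by
    rw [neg_div, neg_im, one_div, inv_im, hns]; ring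
  rw [hre, him, ha, he, hd]
  unfold q al al' nm
  rw [← hE, ← hE']
  simp only [hg]
  push_cast
  have hnc : (x : ℂ) ^ 2 + y ^ 2 ≠ 0 := by exact_mod_cast hn0.ne'
  obtain ⟨X, hX⟩ : ∃ X : ℂ, X = (k.1 : ℂ) - h / 5 := ⟨_, rfl⟩
  obtain ⟨Y, hY⟩ : ∃ Y : ℂ, Y = (k.2 : ℂ) - 3 * h / 5 := ⟨_, rfl⟩
  have hA : 2 * (k.1 : ℂ) + k.2 - h = 2 * X + Y := by rw [hX, hY]; ring
  have hB : (k.1 : ℂ) - 2 * k.2 + h = X - 2 * Y := by rw [hX, hY]; ring
  rw [hA, hB, ← hX, ← hY]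
  have h1 : (2 * X + Y + (X - 2 * Y) * gr) ^ 2 = 5 * (gr * X - Y) ^ 2 := by
    linear_combination (-4 * X ^ 2 - 4 * X * Y + 4 * Y ^ 2) * hφ
  have h2 : (2 * X + Y + (X - 2 * Y) * gc) ^ 2 = 5 * (gc * X - Y) ^ 2 := by
    linear_combination (-4 * X ^ 2 - 4 * X * Y + 4 * Y ^ 2) * hψ
  rw [h1, h2]
  field_simp
  ring

lemma im_neg_inv_pos {z : ℂ} (hz : 0 < z.im) : 0 < (-1 / z).im := by
  have hz0 : z ≠ 0 := by
    rintro rfl
    simp at hz
  rw [neg_div, neg_im, one_div, inv_im, neg_div, neg_neg]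
  exact div_pos hz (normSq_pos.2 hz0)

/-- the transformation under `S` -/
theorem Th_S (v : ZMod 5 → ℂ) {z : ℂ} (hz : 0 < z.im) (u : ℝ) :
    Th v (-1 / z) u = (‖z‖ / Real.sqrt 5 : ℝ) * Th (fun c => ∑ c', v c' * e5 (3 * c' * c)) z u := by
  have hz0 : z ≠ 0 := by
    rintro rfl
    simp at hz
  have hnz : 0 < ‖z‖ := norm_pos_iff.2 hz0
  have h1 : v = fun c => ∑ c', v c' * (if c = c' then 1 else 0) := by
    funext c
    simp
  have h2 : Th v (-1 / z) u = ∑ c', v c' * Th (fun c => if c = c' then 1 else 0) (-1 / z) u := by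
    conv_lhs => rw [h1]
    rw [Th_sum _ _ (im_neg_inv_pos hz)]
    refine Finset.sum_congr rfl fun c' _ => ?_
    rw [Th_smul]
  rw [h2, Th_sum _ _ hz, Finset.mul_sum]
  refine Finset.sum_congr rfl fun c' _ => ?_
  rw [Th_smul]
  have h3 := Th_S_char ((3 * c').val : ℤ) hz u
  have h4 : (((3 * c').val : ℤ) : ZMod 5) = 3 * c' := by
    rw [Int.cast_natCast, ZMod.natCast_val, ZMod.cast_id', id]
  have h5 : 2 * (3 * c') = c' := by
    rw [← mul_assoc]
    have : (2 * 3 : ZMod 5) = 1 := by decide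
    rw [this, one_mul]
  rw [h4, h5] at h3
  rw [h3]
  have h6 : Real.sqrt 5 ≠ 0 := by positivity
  have h7 : ((‖z‖ / Real.sqrt 5 : ℝ) : ℂ) * ((Real.sqrt 5 / ‖z‖ : ℝ) : ℂ) = 1 := by
    rw [← ofReal_mul]
    have : ‖z‖ / Real.sqrt 5 * (Real.sqrt 5 / ‖z‖) = 1 := by field_simp
    rw [this, ofReal_one]
  linear_combination (-(v c') * Th (fun c => if c = c' then 1 else 0) (-1 / z) u) * h7

end Pool.Agent.J4.H31.MF
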