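import Mathlib


/-! The action of `SL₂(ℤ)` on the theta functions. -/

set_option autoImplicit false

open Complex


namespace Pool.Agent.J4.H31.MF

/-- the quadratic character modulo `5` -/
def kap (c : ZMod 5) : ℤ := if c = 0 then 0 else if c = 1 ∨ c = 4 then 1 else -1

/-- the coefficients of the vectors of the Weil representation -/
def W (a b c d x k : ZMod 5) : ℤ :=
  if c = 0 then kap x * kap (k - b * d * x ^ 2)
  else ∑ y : ZMod 5, if a * c * y ^ 2 + 3 * y * x + d * c ^ 3 * x ^ 2 = k then kap y else 0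

lemma W_T : ∀ a b c d x k : ZMod 5, a * d - b * c = 1 →
    W a (a + b) c (c + d) x k = W a b c d x (k - x ^ 2) := by
  decide +kernel

lemma W_S : ∀ a b c d x k : ZMod 5, a * d - b * c = 1 →
    (∑ j : ZMod 5, kap j * W b (-a) d (-c) x (k - j)) - (∑ y : ZMod 5, W a b c d y (k - 3 * y * x)) =
    (∑ j : ZMod 5, kap j * W b (-a) d (-c) x (0 - j)) - (∑ y : ZMod 5, W a b c d y (0 - 3 * y * x)) := by
  decide +kernel

end Pool.Agent.J4.H31.MF
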