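import Mathlib
import Pool.Agent.J4.H31.MF.Theta
import Pool.Agent.J4.H31.MF.WeilDec

/-! The functional `w ↦ H w y` on weights. -/

set_option autoImplicit false

open Complex MeasureTheory

namespace Pool.Agent.J4.H31.MF

lemma one_lt_gr : 1 < gr := Real.one_lt_goldenRatio

/-- the period -/
noncomputable def UU : ℝ := 2 * Real.log gr

lemma UU_pos : 0 < UU := mul_pos two_pos (Real.log_pos one_lt_gr)

/-- the spectral parameter -/
noncomputable def nu : ℝ := Real.pi / UU

lemma nu_pos : 0 < nu := div_pos Real.pi_pos UU_pos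

/-- the character -/
noncomputable def ee (u : ℝ) : ℂ := cexp (((2 * nu * u : ℝ) : ℂ) * I)

lemma ee_add (u v : ℝ) : ee (u + v) = ee u * ee v := by
  unfold ee
  rw [← Complex.exp_add]
  congr 1
  push_cast
  ring

lemma norm_ee (u : ℝ) : ‖ee u‖ = 1 := by
  unfold ee
  rw [Complex.norm_exp_ofReal_mul_I]

lemma ee_UU : ee UU = 1 := by
  unfold ee
  have : 2 * nu * UU = 2 * Real.pi := by
    unfold nu
    have := UU_pos.ne'
    field_simp
  rw [this]
  push_cast
  exact Complex.exp_two_pi_mul_I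

lemma ee_half : ee (UU / 2) = -1 := by
  unfold ee
  have : 2 * nu * (UU / 2) = Real.pi := by
    unfold nu
    have := UU_pos.ne'
    field_simp
  rw [this]
  exact Complex.exp_pi_mul_I

lemma ee_zero : ee 0 = 1 := by
  unfold ee
  simp

lemma ee_neg (u : ℝ) : ee (-u) * ee u = 1 := by
  rw [← ee_add]; simp [ee_zero]

lemma continuous_ee : Continuous ee := by
  unfold ee
  fun_prop

lemma continuous_q (p : ℤ × ℤ) : Continuous fun u => q u p := by
  unfold q
  fun_prop

/-- the integral over one period -/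
noncomputable def Ts (s y : ℝ) (p : ℤ × ℤ) : ℂ :=
  ∫ u in s..(s + UU), (Real.exp (-(Real.pi * y * q u p)) : ℂ) * ee u

/-- the weights of moderate growth -/
def SG (c : ℤ × ℤ → ℂ) : Prop := ∀ δ : ℝ, 0 < δ → Summable fun p => ‖c p‖ * dom δ p

lemma dom_pos (δ : ℝ) (p : ℤ × ℤ) : 0 < dom δ p := Real.exp_pos _

lemma dom_anti {δ δ' : ℝ} (h : δ ≤ δ') (p : ℤ × ℤ) : dom δ' p ≤ dom δ p := by
  unfold dom
  apply Real.exp_le_exp.2
  have : 0 ≤ (p.1 : ℝ) ^ 2 + (p.2 : ℝ) ^ 2 := by positivity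
  nlinarith

lemma SG.of_le {c c' : ℤ × ℤ → ℂ} (h : SG c) (C : ℝ) (hc : ∀ p, ‖c' p‖ ≤ C * ‖c p‖) : SG c' := by
  intro δ hδ
  refine Summable.of_nonneg_of_le (fun p => mul_nonneg (norm_nonneg _) (dom_pos _ _).le) (fun p => ?_)
    ((h δ hδ).mul_left C)
  rw [← mul_assoc]
  exact mul_le_mul_of_nonneg_right (hc p) (dom_pos _ _).le

lemma pow_le_exp (k : ℕ) {t : ℝ} (ht : 0 < t) {x : ℝ} (hx : 0 ≤ x) :
    (1 + x) ^ k ≤ (k.factorial / t ^ k * Real.exp t) * Real.exp (t * x) := by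
  have h := Real.pow_div_factorial_le_exp (t * (1 + x)) (by positivity) k
  have hk : (0 : ℝ) < k.factorial := by exact_mod_cast k.factorial_pos
  rw [div_le_iff₀ hk, mul_pow, mul_add, mul_one, Real.exp_add] at h
  have ht' : 0 < t ^ k := pow_pos ht k
  calc (1 + x) ^ k = (t ^ k * (1 + x) ^ k) / t ^ k := by field_simp
    _ ≤ (Real.exp t * Real.exp (t * x) * k.factorial) / t ^ k := by gcongr
    _ = _ := by ring

lemma SG_of_poly {c : ℤ × ℤ → ℂ} (C : ℝ) (k : ℕ)
    (h : ∀ p, ‖c p‖ ≤ C * (1 + ((p.1 : ℝ) ^ 2 + (p.2 : ℝ) ^ 2)) ^ k) : SG c := by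
  intro δ hδ
  have hC : 0 ≤ C := by
    have := (norm_nonneg _).trans (h 0)
    simpa using this
  refine Summable.of_nonneg_of_le (fun p => mul_nonneg (norm_nonneg _) (dom_pos _ _).le) (fun p => ?_)
    ((summable_dom (half_pos hδ)).mul_left (C * (k.factorial / (δ / 2) ^ k * Real.exp (δ / 2))))
  have h1 := pow_le_exp k (half_pos hδ) (x := (p.1 : ℝ) ^ 2 + (p.2 : ℝ) ^ 2) (by positivity)
  calc ‖c p‖ * dom δ p ≤ (C * ((k.factorial / (δ / 2) ^ k * Real.exp (δ / 2)) *
      Real.exp (δ / 2 * ((p.1 : ℝ) ^ 2 + (p.2 : ℝ) ^ 2)))) * dom δ p := by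
        refine mul_le_mul_of_nonneg_right ((h p).trans ?_) (dom_pos _ _).le
        exact mul_le_mul_of_nonneg_left h1 hC
    _ = (C * (k.factorial / (δ / 2) ^ k * Real.exp (δ / 2))) *
      (Real.exp (δ / 2 * ((p.1 : ℝ) ^ 2 + (p.2 : ℝ) ^ 2)) * dom δ p) := by ring
    _ = _ := by
        congr 1
        unfold dom
        rw [← Real.exp_add]
        congr 1
        ring

/-- polynomially bounded functions of the norm -/
def PB (w : ℤ → ℂ) : Prop := ∃ (C : ℝ) (k : ℕ), ∀ N : ℤ, ‖w N‖ ≤ C * (1 + |(N : ℝ)|) ^ k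

lemma abs_nm_le (p : ℤ × ℤ) : |(nm p : ℝ)| ≤ 2 * ((p.1 : ℝ) ^ 2 + (p.2 : ℝ) ^ 2) := by
  unfold nm
  push_cast
  rw [abs_le]
  constructor <;> nlinarith [sq_nonneg ((p.1 : ℝ) + p.2), sq_nonneg ((p.1 : ℝ) - p.2), sq_nonneg (p.1 : ℝ), sq_nonneg (p.2 : ℝ)]

lemma norm_kap_le (c : ZMod 5) : ‖(kap c : ℂ)‖ ≤ 1 := by
  have : ∀ c : ZMod 5, |kap c| ≤ 1 := by decide
  have h := this c
  rw [Complex.norm_intCast]
  exact_mod_cast h

lemma PB.sg {w : ℤ → ℂ} (h : PB w) : SG fun p => (kap (res p) : ℂ) * w (nm p) := by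
  obtain ⟨C, k, hk⟩ := h
  have hC : 0 ≤ C := by
    have := (norm_nonneg _).trans (hk 0)
    simpa using this
  refine SG_of_poly (C * 2 ^ k) k fun p => ?_
  rw [norm_mul]
  calc ‖(kap (res p) : ℂ)‖ * ‖w (nm p)‖ ≤ 1 * (C * (1 + |(nm p : ℝ)|) ^ k) :=
        mul_le_mul (norm_kap_le _) (hk _) (norm_nonneg _) zero_le_one
    _ ≤ 1 * (C * (2 * (1 + ((p.1 : ℝ) ^ 2 + (p.2 : ℝ) ^ 2))) ^ k) := by
        have := abs_nm_le p
        gcongr
        linarith
    _ = _ := by rw [mul_pow]; ring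

lemma norm_Ts_le (s : ℝ) {y : ℝ} (hy : 0 ≤ y) (p : ℤ × ℤ) :
    ‖Ts s y p‖ ≤ UU * dom (Real.pi * y * Real.exp (-(2 * (|s| + UU)))) p := by
  unfold Ts
  have h := intervalIntegral.norm_integral_le_of_norm_le_const (a := s) (b := s + UU)
    (f := fun u => (Real.exp (-(Real.pi * y * q u p)) : ℂ) * ee u)
    (C := dom (Real.pi * y * Real.exp (-(2 * (|s| + UU)))) p) (fun u hu => by
      rw [norm_mul, norm_ee, mul_one, Complex.norm_real, Real.norm_of_nonneg (Real.exp_pos _).le]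
      refine exp_q_le ?_ (by positivity) p
      rw [Set.uIoc_of_le (by linarith [UU_pos])] at hu
      have := UU_pos
      rw [abs_le]
      constructor
      · linarith [hu.1, neg_abs_le s]
      · linarith [hu.2, le_abs_self s])
  rw [add_sub_cancel_left, abs_of_pos UU_pos] at h
  linarith

lemma SG.summable_Ts {c : ℤ × ℤ → ℂ} (hc : SG c) (s : ℝ) {y : ℝ} (hy : 0 < y) :
    Summable fun p => c p * Ts s y p := by
  apply Summable.of_norm_bounded ((hc (Real.pi * y * Real.exp (-(2 * (|s| + UU)))) (by positivity)).mul_left UU)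
  intro p
  rw [norm_mul]
  have := norm_Ts_le s hy.le p
  nlinarith [norm_nonneg (c p)]

/-- interchange of sum and integral -/
lemma SG.tsum_Ts {c : ℤ × ℤ → ℂ} (hc : SG c) (s : ℝ) {y : ℝ} (hy : 0 < y) :
    ∑' p, c p * Ts s y p =
      ∫ u in s..(s + UU), (∑' p, c p * (Real.exp (-(Real.pi * y * q u p)) : ℂ)) * ee u := by
  have hU := UU_pos
  have hb := hc (Real.pi * y * Real.exp (-(2 * (|s| + UU)))) (by positivity)
  have key := intervalIntegral.hasSum_integral_of_dominated_convergence (μ := volume) (a := s) (b := s + UU)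
    (F := fun p u => c p * ((Real.exp (-(Real.pi * y * q u p)) : ℂ) * ee u))
    (f := fun u => (∑' p, c p * (Real.exp (-(Real.pi * y * q u p)) : ℂ)) * ee u)
    (fun p _ => ‖c p‖ * dom (Real.pi * y * Real.exp (-(2 * (|s| + UU)))) p)
    (fun p => by
      apply Continuous.aestronglyMeasurable
      have h1 := continuous_q p
      have h2 := continuous_ee
      fun_prop)
    (fun p => Filter.Eventually.of_forall fun u hu => by
      rw [norm_mul, norm_mul, norm_ee, mul_one, Complex.norm_real, Real.norm_of_nonneg (Real.exp_pos _).le]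
      refine mul_le_mul_of_nonneg_left (exp_q_le ?_ (by positivity) p) (norm_nonneg _)
      rw [Set.uIoc_of_le (by linarith)] at hu
      rw [abs_le]
      constructor
      · linarith [hu.1, neg_abs_le s]
      · linarith [hu.2, le_abs_self s])
    (Filter.Eventually.of_forall fun u _ => hb)
    (by simp)
    (Filter.Eventually.of_forall fun u hu => by
      have hsum : Summable fun p => c p * (Real.exp (-(Real.pi * y * q u p)) : ℂ) := by
        apply Summable.of_norm_bounded hb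
        intro p
        rw [norm_mul, Complex.norm_real, Real.norm_of_nonneg (Real.exp_pos _).le]
        refine mul_le_mul_of_nonneg_left (exp_q_le ?_ (by positivity) p) (norm_nonneg _)
        rw [Set.uIoc_of_le (by linarith)] at hu
        rw [abs_le]
        constructor
        · linarith [hu.1, neg_abs_le s]
        · linarith [hu.2, le_abs_self s]
      have := hsum.hasSum.mul_right (ee u)
      simpa only [mul_assoc] using this)
  rw [← key.tsum_eq]
  refine tsum_congr fun p => ?_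
  unfold Ts
  rw [← intervalIntegral.integral_const_mul]

/-- multiplication by the unit `φ ^ 2` -/
def tau : ℤ × ℤ ≃ ℤ × ℤ where
  toFun p := (p.1 + p.2, p.1 + 2 * p.2)
  invFun p := (2 * p.1 - p.2, p.2 - p.1)
  left_inv p := by ext <;> simp <;> ring
  right_inv p := by ext <;> simp <;> ring

lemma al_tau (p : ℤ × ℤ) : al (tau p) = gr ^ 2 * al p := by
  unfold al tau
  simp only [Equiv.coe_fn_mk]
  push_cast
  linear_combination -(p.1 + p.2 * gr + p.2 : ℝ) * phi_sq

lemma al'_tau (p : ℤ × ℤ) : al' (tau p) = gc ^ 2 * al' p := by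
  unfold al' tau
  simp only [Equiv.coe_fn_mk]
  push_cast
  linear_combination -(p.1 + p.2 * gc + p.2 : ℝ) * psi_sq

lemma nm_tau (p : ℤ × ℤ) : nm (tau p) = nm p := by
  unfold nm tau
  simp only [Equiv.coe_fn_mk]
  ring

lemma kap_sq_mul : ∀ c : ZMod 5, kap (4 * c) = kap c := by decide

lemma kap_tau (p : ℤ × ℤ) : kap (res (tau p)) = kap (res p) := by
  rw [← kap_sq_mul (res p)]
  congr 1
  unfold res tau
  simp only [Equiv.coe_fn_mk]
  push_cast
  have : (5 : ZMod 5) = 0 := by decide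
  linear_combination (-(p.2 : ZMod 5)) * this

lemma gr_pos : 0 < gr := one_pos.trans one_lt_gr

lemma exp_UU : Real.exp UU = gr ^ 2 := by
  unfold UU
  rw [two_mul, Real.exp_add, Real.exp_log gr_pos]
  ring

lemma q_tau (u : ℝ) (p : ℤ × ℤ) : q u (tau p) = q (u + UU) p := by
  unfold q
  rw [al_tau, al'_tau, mul_add, Real.exp_add, neg_add, Real.exp_add, two_mul UU, Real.exp_add, exp_UU]
  have h1 : Real.exp (-(UU + UU)) = (gc ^ 2) ^ 2 := by
    have h2 : (gr ^ 2) * (gc ^ 2) = 1 := by rw [← mul_pow, phi_psi]; norm_num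
    rw [neg_add, Real.exp_add, Real.exp_neg, exp_UU, inv_eq_of_mul_eq_one_right h2]
    ring
  rw [h1]
  ring

/-- the shift does not matter for weights invariant under `tau` -/
theorem SG.tsum_Ts_eq {c : ℤ × ℤ → ℂ} (hc : SG c) (hinv : ∀ p, c (tau p) = c p) (s : ℝ) {y : ℝ} (hy : 0 < y) :
    ∑' p, c p * Ts s y p = ∑' p, c p * Ts 0 y p := by
  rw [hc.tsum_Ts s hy, hc.tsum_Ts 0 hy]
  have hper : Function.Periodic (fun u => (∑' p, c p * (Real.exp (-(Real.pi * y * q u p)) : ℂ)) * ee u) UU := by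
    intro u
    show (∑' p, c p * (Real.exp (-(Real.pi * y * q (u + UU) p)) : ℂ)) * ee (u + UU) = _
    rw [ee_add, ee_UU, mul_one]
    congr 1
    rw [← tau.tsum_eq (fun p => c p * (Real.exp (-(Real.pi * y * q u p)) : ℂ))]
    refine tsum_congr fun p => ?_
    rw [hinv, q_tau]
  exact hper.intervalIntegral_add_eq s 0

/-- the functional -/
noncomputable def H (w : ℤ → ℂ) (y : ℝ) : ℂ := ∑' p, ((kap (res p) : ℂ) * w (nm p)) * Ts 0 y p

lemma PB.summable_H {w : ℤ → ℂ} (h : PB w) {y : ℝ} (hy : 0 < y) :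
    Summable fun p => ((kap (res p) : ℂ) * w (nm p)) * Ts 0 y p := h.sg.summable_Ts 0 hy

lemma PB.shift {w : ℤ → ℂ} (h : PB w) (s : ℝ) {y : ℝ} (hy : 0 < y) :
    ∑' p, ((kap (res p) : ℂ) * w (nm p)) * Ts s y p = H w y :=
  h.sg.tsum_Ts_eq (fun p => by rw [kap_tau, nm_tau]) s hy

end Pool.Agent.J4.H31.MF
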