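import Mathlib
import Pool.Agent.J4.H31.MF.Theta
import Pool.Agent.J4.H31.MF.WeilDec

/-! The action of `SL₂(ℤ)` on the theta functions. -/

set_option autoImplicit false

open Complex
open scoped MatrixGroups

namespace Pool.Agent.J4.H31.MF

lemma e5_add (a b : ZMod 5) : e5 (a + b) = e5 a * e5 b := AddChar.map_add_eq_mul _ _ _

lemma sum_e5 : ∑ k : ZMod 5, e5 k = 0 := by
  have h : (ZMod.stdAddChar (N := 5)) ≠ 1 := by
    intro h
    have := (ZMod.isPrimitive_stdAddChar 5) (a := 1) (by decide)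
    apply this
    rw [h]
    ext x
    simp [AddChar.mulShift_apply]
  exact AddChar.sum_eq_zero_of_ne_one h

lemma gauss5 : ∑ j : ZMod 5, (kap j : ℂ) * e5 j = (Real.sqrt 5 : ℝ) := by
  have h : ∀ j : ℤ, e5 (j : ZMod 5) = cexp (2 * Real.pi * I * j / 5) := e5_intCast
  have h1 : e5 1 = cexp ((2 * Real.pi / 5 : ℝ) * I) := by
    have := h 1
    push_cast at this ⊢
    rw [this]; congr 1; ring
  have h4 : e5 4 = cexp ((-(2 * Real.pi / 5) : ℝ) * I) := by
    have := h (-1)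
    push_cast at this ⊢
    rw [show (4 : ZMod 5) = -1 by decide, this]; congr 1; ring
  have h2 : e5 2 = cexp ((4 * Real.pi / 5 : ℝ) * I) := by
    have := h 2
    push_cast at this ⊢
    rw [this]; congr 1; ring
  have h3 : e5 3 = cexp ((-(4 * Real.pi / 5) : ℝ) * I) := by
    have := h (-2)
    push_cast at this ⊢
    rw [show (3 : ZMod 5) = -2 by decide, this]; congr 1; ring
  have hs : ∑ j : ZMod 5, (kap j : ℂ) * e5 j = e5 1 - e5 2 - e5 3 + e5 4 := by
    have e : ∀ F : ZMod 5 → ℂ, ∑ j : ZMod 5, F j = F 0 + F 1 + F 2 + F 3 + F 4 := fun F => by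
      exact Fin.sum_univ_five F
    rw [e]
    have k0 : kap 0 = 0 := by decide
    have k1 : kap 1 = 1 := by decide
    have k2 : kap 2 = -1 := by decide
    have k3 : kap 3 = -1 := by decide
    have k4 : kap 4 = 1 := by decide
    rw [k0, k1, k2, k3, k4]
    push_cast
    ring
  rw [hs, h1, h2, h3, h4]
  have c1 : Real.cos (2 * Real.pi / 5) = (-1 + Real.sqrt 5) / 4 := by
    have : 2 * Real.pi / 5 = 2 * (Real.pi / 5) := by ring
    rw [this, Real.cos_two_mul, Real.cos_pi_div_five]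
    have : Real.sqrt 5 ^ 2 = 5 := Real.sq_sqrt (by norm_num)
    linear_combination (1 / 8 : ℝ) * this
  have c2 : Real.cos (4 * Real.pi / 5) = -(1 + Real.sqrt 5) / 4 := by
    have : 4 * Real.pi / 5 = Real.pi - Real.pi / 5 := by ring
    rw [this, Real.cos_pi_sub, Real.cos_pi_div_five]
    ring
  simp only [exp_ofReal_mul_I]
  rw [Real.cos_neg, Real.cos_neg, Real.sin_neg, Real.sin_neg, c1, c2]
  push_cast
  ring

/-- the vectors of the Weil representation -/
noncomputable def Kv (a b c d : ZMod 5) (x : ZMod 5) : ℂ := ∑ k : ZMod 5, (W a b c d x k : ℂ) * e5 k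

lemma Kv_T {a b c d : ZMod 5} (h : a * d - b * c = 1) (x : ZMod 5) :
    Kv a (a + b) c (c + d) x = Kv a b c d x * e5 (x ^ 2) := by
  unfold Kv
  rw [Finset.sum_mul, ← Equiv.sum_comp (Equiv.addRight (x ^ 2)) (fun k => (W a (a + b) c (c + d) x k : ℂ) * e5 k)]
  refine Finset.sum_congr rfl fun k _ => ?_
  rw [Equiv.coe_addRight, W_T a b c d x _ h, add_sub_cancel_right, e5_add, mul_assoc]

lemma Kv_S {a b c d : ZMod 5} (h : a * d - b * c = 1) (x : ZMod 5) :
    (Real.sqrt 5 : ℝ) * Kv b (-a) d (-c) x = ∑ y, Kv a b c d y * e5 (3 * y * x) := by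
  have h1 : ((Real.sqrt 5 : ℝ) : ℂ) * Kv b (-a) d (-c) x =
      ∑ m : ZMod 5, ((∑ j : ZMod 5, kap j * W b (-a) d (-c) x (m - j) : ℤ) : ℂ) * e5 m := by
    rw [← gauss5]
    unfold Kv
    rw [Finset.sum_mul]
    have : ∀ m : ZMod 5, ((∑ j : ZMod 5, kap j * W b (-a) d (-c) x (m - j) : ℤ) : ℂ) * e5 m =
        ∑ j : ZMod 5, (kap j : ℂ) * e5 j * (W b (-a) d (-c) x (m - j) * e5 (m - j)) := by
      intro m
      push_cast
      rw [Finset.sum_mul]
      refine Finset.sum_congr rfl fun j _ => ?_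
      have : e5 m = e5 j * e5 (m - j) := by rw [← e5_add]; congr 1; ring
      rw [this]; ring
    simp only [this]
    rw [Finset.sum_comm]
    refine Finset.sum_congr rfl fun j _ => ?_
    rw [← Finset.mul_sum]
    congr 1
    rw [← Equiv.sum_comp (Equiv.subRight j) (fun k => (W b (-a) d (-c) x k : ℂ) * e5 k)]
    rfl
  have h2 : ∑ y, Kv a b c d y * e5 (3 * y * x) =
      ∑ m : ZMod 5, ((∑ y : ZMod 5, W a b c d y (m - 3 * y * x) : ℤ) : ℂ) * e5 m := by
    unfold Kv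
    have : ∀ m : ZMod 5, ((∑ y : ZMod 5, W a b c d y (m - 3 * y * x) : ℤ) : ℂ) * e5 m =
        ∑ y : ZMod 5, (W a b c d y (m - 3 * y * x) * e5 (m - 3 * y * x)) * e5 (3 * y * x) := by
      intro m
      push_cast
      rw [Finset.sum_mul]
      refine Finset.sum_congr rfl fun y _ => ?_
      have : e5 m = e5 (m - 3 * y * x) * e5 (3 * y * x) := by rw [← e5_add]; congr 1; ring
      rw [this]; ring
    simp only [this]
    rw [Finset.sum_comm]
    refine Finset.sum_congr rfl fun y _ => ?_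
    rw [← Finset.sum_mul]
    congr 1
    rw [← Equiv.sum_comp (Equiv.subRight (3 * y * x)) (fun k => (W a b c d y k : ℂ) * e5 k)]
    rfl
  rw [h1, h2, ← sub_eq_zero, ← Finset.sum_sub_distrib]
  have h3 := W_S a b c d x
  set m0 : ℤ := (∑ j : ZMod 5, kap j * W b (-a) d (-c) x (0 - j)) - (∑ y : ZMod 5, W a b c d y (0 - 3 * y * x))
    with hm0
  have h4 : ∀ m : ZMod 5, ((∑ j : ZMod 5, kap j * W b (-a) d (-c) x (m - j) : ℤ) : ℂ) * e5 m -
      ((∑ y : ZMod 5, W a b c d y (m - 3 * y * x) : ℤ) : ℂ) * e5 m = (m0 : ℂ) * e5 m := by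
    intro m
    rw [← sub_mul]
    congr 1
    exact_mod_cast h3 m h
  rw [Finset.sum_congr rfl fun m _ => h4 m, ← Finset.mul_sum, sum_e5, mul_zero]

lemma Kv_neg (a b c d x : ZMod 5) : Kv (-a) (-b) (-c) (-d) x = Kv a b c d x := by
  unfold Kv W
  have e1 : ∀ k : ZMod 5, k - -b * -d * x ^ 2 = k - b * d * x ^ 2 := fun k => by ring
  have e2 : ∀ y : ZMod 5, -a * -c * y ^ 2 + 3 * y * x + -d * (-c) ^ 3 * x ^ 2 =
    a * c * y ^ 2 + 3 * y * x + d * c ^ 3 * x ^ 2 := fun y => by ring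
  simp only [neg_eq_zero, e1, e2]

lemma Kv_diag {a d : ZMod 5} (x : ZMod 5) : Kv a 0 0 d x = (Real.sqrt 5 : ℝ) * kap x := by
  unfold Kv W
  simp only [if_true, zero_mul, sub_zero]
  rw [← gauss5, Finset.sum_mul]
  refine Finset.sum_congr rfl fun k _ => ?_
  push_cast
  ring

/-- the entries of an integral matrix modulo `5` -/
noncomputable def KvG (g : SL(2, ℤ)) : ZMod 5 → ℂ := Kv (g 0 0 : ℤ) (g 0 1 : ℤ) (g 1 0 : ℤ) (g 1 1 : ℤ)

lemma det_mod (g : SL(2, ℤ)) : ((g 0 0 : ℤ) : ZMod 5) * ((g 1 1 : ℤ) : ZMod 5) -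
    ((g 0 1 : ℤ) : ZMod 5) * ((g 1 0 : ℤ) : ZMod 5) = 1 := by
  have h := g.det_coe
  rw [Matrix.det_fin_two] at h
  exact_mod_cast congrArg (Int.cast : ℤ → ZMod 5) h

lemma KvG_T (g : SL(2, ℤ)) (x : ZMod 5) : KvG (g * ModularGroup.T) x = KvG g x * e5 (x ^ 2) := by
  rw [KvG, KvG, ← Kv_T (det_mod g)]
  simp [ModularGroup.coe_T, Matrix.mul_apply, Fin.sum_univ_two]

lemma KvG_S (g : SL(2, ℤ)) (x : ZMod 5) :
    (Real.sqrt 5 : ℝ) * KvG (g * ModularGroup.S) x = ∑ y, KvG g y * e5 (3 * y * x) := by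
  rw [KvG, KvG, ← Kv_S (det_mod g)]
  simp [ModularGroup.coe_S, Matrix.mul_apply, Fin.sum_univ_two]

lemma KvG_neg (g : SL(2, ℤ)) (x : ZMod 5) : KvG (-g) x = KvG g x := by
  rw [KvG, KvG, ← Kv_neg (g 0 0 : ℤ)]
  simp

/-- the transformed function -/
noncomputable def gfun (u : ℝ) (z : UpperHalfPlane) : ℂ :=
  (Real.sqrt z.im : ℝ) * Th (fun c => (kap c : ℂ)) (z : ℂ) u

theorem gfun_smul (u : ℝ) (g : SL(2, ℤ)) (z : UpperHalfPlane) :
    (Real.sqrt 5 : ℝ) * gfun u (g • z) = (Real.sqrt z.im : ℝ) * Th (KvG g) (z : ℂ) u := by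
  have : g ∈ Subgroup.closure {ModularGroup.S, ModularGroup.T} := by simp [SpecialLinearGroup.SL2Z_generators]
  revert z
  have hT : ∀ (v : ZMod 5 → ℂ) (z : UpperHalfPlane), Th v ((ModularGroup.T • z : UpperHalfPlane) : ℂ) u =
      Th (fun c => v c * e5 (c ^ 2)) z u := by
    intro v z
    rw [UpperHalfPlane.modular_T_smul, ← Th_T]
    congr 1
    rw [UpperHalfPlane.coe_vadd]
    push_cast
    ring
  have hS : ∀ (v : ZMod 5 → ℂ) (z : UpperHalfPlane), Th v ((ModularGroup.S • z : UpperHalfPlane) : ℂ) u =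
      (‖(z : ℂ)‖ / Real.sqrt 5 : ℝ) * Th (fun c => ∑ c', v c' * e5 (3 * c' * c)) z u := by
    intro v z
    rw [UpperHalfPlane.modular_S_smul, ← Th_S v z.im_pos]
    congr 1
    show (-(z : ℂ))⁻¹ = -1 / (z : ℂ)
    rw [inv_neg, neg_div, one_div]
  have hTim : ∀ z : UpperHalfPlane, (ModularGroup.T • z : UpperHalfPlane).im = z.im := by
    intro z
    rw [UpperHalfPlane.modular_T_smul, UpperHalfPlane.vadd_im]
  have hSim : ∀ z : UpperHalfPlane, Real.sqrt (ModularGroup.S • z : UpperHalfPlane).im = Real.sqrt z.im / ‖(z : ℂ)‖ := by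
    intro z
    rw [UpperHalfPlane.modular_S_smul, UpperHalfPlane.mk_im, ← Real.sqrt_sq (norm_nonneg (z : ℂ)), ← Real.sqrt_div' _ (by positivity),
      ← Complex.normSq_eq_norm_sq]
    congr 1
    rw [inv_im, neg_im, neg_neg, normSq_neg]
    rfl
  have h5 : (Real.sqrt 5 : ℝ) * ((1 / Real.sqrt 5 : ℝ) : ℂ) = 1 := by
    rw [← ofReal_mul, mul_one_div_cancel (by positivity), ofReal_one]
  induction this using Subgroup.closure_induction_right with
  | one =>
    intro z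
    rw [one_smul, gfun, KvG]
    have : Kv ((1 : SL(2, ℤ)) 0 0 : ℤ) ((1 : SL(2, ℤ)) 0 1 : ℤ) ((1 : SL(2, ℤ)) 1 0 : ℤ) ((1 : SL(2, ℤ)) 1 1 : ℤ) =
        fun c => (Real.sqrt 5 : ℝ) * (kap c : ℂ) := by
      funext c
      rw [← Kv_diag (a := 1) (d := 1)]
      simp
    rw [this, Th_smul]
    ring
  | mul_right g hg y hy ih =>
    intro z
    rw [mul_smul, ih]
    rcases hy with rfl | rfl
    · rw [hS, hSim]
      have : (fun c => ∑ c', KvG g c' * e5 (3 * c' * c)) = fun c => (Real.sqrt 5 : ℝ) * KvG (g * ModularGroup.S) c := by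
        funext c; rw [KvG_S]
      rw [this, Th_smul]
      have hz : ‖(z : ℂ)‖ ≠ 0 := norm_ne_zero_iff.2 z.ne_zero
      push_cast
      have h5' : ((Real.sqrt 5 : ℝ) : ℂ) ≠ 0 := by
        intro h; rw [h, zero_mul] at h5; exact zero_ne_one h5
      have hz' : ((‖(z : ℂ)‖ : ℝ) : ℂ) ≠ 0 := by exact_mod_cast hz
      field_simp
    · rw [hT, hTim]
      congr 2
      funext c
      rw [KvG_T]
  | mul_inv_cancel g hg y hy ih =>
    intro z
    rcases hy with rfl | rfl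
    · have e : (g * ModularGroup.S⁻¹) = -(g * ModularGroup.S) := by
        have : ModularGroup.S⁻¹ = -ModularGroup.S := by
          ext i j
          fin_cases i <;> fin_cases j <;> simp [ModularGroup.coe_S, Matrix.SpecialLinearGroup.coe_inv, Matrix.adjugate_fin_two]
        rw [this, mul_neg]
      rw [e]
      have : (-(g * ModularGroup.S)) • z = g • (ModularGroup.S • z) := by
        rw [← mul_smul]
        exact ModularGroup.SL_neg_smul _ _
      rw [this, ih, hS, hSim]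
      have : (fun c => ∑ c', KvG g c' * e5 (3 * c' * c)) = fun c => (Real.sqrt 5 : ℝ) * KvG (-(g * ModularGroup.S)) c := by
        funext c; rw [KvG_neg, KvG_S]
      rw [this, Th_smul]
      have hz : ‖(z : ℂ)‖ ≠ 0 := norm_ne_zero_iff.2 z.ne_zero
      push_cast
      have h5' : ((Real.sqrt 5 : ℝ) : ℂ) ≠ 0 := by
        intro h; rw [h, zero_mul] at h5; exact zero_ne_one h5
      have hz' : ((‖(z : ℂ)‖ : ℝ) : ℂ) ≠ 0 := by exact_mod_cast hz
      field_simp
    · obtain ⟨w, rfl⟩ : ∃ w, z = ModularGroup.T • w := ⟨ModularGroup.T⁻¹ • z, by rw [smul_inv_smul]⟩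
      rw [mul_smul, inv_smul_smul, ih, hT, hTim]
      congr 2
      funext c
      rw [← KvG_T, inv_mul_cancel_right]

end Pool.Agent.J4.H31.MF
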