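import Mathlib
import Pool.Agent.J4.H31.MF.H
import Pool.Agent.J4.H31.MF.Weil

/-! The Maass form and its behaviour under `SL₂(ℤ)`. -/

set_option autoImplicit false

open Complex MeasureTheory
open scoped MatrixGroups

namespace Pool.Agent.J4.H31.MF

/-- the fractional linear action of `SL₂(ℤ)` -/
noncomputable def moeb (g : SL(2, ℤ)) (z : ℂ) : ℂ :=
  ((g 0 0 : ℤ) * z + (g 0 1 : ℤ)) / ((g 1 0 : ℤ) * z + (g 1 1 : ℤ))

lemma coe_smul_eq (g : SL(2, ℤ)) (z : UpperHalfPlane) : ((g • z : UpperHalfPlane) : ℂ) = moeb g z := by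
  rw [UpperHalfPlane.specialLinearGroup_apply]
  simp [moeb]

lemma moeb_im_pos (g : SL(2, ℤ)) {z : ℂ} (hz : 0 < z.im) : 0 < (moeb g z).im := by
  have := (g • (⟨z, hz⟩ : UpperHalfPlane)).im_pos
  rwa [← UpperHalfPlane.coe_im, coe_smul_eq] at this

lemma denom_ne {g : SL(2, ℤ)} {z : ℂ} (hz : 0 < z.im) : ((g 1 0 : ℤ) : ℂ) * z + (g 1 1 : ℤ) ≠ 0 := by
  intro h
  have h1 := congrArg Complex.im h
  simp at h1
  have hc : (g 1 0 : ℤ) = 0 := by
    rcases h1 with h1 | h1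
    · exact h1
    · exact absurd h1 hz.ne'
  have h2 := congrArg Complex.re h
  simp [hc] at h2
  have hdet := g.det_coe
  rw [Matrix.det_fin_two] at hdet
  rw [hc, h2] at hdet
  simp at hdet

/-- the exponentials -/
noncomputable def ex (x : ℝ) (N : ℤ) : ℂ := cexp (((2 * Real.pi * x * N : ℝ) : ℂ) * I)

lemma norm_ex (x : ℝ) (N : ℤ) : ‖ex x N‖ = 1 := by
  unfold ex
  rw [Complex.norm_exp_ofReal_mul_I]

lemma ex_add (x y : ℝ) (N : ℤ) : ex (x + y) N = ex x N * ex y N := by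
  unfold ex
  rw [← Complex.exp_add]
  congr 1
  push_cast
  ring

lemma ex_one (N : ℤ) : ex 1 N = 1 := by
  unfold ex
  rw [show (((2 * Real.pi * 1 * N : ℝ) : ℂ) * I) = N * (2 * Real.pi * I) by push_cast; ring]
  exact Complex.exp_int_mul_two_pi_mul_I N

lemma PB_one_bound {w : ℤ → ℂ} (C : ℝ) (h : ∀ N, ‖w N‖ ≤ C) : PB w := ⟨C, 0, fun N => by simpa using h N⟩

lemma PB_ex (x : ℝ) : PB (ex x) := PB_one_bound 1 fun N => (norm_ex x N).le

lemma ker_eq (x y u : ℝ) (p : ℤ × ℤ) : ker x y u p = ex x (nm p) * (Real.exp (-(Real.pi * y * q u p)) : ℂ) := by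
  unfold ker ex
  rw [ofReal_exp, ← Complex.exp_add]
  congr 1
  push_cast
  ring

/-- the integrals of the theta functions over one period -/
noncomputable def Gv (v : ZMod 5 → ℂ) (z : ℂ) : ℂ :=
  (Real.sqrt z.im : ℝ) * ∫ u in (0 : ℝ)..(0 + UU), Th v z u * ee u

lemma SG_res (v : ZMod 5 → ℂ) (x : ℝ) : SG fun p => v (res p) * ex x (nm p) := by
  obtain ⟨C, hC⟩ := exists_bound v
  refine SG_of_poly C 0 fun p => ?_
  rw [norm_mul, norm_ex, mul_one, pow_zero, mul_one]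
  exact hC _

lemma Gv_eq (v : ZMod 5 → ℂ) {z : ℂ} (hz : 0 < z.im) :
    Gv v z = (Real.sqrt z.im : ℝ) * ∑' p, (v (res p) * ex (z.re / 5) (nm p)) * Ts 0 (z.im / 5) p := by
  unfold Gv
  rw [(SG_res v (z.re / 5)).tsum_Ts 0 (by positivity)]
  congr 2
  funext u
  congr 1
  unfold Th
  refine tsum_congr fun p => ?_
  rw [ker_eq]
  ring

/-- the Maass form -/
noncomputable def f (z : ℂ) : ℂ := (1 / 2 : ℂ) * ((Real.sqrt z.im : ℝ) * H (ex z.re) z.im)

lemma f_eq {z : ℂ} (hz : 0 < z.im) : f z = (1 / (2 * Real.sqrt 5) : ℝ) * Gv (fun c => (kap c : ℂ)) (5 * z) := by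
  have h5 : (5 * z).im = 5 * z.im := by simp
  have h5' : (5 * z).re = 5 * z.re := by simp
  rw [Gv_eq _ (by rw [h5]; positivity), h5, h5', f, H]
  rw [Real.sqrt_mul (by norm_num)]
  have e1 : 5 * z.re / 5 = z.re := by ring
  have e2 : 5 * z.im / 5 = z.im := by ring
  rw [e1, e2]
  have : ((Real.sqrt 5 : ℝ) : ℂ) ≠ 0 := by
    have : Real.sqrt 5 ≠ 0 := by positivity
    exact_mod_cast this
  push_cast
  field_simp

theorem Gv_smul (g : SL(2, ℤ)) {z : ℂ} (hz : 0 < z.im) :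
    (Real.sqrt 5 : ℝ) * Gv (fun c => (kap c : ℂ)) (moeb g z) = Gv (KvG g) z := by
  have key : ∀ u : ℝ, (Real.sqrt 5 : ℝ) * ((Real.sqrt (moeb g z).im : ℝ) *
      Th (fun c => (kap c : ℂ)) (moeb g z) u) = (Real.sqrt z.im : ℝ) * Th (KvG g) z u := by
    intro u
    have := gfun_smul u g ⟨z, hz⟩
    unfold gfun at this
    rw [← UpperHalfPlane.coe_im, coe_smul_eq] at this
    exact this
  unfold Gv
  rw [← mul_assoc, ← intervalIntegral.integral_const_mul, ← intervalIntegral.integral_const_mul]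
  congr 1
  funext u
  linear_combination ee u * key u

lemma Gv_smul_mul (r : ℂ) (v : ZMod 5 → ℂ) (z : ℂ) : Gv (fun c => r * v c) z = r * Gv v z := by
  unfold Gv
  simp only [Th_smul, mul_assoc, intervalIntegral.integral_const_mul]
  ring

lemma sqrt5_ne : ((Real.sqrt 5 : ℝ) : ℂ) ≠ 0 := by
  have : Real.sqrt 5 ≠ 0 := by positivity
  exact_mod_cast this

/-- the matrix conjugated by `diag (5, 1)` when the lower left entry is divisible by `5` -/
def cj (g : SL(2, ℤ)) (c : ℤ) (hc : g 1 0 = 5 * c) : SL(2, ℤ) :=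
  ⟨!![g 0 0, 5 * g 0 1; c, g 1 1], by
    have h := g.det_coe
    rw [Matrix.det_fin_two] at h
    rw [Matrix.det_fin_two_of]
    rw [hc] at h
    linear_combination h⟩

lemma moeb_cj (g : SL(2, ℤ)) (c : ℤ) (hc : g 1 0 = 5 * c) (z : ℂ) :
    5 * moeb g z = moeb (cj g c hc) (5 * z) := by
  unfold moeb
  rw [← mul_div_assoc]
  congr 1
  · simp [cj]; ring
  · simp [cj, hc]; ring

lemma five_im_pos {z : ℂ} (hz : 0 < z.im) : 0 < (5 * z).im := by
  simpa using hz

lemma five_zmod : (5 : ZMod 5) = 0 := by decide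

/-- invariance under `Γ₀(25)` -/
theorem f_invariant (g : SL(2, ℤ)) (hg : (25 : ℤ) ∣ g 1 0) {z : ℂ} (hz : 0 < z.im) : f (moeb g z) = f z := by
  obtain ⟨c, hc⟩ := hg
  have hc' : g 1 0 = 5 * (5 * c) := by rw [hc]; ring
  rw [f_eq (moeb_im_pos g hz), f_eq hz, moeb_cj g _ hc']
  congr 1
  have h := Gv_smul (cj g _ hc') (five_im_pos hz)
  have h2 : KvG (cj g _ hc') = fun c => (Real.sqrt 5 : ℝ) * (kap c : ℂ) := by
    funext x
    rw [KvG, ← Kv_diag (a := (cj g _ hc' 0 0 : ℤ)) (d := (cj g _ hc' 1 1 : ℤ))]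
    have e1 : ((cj g _ hc' 0 1 : ℤ) : ZMod 5) = 0 := by
      simp only [cj, Matrix.SpecialLinearGroup.coe_mk, Matrix.of_apply, Matrix.cons_val', Matrix.cons_val_zero,
        Matrix.cons_val_one, Matrix.cons_val_fin_one]
      push_cast
      rw [five_zmod, zero_mul]
    have e2 : ((cj g _ hc' 1 0 : ℤ) : ZMod 5) = 0 := by
      simp only [cj, Matrix.SpecialLinearGroup.coe_mk, Matrix.of_apply, Matrix.cons_val', Matrix.cons_val_zero,
        Matrix.cons_val_one, Matrix.cons_val_fin_one]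
      push_cast
      rw [five_zmod, zero_mul]
    rw [e1, e2]
  rw [h2, Gv_smul_mul] at h
  exact mul_left_cancel₀ sqrt5_ne h

lemma KvG_Smat (x : ZMod 5) : KvG ModularGroup.S x = -(Real.sqrt 5 : ℝ) * (kap x : ℂ) := by
  have hW : ∀ x k : ZMod 5, W 0 (-1) 1 0 x k = -(kap x * kap k) := by decide +kernel
  have : KvG ModularGroup.S x = Kv 0 (-1) 1 0 x := by
    rw [KvG]
    simp [ModularGroup.coe_S]
  rw [this, Kv, ← gauss5, ← Finset.sum_neg_distrib, Finset.sum_mul]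
  refine Finset.sum_congr rfl fun k _ => ?_
  rw [hW]
  push_cast
  ring

/-- the Fricke involution -/
theorem f_fricke {z : ℂ} (hz : 0 < z.im) : f (-1 / (25 * z)) = -f z := by
  have hz0 : z ≠ 0 := by
    rintro rfl
    simp at hz
  have h25 : 0 < (25 * z).im := by simpa using hz
  have him : 0 < (-1 / (25 * z)).im := im_neg_inv_pos h25
  rw [f_eq him, f_eq hz]
  have h := Gv_smul ModularGroup.S (five_im_pos hz)
  have e : moeb ModularGroup.S (5 * z) = 5 * (-1 / (25 * z)) := by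
    unfold moeb
    simp [ModularGroup.coe_S]
    field_simp
    norm_num
  have h2 : KvG ModularGroup.S = fun x => -(Real.sqrt 5 : ℝ) * (kap x : ℂ) := by
    funext x
    exact KvG_Smat x
  rw [e, h2, Gv_smul_mul] at h
  have h3 : Gv (fun c => (kap c : ℂ)) (5 * (-1 / (25 * z))) = -Gv (fun c => (kap c : ℂ)) (5 * z) := by
    apply mul_left_cancel₀ sqrt5_ne
    rw [h]
    ring
  rw [h3]
  ring

end Pool.Agent.J4.H31.MF
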