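import Mathlib
import Pool.Agent.J4.H31.MF.Form

/-! Decay and vanishing of the constant terms at the cusps. -/

set_option autoImplicit false

open Complex MeasureTheory
open scoped MatrixGroups

namespace Pool.Agent.J4.H31.MF

lemma al_zero_iff {p : ℤ × ℤ} (h : al p = 0) : p = 0 := by
  unfold al at h
  have hirr : Irrational gr := Real.goldenRatio_irrational
  by_cases h2 : p.2 = 0
  · rw [h2] at h
    simp at h
    exact Prod.ext h h2
  · exfalso
    have h2' : (p.2 : ℝ) ≠ 0 := by exact_mod_cast h2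
    apply hirr
    refine ⟨-(p.1 : ℚ) / p.2, ?_⟩
    push_cast
    field_simp
    linarith

lemma al'_zero_iff {p : ℤ × ℤ} (h : al' p = 0) : p = 0 := by
  unfold al' at h
  have hirr : Irrational gc := Real.goldenConj_irrational
  by_cases h2 : p.2 = 0
  · rw [h2] at h
    simp at h
    exact Prod.ext h h2
  · exfalso
    have h2' : (p.2 : ℝ) ≠ 0 := by exact_mod_cast h2
    apply hirr
    refine ⟨-(p.1 : ℚ) / p.2, ?_⟩
    push_cast
    field_simp
    linarith

lemma nm_eq_zero {p : ℤ × ℤ} (h : nm p = 0) : p = 0 := by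
  have h1 := al_mul_al' p
  rw [h, Int.cast_zero] at h1
  rcases mul_eq_zero.1 h1 with h2 | h2
  · exact al_zero_iff h2
  · exact al'_zero_iff h2

lemma one_le_sq {p : ℤ × ℤ} (h : p ≠ 0) : (1 : ℝ) ≤ (p.1 : ℝ) ^ 2 + (p.2 : ℝ) ^ 2 := by
  have : (1 : ℤ) ≤ p.1 ^ 2 + p.2 ^ 2 := by
    by_contra hcon
    push Not at hcon
    have h1 : p.1 = 0 := by nlinarith [sq_nonneg p.1, sq_nonneg p.2]
    have h2 : p.2 = 0 := by nlinarith [sq_nonneg p.1, sq_nonneg p.2]
    exact h (Prod.ext h1 h2)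
  exact_mod_cast this

lemma integral_ee (s : ℝ) : ∫ u in s..(s + UU), ee u = 0 := by
  unfold ee
  have hnu := nu_pos
  have h : (2 * (nu : ℂ) * I) ≠ 0 := by
    have : (nu : ℂ) ≠ 0 := by exact_mod_cast hnu.ne'
    simp [this]
  have e : ∀ u : ℝ, cexp (((2 * nu * u : ℝ) : ℂ) * I) = cexp (2 * (nu : ℂ) * I * u) := by
    intro u
    congr 1
    push_cast
    ring
  simp only [e]
  rw [integral_exp_mul_complex h]
  have : cexp (2 * (nu : ℂ) * I * ((s + UU : ℝ) : ℂ)) = cexp (2 * (nu : ℂ) * I * (s : ℂ)) := by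
    rw [← e, ← e]
    have := ee_add s UU
    rw [ee_UU, mul_one] at this
    exact this
  rw [this, sub_self, zero_div]

lemma q_zero (u : ℝ) : q u 0 = 0 := by
  unfold q al al'
  simp

lemma Ts_zero (s y : ℝ) : Ts s y 0 = 0 := by
  unfold Ts
  simp only [q_zero, mul_zero, neg_zero, Real.exp_zero, ofReal_one, one_mul]
  exact integral_ee s

lemma dom_le {t t0 : ℝ} (h : t0 ≤ t) {p : ℤ × ℤ} (hp : p ≠ 0) : dom t p ≤ Real.exp (-(t - t0)) * dom t0 p := by
  unfold dom
  rw [← Real.exp_add]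
  apply Real.exp_le_exp.2
  nlinarith [one_le_sq hp]

/-- exponential decay -/
theorem SG.bound {c : ℤ × ℤ → ℂ} (hc : SG c) {y0 : ℝ} (hy0 : 0 < y0) :
    ∃ C δ : ℝ, 0 ≤ C ∧ 0 < δ ∧ ∀ y : ℝ, y0 ≤ y → ∀ c' : ℤ × ℤ → ℂ, (∀ p, ‖c' p‖ ≤ ‖c p‖) →
      ‖∑' p, c' p * Ts 0 y p‖ ≤ C * Real.exp (-(δ * y)) := by
  set δ := Real.pi * Real.exp (-(2 * (|0| + UU))) with hδ
  have hδ0 : 0 < δ := by positivity
  have hU := UU_pos
  have hs := hc (δ * y0) (by positivity)
  refine ⟨UU * Real.exp (δ * y0) * ∑' p, ‖c p‖ * dom (δ * y0) p, δ, ?_, hδ0, ?_⟩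
  · have : 0 ≤ ∑' p, ‖c p‖ * dom (δ * y0) p := tsum_nonneg fun p => mul_nonneg (norm_nonneg _) (dom_pos _ _).le
    positivity
  intro y hy c' hc'
  have hy' : 0 < y := hy0.trans_le hy
  have hb : ∀ p, ‖c' p * Ts 0 y p‖ ≤ (UU * Real.exp (δ * y0) * Real.exp (-(δ * y))) * (‖c p‖ * dom (δ * y0) p) := by
    intro p
    by_cases hp : p = 0
    · rw [hp, Ts_zero, mul_zero, norm_zero]
      have := dom_pos (δ * y0) 0
      positivity
    · rw [norm_mul]
      have h1 := norm_Ts_le 0 hy'.le p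
      have e1 : Real.pi * y * Real.exp (-(2 * (|0| + UU))) = δ * y := by rw [hδ]; ring
      rw [e1] at h1
      have h2 := dom_le (t := δ * y) (t0 := δ * y0) (by gcongr) hp
      have e2 : Real.exp (-(δ * y - δ * y0)) = Real.exp (δ * y0) * Real.exp (-(δ * y)) := by
        rw [← Real.exp_add]; congr 1; ring
      rw [e2] at h2
      calc ‖c' p‖ * ‖Ts 0 y p‖ ≤ ‖c p‖ * (UU * (Real.exp (δ * y0) * Real.exp (-(δ * y)) * dom (δ * y0) p)) := by
            refine mul_le_mul (hc' p) (h1.trans ?_) (norm_nonneg _) (norm_nonneg _)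
            exact mul_le_mul_of_nonneg_left h2 hU.le
        _ = _ := by ring
  refine (tsum_of_norm_bounded (hs.mul_left _).hasSum hb).trans ?_
  rw [tsum_mul_left]
  apply le_of_eq
  ring

lemma sqrt_le {δ y : ℝ} (hδ : 0 < δ) (hy : 0 ≤ y) : Real.sqrt y ≤ (1 + 1 / δ) * Real.exp (δ * y) := by
  have h1 : Real.sqrt y ≤ 1 + y := by
    rw [Real.sqrt_le_left (by linarith)]
    nlinarith
  have h2 : δ * y ≤ Real.exp (δ * y) := by
    have := Real.add_one_le_exp (δ * y)
    linarith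
  have h3 : (1 : ℝ) ≤ Real.exp (δ * y) := Real.one_le_exp (by positivity)
  have h4 : y ≤ 1 / δ * Real.exp (δ * y) := by
    rw [div_mul_eq_mul_div, one_mul, le_div_iff₀ hδ]
    linarith
  linarith

theorem Gv_bound (v : ZMod 5 → ℂ) {y0 : ℝ} (hy0 : 0 < y0) :
    ∃ C δ : ℝ, 0 ≤ C ∧ 0 < δ ∧ ∀ z : ℂ, y0 ≤ z.im → ‖Gv v z‖ ≤ C * Real.exp (-(δ * z.im)) := by
  have hsg : SG fun p => v (res p) := by
    refine (SG_res v 0).of_le 1 fun p => ?_
    rw [norm_mul, norm_ex, mul_one, one_mul]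
  obtain ⟨C, δ, hC, hδ, hb⟩ := hsg.bound (y0 := y0 / 5) (by positivity)
  refine ⟨(1 + 1 / (δ / 10)) * C, δ / 10, by positivity, by positivity, fun z hz => ?_⟩
  have hz0 : 0 < z.im := hy0.trans_le hz
  rw [Gv_eq v hz0, norm_mul, Complex.norm_real, Real.norm_of_nonneg (Real.sqrt_nonneg _)]
  have h1 := hb (z.im / 5) (by linarith) (fun p => v (res p) * ex (z.re / 5) (nm p))
    (fun p => by rw [norm_mul, norm_ex, mul_one])
  have h2 := sqrt_le (δ := δ / 10) (by positivity) hz0.le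
  calc Real.sqrt z.im * _ ≤ ((1 + 1 / (δ / 10)) * Real.exp (δ / 10 * z.im)) * (C * Real.exp (-(δ * (z.im / 5)))) := by
        gcongr
    _ = (1 + 1 / (δ / 10)) * C * (Real.exp (δ / 10 * z.im) * Real.exp (-(δ * (z.im / 5)))) := by ring
    _ = _ := by
        rw [← Real.exp_add]
        congr 2
        ring

/-- the matrix used when the lower left entry is prime to `5` -/
def cj' (g : SL(2, ℤ)) (j d : ℤ) (h : g 1 1 - j * g 1 0 = 5 * d) : SL(2, ℤ) :=
  ⟨!![5 * g 0 0, g 0 1 - j * g 0 0; g 1 0, d], by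
    have h1 := g.det_coe
    rw [Matrix.det_fin_two] at h1
    rw [Matrix.det_fin_two_of]
    linear_combination h1 - (g 0 0 : ℤ) * h⟩

lemma moeb_cj' (g : SL(2, ℤ)) (j d : ℤ) (h : g 1 1 - j * g 1 0 = 5 * d) (z : ℂ) :
    5 * moeb g z = moeb (cj' g j d h) ((z + j) / 5) := by
  unfold moeb
  have h' : ((g 1 1 : ℤ) : ℂ) - j * (g 1 0 : ℤ) = 5 * d := by exact_mod_cast h
  simp only [cj', Matrix.SpecialLinearGroup.coe_mk, Matrix.of_apply, Matrix.cons_val', Matrix.cons_val_zero,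
    Matrix.cons_val_one, Matrix.cons_val_fin_one]
  push_cast
  have e1 : ((g 1 0 : ℤ) : ℂ) * ((z + j) / 5) + d = ((g 1 0 : ℤ) * z + (g 1 1 : ℤ)) / 5 := by
    linear_combination (-(1 / 5) : ℂ) * h'
  have e2 : 5 * ((g 0 0 : ℤ) : ℂ) * ((z + j) / 5) + ((g 0 1 : ℤ) - j * (g 0 0 : ℤ)) = (g 0 0 : ℤ) * z + (g 0 1 : ℤ) := by
    ring
  rw [e1, e2]
  field_simp

/-- the two types of cusps -/
lemma cusp_cases (g : SL(2, ℤ)) : (∃ v : ZMod 5 → ℂ, ∀ z : ℂ, 0 < z.im → f (moeb g z) = Gv v (5 * z)) ∨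
    (∃ (v : ZMod 5 → ℂ) (j : ℤ), ∀ z : ℂ, 0 < z.im → f (moeb g z) = Gv v ((z + j) / 5)) := by
  by_cases h5 : (5 : ℤ) ∣ g 1 0
  · left
    obtain ⟨c, hc⟩ := h5
    refine ⟨fun x => (1 / 10 : ℝ) * KvG (cj g c hc) x, fun z hz => ?_⟩
    rw [f_eq (moeb_im_pos g hz), moeb_cj g c hc, Gv_smul_mul, ← Gv_smul _ (five_im_pos hz), ← mul_assoc]
    congr 1
    rw [← ofReal_mul]
    congr 1
    have : Real.sqrt 5 * Real.sqrt 5 = 5 := Real.mul_self_sqrt (by norm_num)
    have h : Real.sqrt 5 ≠ 0 := by positivity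
    field_simp
    linarith
  · right
    obtain ⟨j, d, hjd⟩ : ∃ j d : ℤ, g 1 1 - j * g 1 0 = 5 * d := by
      have h1 : (g 1 0 : ℤ) % 5 = 1 ∨ (g 1 0 : ℤ) % 5 = 2 ∨ (g 1 0 : ℤ) % 5 = 3 ∨ (g 1 0 : ℤ) % 5 = 4 := by omega
      rcases h1 with h | h | h | h
      · refine ⟨g 1 1, (g 1 1 - g 1 1 * g 1 0) / 5, ?_⟩
        have : (5 : ℤ) ∣ (g 1 1 - g 1 1 * g 1 0) := by
          apply Int.dvd_of_emod_eq_zero
          rw [Int.sub_emod, Int.mul_emod, h]
          omega
        omega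
      · refine ⟨3 * g 1 1, (g 1 1 - 3 * g 1 1 * g 1 0) / 5, ?_⟩
        have : (5 : ℤ) ∣ (g 1 1 - 3 * g 1 1 * g 1 0) := by
          apply Int.dvd_of_emod_eq_zero
          rw [Int.sub_emod, Int.mul_emod, h]
          omega
        omega
      · refine ⟨2 * g 1 1, (g 1 1 - 2 * g 1 1 * g 1 0) / 5, ?_⟩
        have : (5 : ℤ) ∣ (g 1 1 - 2 * g 1 1 * g 1 0) := by
          apply Int.dvd_of_emod_eq_zero
          rw [Int.sub_emod, Int.mul_emod, h]
          omega
        omega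
      · refine ⟨4 * g 1 1, (g 1 1 - 4 * g 1 1 * g 1 0) / 5, ?_⟩
        have : (5 : ℤ) ∣ (g 1 1 - 4 * g 1 1 * g 1 0) := by
          apply Int.dvd_of_emod_eq_zero
          rw [Int.sub_emod, Int.mul_emod, h]
          omega
        omega
    refine ⟨fun x => (1 / 10 : ℝ) * KvG (cj' g j d hjd) x, j, fun z hz => ?_⟩
    have hz' : 0 < ((z + j) / 5).im := by
      have : ((z + j) / 5).im = z.im / 5 := by
        rw [show (5 : ℂ) = ((5 : ℝ) : ℂ) by norm_num, Complex.div_ofReal_im]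
        simp
      rw [this]
      positivity
    rw [f_eq (moeb_im_pos g hz), moeb_cj' g j d hjd, Gv_smul_mul, ← Gv_smul _ hz', ← mul_assoc]
    congr 1
    rw [← ofReal_mul]
    congr 1
    have : Real.sqrt 5 * Real.sqrt 5 = 5 := Real.mul_self_sqrt (by norm_num)
    have h : Real.sqrt 5 ≠ 0 := by positivity
    field_simp
    linarith

lemma div_five_im (z : ℂ) (j : ℤ) : ((z + j) / 5).im = z.im / 5 := by
  rw [show (5 : ℂ) = ((5 : ℝ) : ℂ) by norm_num, Complex.div_ofReal_im]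
  simp

lemma div_five_re (z : ℂ) (j : ℤ) : ((z + j) / 5).re = (z.re + j) / 5 := by
  rw [show (5 : ℂ) = ((5 : ℝ) : ℂ) by norm_num, Complex.div_ofReal_re]
  simp

/-- exponential decay at all cusps -/
theorem f_decay (g : SL(2, ℤ)) : ∃ C δ : ℝ, 0 < δ ∧ ∀ z : ℂ, 1 ≤ z.im →
    ‖f (moeb g z)‖ ≤ C * Real.exp (-(δ * z.im)) := by
  rcases cusp_cases g with ⟨v, hv⟩ | ⟨v, j, hv⟩
  · obtain ⟨C, δ, hC, hδ, hb⟩ := Gv_bound v (y0 := 5) (by norm_num)
    refine ⟨C, δ * 5, by positivity, fun z hz => ?_⟩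
    rw [hv z (by linarith)]
    have := hb (5 * z) (by simp; linarith)
    refine this.trans (le_of_eq ?_)
    congr 2
    simp
    ring
  · obtain ⟨C, δ, hC, hδ, hb⟩ := Gv_bound v (y0 := 1 / 5) (by norm_num)
    refine ⟨C, δ / 5, by positivity, fun z hz => ?_⟩
    rw [hv z (by linarith)]
    have := hb ((z + j) / 5) (by rw [div_five_im]; linarith)
    refine this.trans (le_of_eq ?_)
    congr 2
    rw [div_five_im]
    ring

lemma integral_ex {a b : ℝ} {k : ℤ} (hk : k ≠ 0) (ha : a * 25 = k) {N : ℤ} (hN : N ≠ 0) :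
    ∫ x in (0 : ℝ)..25, ex (a * x + b) N = 0 := by
  have hkN : (k : ℝ) * N ≠ 0 := by exact_mod_cast mul_ne_zero hk hN
  have ha' : a = k / 25 := by linarith
  have h : (2 * Real.pi * a * N * I : ℂ) ≠ 0 := by
    have h1 : a * N ≠ 0 := by
      rw [ha']
      intro h
      apply hkN
      linarith
    have h2 : ((a * N : ℝ) : ℂ) ≠ 0 := by exact_mod_cast h1
    have h3 : (2 * Real.pi * a * N * I : ℂ) = ((a * N : ℝ) : ℂ) * (2 * Real.pi * I) := by push_cast; ring
    rw [h3]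
    exact mul_ne_zero h2 Complex.two_pi_I_ne_zero
  have e : ∀ x : ℝ, ex (a * x + b) N = ex b N * cexp (2 * Real.pi * a * N * I * x) := by
    intro x
    unfold ex
    rw [← Complex.exp_add]
    congr 1
    push_cast
    ring
  simp only [e]
  rw [intervalIntegral.integral_const_mul, integral_exp_mul_complex h]
  have : cexp (2 * Real.pi * a * N * I * ((25 : ℝ) : ℂ)) = 1 := by
    have : 2 * Real.pi * a * N * I * ((25 : ℝ) : ℂ) = ((k * N : ℤ) : ℂ) * (2 * Real.pi * I) := by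
      rw [ha']
      push_cast
      ring
    rw [this]
    exact Complex.exp_int_mul_two_pi_mul_I _
  rw [this]
  simp

lemma integral_tsum_zero {c : ℤ × ℤ → ℂ} (hc : SG c) {a b : ℝ} {k : ℤ} (hk : k ≠ 0) (ha : a * 25 = k)
    {y : ℝ} (hy : 0 < y) :
    ∫ x in (0 : ℝ)..25, ∑' p, (c p * ex (a * x + b) (nm p)) * Ts 0 y p = 0 := by
  have hb : Summable fun p => ‖c p * Ts 0 y p‖ := (hc.summable_Ts 0 hy).norm
  have key := intervalIntegral.hasSum_integral_of_dominated_convergence (μ := volume) (a := 0) (b := 25)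
    (F := fun p x => (c p * ex (a * x + b) (nm p)) * Ts 0 y p)
    (f := fun x => ∑' p, (c p * ex (a * x + b) (nm p)) * Ts 0 y p)
    (fun p _ => ‖c p * Ts 0 y p‖)
    (fun p => by
      apply Continuous.aestronglyMeasurable
      unfold ex
      fun_prop)
    (fun p => Filter.Eventually.of_forall fun u hu => by
      rw [norm_mul, norm_mul, norm_ex, mul_one, norm_mul])
    (Filter.Eventually.of_forall fun u _ => hb)
    (by simp)
    (Filter.Eventually.of_forall fun u hu => by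
      refine Summable.hasSum (Summable.of_norm_bounded hb fun p => ?_)
      rw [norm_mul, norm_mul, norm_ex, mul_one, norm_mul])
  rw [← key.tsum_eq]
  have : ∀ p : ℤ × ℤ, ∫ x in (0 : ℝ)..25, (c p * ex (a * x + b) (nm p)) * Ts 0 y p = 0 := by
    intro p
    by_cases hp : p = 0
    · simp [hp, Ts_zero]
    · rw [intervalIntegral.integral_mul_const, intervalIntegral.integral_const_mul,
        integral_ex hk ha (fun h => hp (nm_eq_zero h)), mul_zero, zero_mul]
  simp [this]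

/-- the constant terms vanish -/
theorem f_constant_term (g : SL(2, ℤ)) {y : ℝ} (hy : 0 < y) :
    ∫ x in (0 : ℝ)..25, f (moeb g (x + y * I)) = 0 := by
  have hsg : ∀ v : ZMod 5 → ℂ, SG fun p => v (res p) := by
    intro v
    refine (SG_res v 0).of_le 1 fun p => ?_
    rw [norm_mul, norm_ex, mul_one, one_mul]
  have him : ∀ x : ℝ, ((x : ℂ) + y * I).im = y := fun x => by simp
  have hre : ∀ x : ℝ, ((x : ℂ) + y * I).re = x := fun x => by simp
  rcases cusp_cases g with ⟨v, hv⟩ | ⟨v, j, hv⟩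
  · have e : ∀ x : ℝ, f (moeb g (x + y * I)) = (Real.sqrt (5 * y) : ℝ) *
        ∑' p, (v (res p) * ex (1 * x + 0) (nm p)) * Ts 0 y p := by
      intro x
      have h0 : 0 < ((x : ℂ) + y * I).im := by rw [him]; exact hy
      rw [hv _ h0, Gv_eq v (five_im_pos h0)]
      have h1 : (5 * ((x : ℂ) + y * I)).im = 5 * y := by simp
      have h2 : (5 * ((x : ℂ) + y * I)).re = 5 * x := by simp
      rw [h1, h2]
      congr 1
      refine tsum_congr fun p => ?_
      rw [show 5 * x / 5 = 1 * x + 0 by ring, show 5 * y / 5 = y by ring]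
    simp only [e]
    rw [intervalIntegral.integral_const_mul, integral_tsum_zero (hsg v) (k := 25) (by norm_num) (by norm_num) hy,
      mul_zero]
  · have e : ∀ x : ℝ, f (moeb g (x + y * I)) = (Real.sqrt (y / 5) : ℝ) *
        ∑' p, (v (res p) * ex (1 / 25 * x + j / 25) (nm p)) * Ts 0 (y / 25) p := by
      intro x
      have h0 : 0 < ((x : ℂ) + y * I).im := by rw [him]; exact hy
      rw [hv _ h0, Gv_eq v (by rw [div_five_im, him]; positivity), div_five_im, div_five_re, him, hre]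
      congr 1
      refine tsum_congr fun p => ?_
      rw [show (x + j) / 5 / 5 = 1 / 25 * x + j / 25 by ring, show y / 5 / 5 = y / 25 by ring]
    simp only [e]
    rw [intervalIntegral.integral_const_mul, integral_tsum_zero (hsg v) (k := 1) (by norm_num) (by norm_num)
      (by positivity), mul_zero]

end Pool.Agent.J4.H31.MF
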