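import Mathlib
import Pool.Agent.J4.H31.MF.Cusp

/-! Unfolding: the functional `H` as a sum over a fundamental domain. -/

set_option autoImplicit false

open Complex MeasureTheory

namespace Pool.Agent.J4.H31.MF

/-- The modified Bessel function `K_{iν}(x)`. -/
noncomputable def KB (x : ℝ) : ℝ := ∫ t in Set.Ioi (0 : ℝ), Real.exp (-x * Real.cosh t) * Real.cos (nu * t)

lemma cosh_lower (v : ℝ) : 1 / 2 + v ^ 2 / 8 ≤ Real.cosh v := by
  have h1 := Real.one_le_cosh v
  have h2 : v ^ 2 / 4 ≤ Real.cosh v := by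
    rw [← Real.cosh_abs v, Real.cosh_eq]
    have h3 := Real.quadratic_le_exp_of_nonneg (abs_nonneg v)
    have h4 := Real.exp_pos (-|v|)
    rw [sq_abs] at h3
    have h5 := abs_nonneg v
    linarith
  linarith

lemma exp_cosh_le {X : ℝ} (hX : 0 ≤ X) (v : ℝ) :
    Real.exp (-X * Real.cosh v) ≤ Real.exp (-(X / 2)) * Real.exp (-(X / 8) * v ^ 2) := by
  rw [← Real.exp_add]
  apply Real.exp_le_exp.2
  have := mul_le_mul_of_nonneg_left (cosh_lower v) hX
  linarith

lemma integrable_exp_cosh {X : ℝ} (hX : 0 < X) : Integrable fun v : ℝ => Real.exp (-X * Real.cosh v) := by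
  refine Integrable.mono' ((integrable_exp_neg_mul_sq (b := X / 8) (by positivity)).const_mul (Real.exp (-(X / 2))))
    (by apply Continuous.aestronglyMeasurable; fun_prop) (Filter.Eventually.of_forall fun v => ?_)
  rw [Real.norm_of_nonneg (Real.exp_pos _).le]
  exact exp_cosh_le hX.le v

lemma ee_half_eq (v : ℝ) : ee (v / 2) = Real.cos (nu * v) + Real.sin (nu * v) * I := by
  unfold ee
  rw [show 2 * nu * (v / 2) = nu * v by ring, Complex.exp_mul_I, ← ofReal_cos, ← ofReal_sin]

lemma integrable_exp_cosh_ee {X : ℝ} (hX : 0 < X) :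
    Integrable fun v : ℝ => (Real.exp (-X * Real.cosh v) : ℂ) * ee (v / 2) := by
  have h := (integrable_exp_cosh hX).ofReal (𝕜 := ℂ)
  refine h.norm.mono' ?_ (Filter.Eventually.of_forall fun v => ?_)
  · apply Continuous.aestronglyMeasurable
    have := continuous_ee
    fun_prop
  · rw [norm_mul, norm_ee, mul_one]
    exact le_rfl

lemma integral_exp_cosh_ee {X : ℝ} (hX : 0 < X) :
    ∫ v : ℝ, (Real.exp (-X * Real.cosh v) : ℂ) * ee (v / 2) = 2 * (KB X : ℂ) := by
  have h1 : Integrable fun v : ℝ => Real.exp (-X * Real.cosh v) * Real.cos (nu * v) := by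
    refine (integrable_exp_cosh hX).mono' (by apply Continuous.aestronglyMeasurable; fun_prop)
      (Filter.Eventually.of_forall fun v => ?_)
    rw [norm_mul, Real.norm_of_nonneg (Real.exp_pos _).le]
    exact mul_le_of_le_one_right (Real.exp_pos _).le (Real.abs_cos_le_one _)
  have h2 : Integrable fun v : ℝ => Real.exp (-X * Real.cosh v) * Real.sin (nu * v) := by
    refine (integrable_exp_cosh hX).mono' (by apply Continuous.aestronglyMeasurable; fun_prop)
      (Filter.Eventually.of_forall fun v => ?_)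
    rw [norm_mul, Real.norm_of_nonneg (Real.exp_pos _).le]
    exact mul_le_of_le_one_right (Real.exp_pos _).le (Real.abs_sin_le_one _)
  have e : ∀ v : ℝ, (Real.exp (-X * Real.cosh v) : ℂ) * ee (v / 2) =
      ((Real.exp (-X * Real.cosh v) * Real.cos (nu * v) : ℝ) : ℂ) +
        ((Real.exp (-X * Real.cosh v) * Real.sin (nu * v) : ℝ) : ℂ) * I := by
    intro v
    rw [ee_half_eq]
    push_cast
    ring
  simp only [e]
  have h1' : Integrable fun v : ℝ => ((Real.exp (-X * Real.cosh v) * Real.cos (nu * v) : ℝ) : ℂ) := h1.ofReal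
  have h2' : Integrable fun v : ℝ => ((Real.exp (-X * Real.cosh v) * Real.sin (nu * v) : ℝ) : ℂ) * I :=
    (h2.ofReal (𝕜 := ℂ)).mul_const I
  rw [integral_add h1' h2', integral_mul_const, integral_complex_ofReal, integral_complex_ofReal]
  have hs : ∫ v : ℝ, Real.exp (-X * Real.cosh v) * Real.sin (nu * v) = 0 := by
    have h3 := integral_neg_eq_self (fun v : ℝ => Real.exp (-X * Real.cosh v) * Real.sin (nu * v)) volume
    simp only [Real.cosh_neg, mul_neg, Real.sin_neg] at h3
    rw [integral_neg] at h3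
    linarith
  have hc : ∫ v : ℝ, Real.exp (-X * Real.cosh v) * Real.cos (nu * v) = 2 * KB X := by
    unfold KB
    rw [← integral_comp_abs (f := fun v => Real.exp (-X * Real.cosh v) * Real.cos (nu * v))]
    congr 1
    funext v
    rw [Real.cosh_abs]
    congr 1
    rcases abs_choice v with h | h <;> rw [h]
    rw [mul_neg, Real.cos_neg]
  rw [hs, hc]
  push_cast
  ring

/-- the logarithm of the ratio of the two embeddings -/
noncomputable def lg (p : ℤ × ℤ) : ℝ := Real.log |al p| - Real.log |al' p|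

lemma q_eq_cosh {p : ℤ × ℤ} (hp : p ≠ 0) (u : ℝ) : q u p = 2 * |(nm p : ℝ)| * Real.cosh (2 * u + lg p) := by
  have h1 : al p ≠ 0 := fun h => hp (al_zero_iff h)
  have h2 : al' p ≠ 0 := fun h => hp (al'_zero_iff h)
  have h1' : 0 < |al p| := abs_pos.2 h1
  have h2' : 0 < |al' p| := abs_pos.2 h2
  rw [← al_mul_al', abs_mul, Real.cosh_eq]
  unfold q lg
  rw [neg_add, Real.exp_add, Real.exp_add, neg_sub, Real.exp_sub, Real.exp_sub, Real.exp_log h1', Real.exp_log h2',
    ← sq_abs (al p), ← sq_abs (al' p)]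
  field_simp

/-- the integral over the line -/
noncomputable def R (y : ℝ) (p : ℤ × ℤ) : ℂ := ∫ u : ℝ, (Real.exp (-(Real.pi * y * q u p)) : ℂ) * ee u

lemma abs_nm_pos {p : ℤ × ℤ} (hp : p ≠ 0) : 0 < |(nm p : ℝ)| := by
  rw [abs_pos]
  have : nm p ≠ 0 := fun h => hp (nm_eq_zero h)
  exact_mod_cast this

lemma integrand_eq {p : ℤ × ℤ} (hp : p ≠ 0) (y u : ℝ) :
    (Real.exp (-(Real.pi * y * q u p)) : ℂ) * ee u =
      ee (-lg p / 2) * ((Real.exp (-(2 * Real.pi * |(nm p : ℝ)| * y) * Real.cosh (2 * u + lg p)) : ℂ) *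
        ee ((2 * u + lg p) / 2)) := by
  have h1 : ee u = ee (-lg p / 2) * ee ((2 * u + lg p) / 2) := by
    rw [← ee_add]; congr 1; ring
  have h2 : -(Real.pi * y * q u p) = -(2 * Real.pi * |(nm p : ℝ)| * y) * Real.cosh (2 * u + lg p) := by
    rw [q_eq_cosh hp]; ring
  rw [h1, h2]
  ring

lemma integrable_R {p : ℤ × ℤ} (hp : p ≠ 0) {y : ℝ} (hy : 0 < y) :
    Integrable fun u : ℝ => (Real.exp (-(Real.pi * y * q u p)) : ℂ) * ee u := by
  have hX : 0 < 2 * Real.pi * |(nm p : ℝ)| * y := by have := abs_nm_pos hp; positivity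
  have h := integrable_exp_cosh_ee hX
  have h1 := (h.comp_add_right (lg p)).comp_mul_left' (R := 2) two_ne_zero
  refine (h1.const_mul (ee (-lg p / 2))).congr (Filter.Eventually.of_forall fun u => ?_)
  exact (integrand_eq hp y u).symm

lemma R_eq {p : ℤ × ℤ} (hp : p ≠ 0) {y : ℝ} (hy : 0 < y) :
    R y p = ee (-lg p / 2) * (KB (2 * Real.pi * |(nm p : ℝ)| * y) : ℂ) := by
  have hX : 0 < 2 * Real.pi * |(nm p : ℝ)| * y := by have := abs_nm_pos hp; positivity
  unfold R
  simp only [integrand_eq hp y]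
  rw [integral_const_mul]
  congr 1
  have h1 := Measure.integral_comp_mul_left (fun v : ℝ =>
    (Real.exp (-(2 * Real.pi * |(nm p : ℝ)| * y) * Real.cosh (v + lg p)) : ℂ) * ee ((v + lg p) / 2)) 2
  rw [h1, integral_add_right_eq_self (fun v : ℝ =>
    (Real.exp (-(2 * Real.pi * |(nm p : ℝ)| * y) * Real.cosh v) : ℂ) * ee (v / 2)), integral_exp_cosh_ee hX]
  rw [abs_of_pos (by norm_num), Complex.real_smul]
  push_cast
  ring

end Pool.Agent.J4.H31.MF
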