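import Mathlib
import Pool.Agent.J4.H31.MF.Unfold

/-! The Mellin transform of the Bessel function. -/

set_option autoImplicit false

open Complex MeasureTheory

namespace Pool.Agent.J4.H31.MF

/-- the substitution -/
noncomputable def sub (v : ℝ) : ℝ := Real.exp v / (2 * Real.cosh v)

lemma one_sub_sub (v : ℝ) : 1 - sub v = Real.exp (-v) / (2 * Real.cosh v) := by
  unfold sub
  have h := Real.cosh_pos v
  have h2 : 2 * Real.cosh v = Real.exp v + Real.exp (-v) := by rw [Real.cosh_eq]; ring
  field_simp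
  linear_combination h2

lemma sub_pos (v : ℝ) : 0 < sub v := by
  unfold sub
  have h := Real.cosh_pos v
  positivity

lemma sub_lt_one (v : ℝ) : sub v < 1 := by
  have h := one_sub_sub v
  have h1 := Real.cosh_pos v
  have h2 : 0 < Real.exp (-v) / (2 * Real.cosh v) := by positivity
  linarith

lemma hasDerivAt_sub (v : ℝ) : HasDerivAt sub (2 * sub v * (1 - sub v)) v := by
  have h := Real.cosh_pos v
  have h1 : HasDerivAt sub ((Real.exp v * (2 * Real.cosh v) - Real.exp v * (2 * Real.sinh v)) / (2 * Real.cosh v) ^ 2) v :=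
    (Real.hasDerivAt_exp v).div ((Real.hasDerivAt_cosh v).const_mul 2) (by positivity)
  convert h1 using 1
  rw [one_sub_sub]
  unfold sub
  have h2 : 2 * Real.cosh v - 2 * Real.sinh v = 2 * Real.exp (-v) := by rw [Real.cosh_eq, Real.sinh_eq]; ring
  rw [show Real.exp v * (2 * Real.cosh v) - Real.exp v * (2 * Real.sinh v) =
    Real.exp v * (2 * Real.cosh v - 2 * Real.sinh v) by ring, h2]
  field_simp

lemma sub_strictMono : StrictMono sub := by
  apply strictMono_of_deriv_pos
  intro v
  rw [(hasDerivAt_sub v).deriv]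
  have h1 := sub_pos v
  have h2 := sub_lt_one v
  have : 0 < 1 - sub v := by linarith
  positivity

lemma sub_image : sub '' Set.univ = Set.Ioo 0 1 := by
  ext x
  constructor
  · rintro ⟨v, -, rfl⟩
    exact ⟨sub_pos v, sub_lt_one v⟩
  · rintro ⟨h0, h1⟩
    refine ⟨(Real.log x - Real.log (1 - x)) / 2, trivial, ?_⟩
    have h2 : 0 < 1 - x := by linarith
    set v := (Real.log x - Real.log (1 - x)) / 2 with hv
    have h3 : Real.exp v * Real.exp v * (1 - x) = x := by
      rw [← Real.exp_add, ← add_halves (v + v)]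
      have : v + v = Real.log x - Real.log (1 - x) := by rw [hv]; ring
      rw [add_halves, this, Real.exp_sub, Real.exp_log h0, Real.exp_log h2]
      field_simp
    unfold sub
    rw [Real.cosh_eq]
    have h4 : Real.exp v * Real.exp (-v) = 1 := by rw [← Real.exp_add]; simp
    have h5 : 0 < Real.exp v := Real.exp_pos v
    have h6 : 0 < Real.exp (-v) := Real.exp_pos _
    rw [div_eq_iff (by positivity)]
    have h7 : Real.exp v * (1 - x) = x * Real.exp (-v) := by
      apply mul_left_cancel₀ h5.ne'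
      linear_combination h3 - x * h4
    linear_combination h7

lemma log_sub (v : ℝ) : Real.log (sub v) = v - Real.log (2 * Real.cosh v) := by
  unfold sub
  have h := Real.cosh_pos v
  rw [Real.log_div (Real.exp_pos v).ne' (by positivity), Real.log_exp]

lemma log_one_sub_sub (v : ℝ) : Real.log (1 - sub v) = -v - Real.log (2 * Real.cosh v) := by
  rw [one_sub_sub]
  have h := Real.cosh_pos v
  rw [Real.log_div (Real.exp_pos _).ne' (by positivity), Real.log_exp]

lemma beta_integrand (a b : ℂ) (v : ℝ) :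
    |2 * sub v * (1 - sub v)| • ((sub v : ℂ) ^ (a - 1) * (1 - (sub v : ℂ)) ^ (b - 1)) =
      2 * cexp ((a - b) * v - (a + b) * Real.log (2 * Real.cosh v)) := by
  have h1 := sub_pos v
  have h2 : 0 < 1 - sub v := by linarith [sub_lt_one v]
  have h1c : (sub v : ℂ) ≠ 0 := by exact_mod_cast h1.ne'
  have h2c : ((1 - sub v : ℝ) : ℂ) ≠ 0 := by exact_mod_cast h2.ne'
  rw [abs_of_pos (by positivity), Complex.real_smul]
  have e1 : (1 - (sub v : ℂ)) = ((1 - sub v : ℝ) : ℂ) := by push_cast; ring
  rw [e1]
  have e2 : ((2 * sub v * (1 - sub v) : ℝ) : ℂ) * ((sub v : ℂ) ^ (a - 1) * ((1 - sub v : ℝ) : ℂ) ^ (b - 1)) =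
      2 * ((sub v : ℂ) ^ a * ((1 - sub v : ℝ) : ℂ) ^ b) := by
    have h3 : (sub v : ℂ) ^ a = (sub v : ℂ) ^ (a - 1) * sub v := by
      conv_lhs => rw [show a = (a - 1) + 1 by ring, Complex.cpow_add _ _ h1c, Complex.cpow_one]
    have h4 : ((1 - sub v : ℝ) : ℂ) ^ b = ((1 - sub v : ℝ) : ℂ) ^ (b - 1) * ((1 - sub v : ℝ) : ℂ) := by
      conv_lhs => rw [show b = (b - 1) + 1 by ring, Complex.cpow_add _ _ h2c, Complex.cpow_one]
    rw [h3, h4]
    push_cast
    ring
  rw [e2, Complex.cpow_def_of_ne_zero h1c, Complex.cpow_def_of_ne_zero h2c, ← Complex.ofReal_log h1.le,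
    ← Complex.ofReal_log h2.le, log_sub, log_one_sub_sub, ← Complex.exp_add]
  congr 2
  push_cast
  ring

lemma integrable_beta {a b : ℂ} (ha : 0 < a.re) (hb : 0 < b.re) :
    Integrable fun v : ℝ => cexp ((a - b) * v - (a + b) * Real.log (2 * Real.cosh v)) := by
  have h1 := Complex.betaIntegral_convergent ha hb
  rw [intervalIntegrable_iff_integrableOn_Ioo_of_le zero_le_one, ← sub_image,
    integrableOn_image_iff_integrableOn_abs_deriv_smul MeasurableSet.univ
      (fun v _ => (hasDerivAt_sub v).hasDerivWithinAt) sub_strictMono.injective.injOn, integrableOn_univ] at h1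
  have h2 := h1.const_mul (1 / 2 : ℂ)
  refine h2.congr (Filter.Eventually.of_forall fun v => ?_)
  simp only
  rw [beta_integrand]
  ring

lemma beta_eq {a b : ℂ} (ha : 0 < a.re) (hb : 0 < b.re) :
    Complex.betaIntegral a b = 2 * ∫ v : ℝ, cexp ((a - b) * v - (a + b) * Real.log (2 * Real.cosh v)) := by
  rw [← integral_const_mul]
  unfold Complex.betaIntegral
  rw [intervalIntegral.integral_of_le zero_le_one, integral_Ioc_eq_integral_Ioo, ← sub_image,
    integral_image_eq_integral_abs_deriv_smul MeasurableSet.univ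
      (fun v _ => (hasDerivAt_sub v).hasDerivWithinAt) sub_strictMono.injective.injOn, Measure.restrict_univ]
  congr 1
  funext v
  rw [beta_integrand]

end Pool.Agent.J4.H31.MF
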