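import Mathlib
import Pool.Agent.J4.H31.MF.Bessel

/-! The Mellin transform of the Bessel function, part 2. -/

set_option autoImplicit false

open Complex MeasureTheory

namespace Pool.Agent.J4.H31.MF

/-- the integrand -/
noncomputable def FF (s : ℂ) (x v : ℝ) : ℂ := (x : ℂ) ^ (s - 1) * ((Real.exp (-x * Real.cosh v) : ℂ) * ee (v / 2))

lemma measurable_FF (s : ℂ) : Measurable (Function.uncurry (FF s)) := by
  unfold FF Function.uncurry
  have h := continuous_ee
  apply Measurable.mul
  · exact (measurable_ofReal.comp measurable_fst).pow_const _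
  · apply Continuous.measurable
    fun_prop

lemma norm_FF {s : ℂ} {x : ℝ} (hx : 0 < x) (v : ℝ) :
    ‖FF s x v‖ = x ^ (s.re - 1) * Real.exp (-(Real.cosh v * x)) := by
  unfold FF
  rw [norm_mul, norm_mul, norm_ee, mul_one, Complex.norm_cpow_eq_rpow_re_of_pos hx, Complex.norm_real,
    Real.norm_of_nonneg (Real.exp_pos _).le, sub_re, one_re]
  congr 2
  ring

lemma integrableOn_FF {s : ℂ} (hs : 0 < s.re) (v : ℝ) : IntegrableOn (fun x => FF s x v) (Set.Ioi 0) := by
  have h1 : IntegrableOn (fun x : ℝ => x ^ (s.re - 1) * Real.exp (-Real.cosh v * x ^ (1 : ℝ))) (Set.Ioi 0) :=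
    integrableOn_rpow_mul_exp_neg_mul_rpow (by linarith) one_pos (Real.cosh_pos v)
  refine Integrable.mono' h1 ?_ ?_
  · have := (measurable_FF s).comp (measurable_id.prodMk measurable_const : Measurable fun x : ℝ => (x, v))
    exact this.aestronglyMeasurable
  · rw [ae_restrict_iff' measurableSet_Ioi]
    refine Filter.Eventually.of_forall fun x hx => ?_
    rw [norm_FF hx, Real.rpow_one, neg_mul]

lemma integral_norm_FF {s : ℂ} (hs : 0 < s.re) (v : ℝ) :
    ∫ x in Set.Ioi (0 : ℝ), ‖FF s x v‖ = (1 / Real.cosh v) ^ s.re * Real.Gamma s.re := by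
  rw [← Real.integral_rpow_mul_exp_neg_mul_Ioi hs (Real.cosh_pos v)]
  exact setIntegral_congr_fun measurableSet_Ioi fun x hx => norm_FF hx v

lemma cosh_rpow (σ v : ℝ) : (1 / Real.cosh v) ^ σ = 2 ^ σ * Real.exp (-(σ * Real.log (2 * Real.cosh v))) := by
  have h := Real.cosh_pos v
  rw [Real.log_mul two_ne_zero h.ne', mul_add, neg_add, Real.exp_add, Real.rpow_def_of_pos two_pos,
    Real.rpow_def_of_pos (by positivity), one_div, Real.log_inv, ← mul_assoc, ← Real.exp_add, ← Real.exp_add]
  congr 1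
  ring

lemma integrable_cosh_rpow {σ : ℝ} (hσ : 0 < σ) : Integrable fun v : ℝ => (1 / Real.cosh v) ^ σ := by
  have h := (integrable_beta (a := ((σ / 2 : ℝ) : ℂ)) (b := ((σ / 2 : ℝ) : ℂ)) (by rw [ofReal_re]; positivity)
    (by rw [ofReal_re]; positivity)).norm.const_mul (2 ^ σ)
  refine h.congr (Filter.Eventually.of_forall fun v => ?_)
  simp only
  rw [cosh_rpow, Complex.norm_exp]
  congr 2
  rw [sub_self, zero_mul, zero_sub, neg_re, ← ofReal_add, re_ofReal_mul, ofReal_re]
  ring

lemma integrable_FF {s : ℂ} (hs : 0 < s.re) :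
    Integrable (Function.uncurry (FF s)) ((volume.restrict (Set.Ioi 0)).prod volume) := by
  rw [integrable_prod_iff' (measurable_FF s).aestronglyMeasurable]
  refine ⟨Filter.Eventually.of_forall fun v => integrableOn_FF hs v, ?_⟩
  refine ((integrable_cosh_rpow hs).mul_const (Real.Gamma s.re)).congr (Filter.Eventually.of_forall fun v => ?_)
  exact (integral_norm_FF hs v).symm

lemma integral_FF_v {s : ℂ} {x : ℝ} (hx : 0 < x) :
    ∫ v : ℝ, FF s x v = (x : ℂ) ^ (s - 1) * (2 * (KB x : ℂ)) := by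
  unfold FF
  rw [integral_const_mul, integral_exp_cosh_ee hx]

lemma integral_FF_x {s : ℂ} (hs : 0 < s.re) (v : ℝ) :
    ∫ x in Set.Ioi (0 : ℝ), FF s x v = Complex.Gamma s * (2 ^ s *
      cexp (((s + nu * I) / 2 - (s - nu * I) / 2) * v - ((s + nu * I) / 2 + (s - nu * I) / 2) *
        Real.log (2 * Real.cosh v))) := by
  have h := Real.cosh_pos v
  have h1 := Complex.integral_cpow_mul_exp_neg_mul_Ioi hs h
  have h2 : ∀ x : ℝ, FF s x v = ee (v / 2) * ((x : ℂ) ^ (s - 1) * cexp (-((Real.cosh v : ℂ) * x))) := by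
    intro x
    unfold FF
    push_cast
    have : -(x : ℂ) * Complex.cosh v = -(Complex.cosh v * x) := by ring
    rw [this]
    ring
  simp only [h2]
  rw [integral_const_mul, h1]
  have h3 : (1 / (Real.cosh v : ℂ)) ^ s = 2 ^ s * cexp (-(s * Real.log (2 * Real.cosh v))) := by
    have h4 : (1 / (Real.cosh v : ℂ)) = (((Real.cosh v)⁻¹ : ℝ) : ℂ) := by push_cast; ring
    have h5 : (((Real.cosh v)⁻¹ : ℝ) : ℂ) ≠ 0 := by
      have : (Real.cosh v)⁻¹ ≠ 0 := by positivity
      exact_mod_cast this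
    rw [h4, Complex.cpow_def_of_ne_zero h5, Complex.cpow_def_of_ne_zero two_ne_zero, ← Complex.exp_add,
      ← Complex.ofReal_log (by positivity), Real.log_inv, Real.log_mul two_ne_zero h.ne']
    congr 1
    have h6 : Complex.log 2 = ((Real.log 2 : ℝ) : ℂ) := by
      rw [Complex.ofReal_log (by norm_num)]
      norm_num
    rw [h6]
    push_cast
    ring
  rw [h3]
  have h7 : ee (v / 2) * cexp (-(s * Real.log (2 * Real.cosh v))) = cexp (((s + nu * I) / 2 - (s - nu * I) / 2) * v -
      ((s + nu * I) / 2 + (s - nu * I) / 2) * Real.log (2 * Real.cosh v)) := by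
    unfold ee
    rw [← Complex.exp_add]
    congr 1
    push_cast
    ring
  rw [← h7]
  ring

lemma mellinConvergent_KB {s : ℂ} (hs : 0 < s.re) : MellinConvergent (fun x => (KB x : ℂ)) s := by
  have h := (integrable_FF hs).integral_prod_left
  have h1 := h.const_mul (1 / 2 : ℂ)
  unfold MellinConvergent
  refine Integrable.congr h1 ?_
  rw [Filter.EventuallyEq, ae_restrict_iff' measurableSet_Ioi]
  refine Filter.Eventually.of_forall fun x hx => ?_
  show (1 / 2 : ℂ) * ∫ v, FF s x v = _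
  rw [integral_FF_v hx, smul_eq_mul]
  ring

/-- the Mellin transform of the Bessel function -/
theorem mellin_KB {s : ℂ} (hs : 0 < s.re) :
    mellin (fun x => (KB x : ℂ)) s = 2 ^ (s - 2) * (Complex.Gamma ((s + nu * I) / 2) * Complex.Gamma ((s - nu * I) / 2)) := by
  have ha : 0 < ((s + nu * I) / 2).re := by
    have : ((s + nu * I) / 2).re = s.re / 2 := by
      rw [show (2 : ℂ) = ((2 : ℝ) : ℂ) by norm_num, Complex.div_ofReal_re]
      simp
    rw [this]; positivity
  have hb : 0 < ((s - nu * I) / 2).re := by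
    have : ((s - nu * I) / 2).re = s.re / 2 := by
      rw [show (2 : ℂ) = ((2 : ℝ) : ℂ) by norm_num, Complex.div_ofReal_re]
      simp
    rw [this]; positivity
  have h1 : mellin (fun x => (KB x : ℂ)) s = (1 / 2 : ℂ) * ∫ x in Set.Ioi (0 : ℝ), ∫ v : ℝ, FF s x v := by
    unfold mellin
    rw [← integral_const_mul]
    refine setIntegral_congr_fun measurableSet_Ioi fun x hx => ?_
    simp only
    rw [integral_FF_v hx, smul_eq_mul]
    ring
  rw [h1, integral_integral_swap (integrable_FF hs)]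
  simp only [integral_FF_x hs]
  rw [integral_const_mul, integral_const_mul]
  have h2 := beta_eq ha hb
  have h3 : ∫ v : ℝ, cexp (((s + nu * I) / 2 - (s - nu * I) / 2) * v -
      ((s + nu * I) / 2 + (s - nu * I) / 2) * Real.log (2 * Real.cosh v)) =
      (1 / 2 : ℂ) * Complex.betaIntegral ((s + nu * I) / 2) ((s - nu * I) / 2) := by
    rw [h2]; ring
  rw [h3, Complex.Gamma_mul_Gamma_eq_betaIntegral ha hb]
  have h4 : (s + nu * I) / 2 + (s - nu * I) / 2 = s := by ring
  have h5 : (2 : ℂ) ^ s = 2 ^ (s - 2) * 4 := by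
    rw [Complex.cpow_sub _ _ two_ne_zero]
    norm_num
  rw [h4, h5]
  ring

lemma mellin_KB_ne_zero {s : ℂ} (hs : 0 < s.re) : mellin (fun x => (KB x : ℂ)) s ≠ 0 := by
  have ha : 0 < ((s + nu * I) / 2).re := by
    have : ((s + nu * I) / 2).re = s.re / 2 := by
      rw [show (2 : ℂ) = ((2 : ℝ) : ℂ) by norm_num, Complex.div_ofReal_re]
      simp
    rw [this]; positivity
  have hb : 0 < ((s - nu * I) / 2).re := by
    have : ((s - nu * I) / 2).re = s.re / 2 := by
      rw [show (2 : ℂ) = ((2 : ℝ) : ℂ) by norm_num, Complex.div_ofReal_re]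
      simp
    rw [this]; positivity
  rw [mellin_KB hs]
  refine mul_ne_zero ?_ (mul_ne_zero (Complex.Gamma_ne_zero_of_re_pos ha) (Complex.Gamma_ne_zero_of_re_pos hb))
  rw [Ne, Complex.cpow_eq_zero_iff]
  simp

lemma exists_KB_ne_zero : ∃ x : ℝ, 0 < x ∧ KB x ≠ 0 := by
  by_contra hcon
  push Not at hcon
  apply mellin_KB_ne_zero (s := 1) (by simp)
  unfold mellin
  rw [setIntegral_congr_fun (g := fun _ => 0) measurableSet_Ioi fun x hx => by simp [hcon x hx]]
  simp

end Pool.Agent.J4.H31.MF
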