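import Mathlib
import Pool.Agent.J4.H31.MF.Unfold

/-! Unfolding, part 2. -/

set_option autoImplicit false

open Complex MeasureTheory

namespace Pool.Agent.J4.H31.MF

lemma hasSum_Ts {p : ℤ × ℤ} (hp : p ≠ 0) {y : ℝ} (hy : 0 < y) :
    HasSum (fun k : ℤ => Ts (k * UU) y p) (R y p) := by
  have h := integrable_R hp hy
  have key := hasSum_integral_iUnion (μ := volume) (f := fun u : ℝ => (Real.exp (-(Real.pi * y * q u p)) : ℂ) * ee u)
    (s := fun n : ℤ => Set.Ioc (0 + n • UU) (0 + (n + 1) • UU)) (fun _ => measurableSet_Ioc)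
    (Set.pairwise_disjoint_Ioc_add_zsmul 0 UU) (by rw [iUnion_Ioc_add_zsmul UU_pos]; exact h.integrableOn)
  rw [iUnion_Ioc_add_zsmul UU_pos, Measure.restrict_univ] at key
  have e : (fun k : ℤ => Ts (k * UU) y p) = fun n : ℤ => ∫ u in Set.Ioc (0 + n • UU) (0 + (n + 1) • UU),
      (Real.exp (-(Real.pi * y * q u p)) : ℂ) * ee u := by
    funext k
    unfold Ts
    have h1 : (0 : ℝ) + k • UU = k * UU := by simp
    have h2 : (0 : ℝ) + (k + 1) • UU = k * UU + UU := by simp; ring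
    rw [h1, h2, intervalIntegral.integral_of_le (by linarith [UU_pos])]
  rw [e]
  exact key

lemma al_tau_zpow (k : ℤ) (p : ℤ × ℤ) : al ((tau ^ k : Equiv.Perm (ℤ × ℤ)) p) = (gr ^ 2) ^ k * al p := by
  have hg : (gr ^ 2) ≠ 0 := by have := gr_pos; positivity
  induction k using Int.induction_on with
  | zero => simp
  | succ n ih =>
    rw [add_comm, zpow_add, Equiv.Perm.mul_apply, zpow_one]
    show al (tau _) = _
    rw [al_tau, ih, zpow_add₀ hg, zpow_one]
    ring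
  | pred n ih =>
    have h1 : al (tau ((tau ^ (-(n : ℤ) - 1) : Equiv.Perm (ℤ × ℤ)) p)) = (gr ^ 2) ^ (-(n : ℤ)) * al p := by
      rw [← ih]
      congr 1
      have : (tau ^ (-(n : ℤ)) : Equiv.Perm (ℤ × ℤ)) = tau * tau ^ (-(n : ℤ) - 1) := by
        rw [← zpow_one_add]; congr 1; ring
      rw [this]
      rfl
    rw [al_tau] at h1
    have h2 : (gr ^ 2) ^ (-(n : ℤ)) = gr ^ 2 * (gr ^ 2) ^ (-(n : ℤ) - 1) := by
      rw [← zpow_one_add₀ hg]; congr 1; ring
    rw [h2, mul_assoc] at h1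
    exact mul_left_cancel₀ hg h1

lemma inv_tau_zpow {α : Type*} (F : ℤ × ℤ → α) (hF : ∀ p, F (tau p) = F p) (k : ℤ) (p : ℤ × ℤ) :
    F ((tau ^ k : Equiv.Perm (ℤ × ℤ)) p) = F p := by
  induction k using Int.induction_on with
  | zero => simp
  | succ n ih =>
    rw [add_comm, zpow_add, Equiv.Perm.mul_apply, zpow_one]
    show F (tau _) = _
    rw [hF, ih]
  | pred n ih =>
    rw [← ih, ← hF]
    congr 1
    have : (tau ^ (-(n : ℤ)) : Equiv.Perm (ℤ × ℤ)) = tau * tau ^ (-(n : ℤ) - 1) := by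
      rw [← zpow_one_add]; congr 1; ring
    rw [this]
    rfl

lemma q_tau_zpow (k : ℤ) (u : ℝ) (p : ℤ × ℤ) : q u ((tau ^ k : Equiv.Perm (ℤ × ℤ)) p) = q (u + k * UU) p := by
  revert u
  induction k using Int.induction_on with
  | zero => intro u; simp
  | succ n ih =>
    intro u
    rw [add_comm, zpow_add, Equiv.Perm.mul_apply, zpow_one]
    show q u (tau _) = _
    rw [q_tau, ih]
    congr 1
    push_cast
    ring
  | pred n ih =>
    intro u
    have h1 := ih (u - UU)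
    have : (tau ^ (-(n : ℤ)) : Equiv.Perm (ℤ × ℤ)) = tau * tau ^ (-(n : ℤ) - 1) := by
      rw [← zpow_one_add]; congr 1; ring
    rw [this, Equiv.Perm.mul_apply] at h1
    change q (u - UU) (tau _) = _ at h1
    rw [q_tau, sub_add_cancel] at h1
    rw [h1]
    congr 1
    push_cast
    ring

lemma ee_zmul (k : ℤ) : ee (k * UU) = 1 := by
  unfold ee
  have : 2 * nu * (k * UU) = k * (2 * Real.pi) := by
    unfold nu
    have := UU_pos.ne'
    field_simp
  rw [this]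
  push_cast
  rw [mul_assoc]
  exact Complex.exp_int_mul_two_pi_mul_I k

lemma Ts_tau_zpow (k : ℤ) (y : ℝ) (p : ℤ × ℤ) :
    Ts 0 y ((tau ^ k : Equiv.Perm (ℤ × ℤ)) p) = Ts (k * UU) y p := by
  unfold Ts
  have h1 : ∀ u : ℝ, (Real.exp (-(Real.pi * y * q u ((tau ^ k : Equiv.Perm (ℤ × ℤ)) p))) : ℂ) * ee u =
      (fun u : ℝ => (Real.exp (-(Real.pi * y * q u p)) : ℂ) * ee u) (u + k * UU) := by
    intro u
    show _ = (Real.exp (-(Real.pi * y * q (u + k * UU) p)) : ℂ) * ee (u + k * UU)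
    rw [q_tau_zpow, ee_add, ee_zmul, mul_one]
  simp only [h1]
  rw [intervalIntegral.integral_comp_add_right (fun u : ℝ => (Real.exp (-(Real.pi * y * q u p)) : ℂ) * ee u)]
  congr 1 <;> ring

/-- a fundamental domain for multiplication by `φ ^ 2` -/
def Phi : Set (ℤ × ℤ) := {p | p ≠ 0 ∧ |(nm p : ℝ)| ≤ al p ^ 2 ∧ al p ^ 2 < gr ^ 4 * |(nm p : ℝ)|}

/-- the bijection -/
noncomputable def phiEquiv : Phi × ℤ ≃ {p : ℤ × ℤ // p ≠ 0} :=
  Equiv.ofBijective (fun pk => ⟨(tau ^ pk.2 : Equiv.Perm (ℤ × ℤ)) pk.1, by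
    intro h
    have h1 : (tau ^ pk.2 : Equiv.Perm (ℤ × ℤ)) (0 : ℤ × ℤ) = 0 := by
      apply al_zero_iff
      rw [al_tau_zpow]
      simp [al]
    rw [← h1] at h
    exact pk.1.2.1 ((tau ^ pk.2 : Equiv.Perm (ℤ × ℤ)).injective h)⟩) (by
    have hg : 1 < gr ^ 4 := one_lt_pow₀ one_lt_gr (by norm_num)
    have hg0 : (gr ^ 2) ≠ 0 := by have := gr_pos; positivity
    have hsq : ∀ k : ℤ, ((gr ^ 2) ^ k) ^ 2 = (gr ^ 4) ^ k := by
      intro k
      rw [← zpow_natCast, ← zpow_mul, mul_comm, zpow_mul, zpow_natCast, ← pow_mul]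
    constructor
    · rintro ⟨⟨p, hp0, hp1, hp2⟩, k⟩ ⟨⟨p', hp0', hp1', hp2'⟩, k'⟩ h
      simp only [Subtype.mk.injEq] at h
      have hN : nm p = nm p' := by
        have := congrArg nm h
        rwa [inv_tau_zpow nm nm_tau, inv_tau_zpow nm nm_tau] at this
      have ha : (gr ^ 4) ^ k * al p ^ 2 = (gr ^ 4) ^ k' * al p' ^ 2 := by
        have := congrArg (fun p => al p ^ 2) h
        simp only [al_tau_zpow, mul_pow, hsq] at this
        exact this
      have hNpos := abs_nm_pos hp0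
      rw [← hN] at hp1' hp2'
      have hk : k = k' := by
        rcases lt_trichotomy k k' with hlt | heq | hgt
        · exfalso
          have h1 : (gr ^ 4) ^ (k + 1) ≤ (gr ^ 4) ^ k' := zpow_le_zpow_right₀ hg.le (by omega)
          rw [zpow_add₀ (by positivity), zpow_one] at h1
          have h2 : 0 < (gr ^ 4) ^ k := zpow_pos (by positivity) k
          have h3 : (gr ^ 4) ^ k * al p ^ 2 < (gr ^ 4) ^ k * (gr ^ 4 * |(nm p : ℝ)|) := mul_lt_mul_of_pos_left hp2 h2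
          have h4 : (gr ^ 4) ^ k * gr ^ 4 * |(nm p : ℝ)| ≤ (gr ^ 4) ^ k' * al p' ^ 2 :=
            mul_le_mul h1 hp1' hNpos.le (zpow_pos (by positivity) k').le
          linarith
        · exact heq
        · exfalso
          have h1 : (gr ^ 4) ^ (k' + 1) ≤ (gr ^ 4) ^ k := zpow_le_zpow_right₀ hg.le (by omega)
          rw [zpow_add₀ (by positivity), zpow_one] at h1
          have h2 : 0 < (gr ^ 4) ^ k' := zpow_pos (by positivity) k'
          have h3 : (gr ^ 4) ^ k' * al p' ^ 2 < (gr ^ 4) ^ k' * (gr ^ 4 * |(nm p : ℝ)|) := mul_lt_mul_of_pos_left hp2' h2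
          have h4 : (gr ^ 4) ^ k' * gr ^ 4 * |(nm p : ℝ)| ≤ (gr ^ 4) ^ k * al p ^ 2 :=
            mul_le_mul h1 hp1 hNpos.le (zpow_pos (by positivity) k).le
          linarith
      subst hk
      have hpp : p = p' := (tau ^ k : Equiv.Perm (ℤ × ℤ)).injective h
      subst hpp
      rfl
    · rintro ⟨p, hp⟩
      have hNpos := abs_nm_pos hp
      have ha : 0 < al p ^ 2 := by
        have : al p ≠ 0 := fun h => hp (al_zero_iff h)
        positivity
      obtain ⟨k, hk1, hk2⟩ := exists_mem_Ico_zpow (x := al p ^ 2 / |(nm p : ℝ)|) (y := gr ^ 4) (by positivity) hg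
      rw [le_div_iff₀ hNpos] at hk1
      rw [div_lt_iff₀ hNpos, zpow_add₀ (by positivity), zpow_one] at hk2
      have hzk : 0 < (gr ^ 4) ^ k := zpow_pos (by positivity) k
      have hal : al ((tau ^ (-k) : Equiv.Perm (ℤ × ℤ)) p) ^ 2 = ((gr ^ 4) ^ k)⁻¹ * al p ^ 2 := by
        rw [al_tau_zpow, mul_pow, hsq, zpow_neg]
      have hnm : nm ((tau ^ (-k) : Equiv.Perm (ℤ × ℤ)) p) = nm p := inv_tau_zpow nm nm_tau _ _
      refine ⟨⟨⟨(tau ^ (-k) : Equiv.Perm (ℤ × ℤ)) p, ?_, ?_, ?_⟩, k⟩, ?_⟩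
      · intro h
        rw [h] at hnm
        rw [← hnm] at hNpos
        simp [nm] at hNpos
      · rw [hal, hnm, inv_mul_eq_div, le_div_iff₀ hzk]
        linarith
      · rw [hal, hnm, inv_mul_eq_div, div_lt_iff₀ hzk]
        linarith
      · simp only [Subtype.mk.injEq]
        rw [← Equiv.Perm.mul_apply, ← zpow_add, add_neg_cancel, zpow_zero, Equiv.Perm.one_apply])

lemma phiEquiv_apply (pk : Phi × ℤ) : ((phiEquiv pk : {p : ℤ × ℤ // p ≠ 0}) : ℤ × ℤ) =
    (tau ^ pk.2 : Equiv.Perm (ℤ × ℤ)) pk.1 := rfl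

/-- the Hecke character -/
noncomputable def psi (p : ℤ × ℤ) : ℂ := (kap (res p) : ℂ) * ee (-lg p / 2)

/-- unfolding -/
theorem hasSum_H {w : ℤ → ℂ} (hw : PB w) {y : ℝ} (hy : 0 < y) :
    HasSum (fun p : Phi => psi p * w (nm p) * (KB (2 * Real.pi * |(nm p : ℝ)| * y) : ℂ)) (H w y) := by
  have h1 := hw.summable_H hy
  set F : ℤ × ℤ → ℂ := fun p => ((kap (res p) : ℂ) * w (nm p)) * Ts 0 y p with hF
  have h2 : HasSum F (H w y) := h1.hasSum
  have hsupp : Function.support F ⊆ {p | p ≠ 0} := by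
    intro p hp
    simp only [Set.mem_ofPred_eq]
    rintro rfl
    apply hp
    simp [hF, Ts_zero]
  have h3 : HasSum (fun p : {p : ℤ × ℤ // p ≠ 0} => F p) (H w y) := (hasSum_subtype_iff_of_support_subset hsupp).2 h2
  have h4 : HasSum (fun pk : Phi × ℤ => F (phiEquiv pk)) (H w y) := (phiEquiv.hasSum_iff).2 h3
  refine h4.prod_fiberwise fun p => ?_
  have h5 : ∀ k : ℤ, F (phiEquiv (p, k)) = ((kap (res p) : ℂ) * w (nm p)) * Ts (k * UU) y p := by
    intro k
    rw [phiEquiv_apply]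
    simp only [hF]
    rw [inv_tau_zpow (fun p => kap (res p)) kap_tau, inv_tau_zpow nm nm_tau, Ts_tau_zpow]
  simp only [h5]
  have h6 := (hasSum_Ts p.2.1 hy).mul_left ((kap (res p) : ℂ) * w (nm p))
  rw [R_eq p.2.1 hy] at h6
  have h7 : psi p * w (nm p) * (KB (2 * Real.pi * |(nm p : ℝ)| * y) : ℂ) =
      (kap (res p) : ℂ) * w (nm p) * (ee (-lg p / 2) * (KB (2 * Real.pi * |(nm p : ℝ)| * y) : ℂ)) := by
    unfold psi
    ring
  rw [h7]
  exact h6

end Pool.Agent.J4.H31.MF
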