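import Mathlib
import Pool.Agent.J4.H31.MF.Unfold2

/-! Multiplication in `ℤ[φ]` and its effect on the functional `H`. -/

set_option autoImplicit false

open Complex MeasureTheory

namespace Pool.Agent.J4.H31.MF

/-- multiplication in `ℤ[φ]` -/
def mulm (g p : ℤ × ℤ) : ℤ × ℤ := (g.1 * p.1 + g.2 * p.2, g.1 * p.2 + g.2 * p.1 + g.2 * p.2)

/-- conjugation in `ℤ[φ]` -/
def cjg (g : ℤ × ℤ) : ℤ × ℤ := (g.1 + g.2, -g.2)

lemma al_mulm (g p : ℤ × ℤ) : al (mulm g p) = al g * al p := by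
  unfold al mulm
  push_cast
  linear_combination -(g.2 * p.2 : ℝ) * phi_sq

lemma al'_mulm (g p : ℤ × ℤ) : al' (mulm g p) = al' g * al' p := by
  unfold al' mulm
  push_cast
  linear_combination -(g.2 * p.2 : ℝ) * psi_sq

lemma nm_mulm (g p : ℤ × ℤ) : nm (mulm g p) = nm g * nm p := by
  unfold nm mulm
  ring

lemma nm_cjg (g : ℤ × ℤ) : nm (cjg g) = nm g := by
  unfold nm cjg
  ring

lemma res_mulm (g p : ℤ × ℤ) : res (mulm g p) = res g * res p := by
  unfold res mulm
  push_cast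
  have : (5 : ZMod 5) = 0 := by decide
  linear_combination (-(g.2 : ZMod 5) * p.2) * this

lemma res_cjg (g : ℤ × ℤ) : res (cjg g) = res g := by
  unfold res cjg
  push_cast
  have : (5 : ZMod 5) = 0 := by decide
  linear_combination (-(g.2 : ZMod 5)) * this

lemma kap_mul (a b : ZMod 5) : kap (a * b) = kap a * kap b := by
  have : ∀ a b : ZMod 5, kap (a * b) = kap a * kap b := by decide
  exact this a b

lemma mulm_ne_zero {g : ℤ × ℤ} (hg : g ≠ 0) {p : ℤ × ℤ} (hp : p ≠ 0) : mulm g p ≠ 0 := by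
  intro h
  have h1 := al_mulm g p
  rw [h] at h1
  have h2 : al (0 : ℤ × ℤ) = 0 := by simp [al]
  rw [h2] at h1
  rcases mul_eq_zero.1 h1.symm with h3 | h3
  · exact hg (al_zero_iff h3)
  · exact hp (al_zero_iff h3)

lemma al_sub (p p' : ℤ × ℤ) : al (p - p') = al p - al p' := by
  unfold al
  simp only [Prod.fst_sub, Prod.snd_sub]
  push_cast
  ring

lemma mulm_injective {g : ℤ × ℤ} (hg : g ≠ 0) : Function.Injective (mulm g) := by
  intro p p' h
  have h1 := congrArg al h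
  rw [al_mulm, al_mulm] at h1
  have h2 : al g ≠ 0 := fun h => hg (al_zero_iff h)
  have h3 := mul_left_cancel₀ h2 h1
  have h4 : p - p' = 0 := al_zero_iff (by rw [al_sub, h3, sub_self])
  exact sub_eq_zero.1 h4

lemma q_mulm {g : ℤ × ℤ} (hg : g ≠ 0) (u : ℝ) (p : ℤ × ℤ) :
    q u (mulm g p) = |(nm g : ℝ)| * q (u + lg g / 2) p := by
  have h1 : al g ≠ 0 := fun h => hg (al_zero_iff h)
  have h2 : al' g ≠ 0 := fun h => hg (al'_zero_iff h)
  have h1' : 0 < |al g| := abs_pos.2 h1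
  have h2' : 0 < |al' g| := abs_pos.2 h2
  rw [← al_mul_al', abs_mul]
  unfold q lg
  rw [al_mulm, al'_mulm]
  have e1 : Real.exp (2 * (u + (Real.log |al g| - Real.log |al' g|) / 2)) = Real.exp (2 * u) * (|al g| / |al' g|) := by
    rw [show 2 * (u + (Real.log |al g| - Real.log |al' g|) / 2) = 2 * u + (Real.log |al g| - Real.log |al' g|) by ring,
      Real.exp_add, Real.exp_sub, Real.exp_log h1', Real.exp_log h2']
  have e2 : Real.exp (-(2 * (u + (Real.log |al g| - Real.log |al' g|) / 2))) =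
      Real.exp (-(2 * u)) * (|al' g| / |al g|) := by
    rw [show -(2 * (u + (Real.log |al g| - Real.log |al' g|) / 2)) = -(2 * u) + (Real.log |al' g| - Real.log |al g|) by ring,
      Real.exp_add, Real.exp_sub, Real.exp_log h1', Real.exp_log h2']
  rw [e1, e2, mul_pow, mul_pow, ← sq_abs (al g), ← sq_abs (al' g)]
  field_simp

lemma Ts_mulm {g : ℤ × ℤ} (hg : g ≠ 0) (y : ℝ) (p : ℤ × ℤ) :
    Ts 0 y (mulm g p) = ee (-lg g / 2) * Ts (lg g / 2) (|(nm g : ℝ)| * y) p := by
  unfold Ts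
  have h1 : ∀ u : ℝ, (Real.exp (-(Real.pi * y * q u (mulm g p))) : ℂ) * ee u =
      (fun u : ℝ => ee (-lg g / 2) * ((Real.exp (-(Real.pi * (|(nm g : ℝ)| * y) * q u p)) : ℂ) * ee u)) (u + lg g / 2) := by
    intro u
    show _ = ee (-lg g / 2) * ((Real.exp (-(Real.pi * (|(nm g : ℝ)| * y) * q (u + lg g / 2) p)) : ℂ) * ee (u + lg g / 2))
    rw [q_mulm hg, ee_add u]
    have h2 : ee (-lg g / 2) * ee (lg g / 2) = 1 := by rw [neg_div]; exact ee_neg _
    have h3 : Real.pi * y * (|(nm g : ℝ)| * q (u + lg g / 2) p) = Real.pi * (|(nm g : ℝ)| * y) * q (u + lg g / 2) p := by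
      ring
    rw [h3]
    linear_combination (-(Real.exp (-(Real.pi * (|(nm g : ℝ)| * y) * q (u + lg g / 2) p)) : ℂ) * ee u) * h2
  simp only [h1]
  rw [intervalIntegral.integral_comp_add_right (fun u : ℝ => ee (-lg g / 2) *
    ((Real.exp (-(Real.pi * (|(nm g : ℝ)| * y) * q u p)) : ℂ) * ee u)), intervalIntegral.integral_const_mul]
  congr 2 <;> ring

lemma PB.comp_mul {w : ℤ → ℂ} (hw : PB w) (m : ℤ) : PB fun N => w (m * N) := by
  obtain ⟨C, k, hk⟩ := hw
  have hC : 0 ≤ C := by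
    have := (norm_nonneg _).trans (hk 0)
    simpa using this
  refine ⟨C * (1 + |(m : ℝ)|) ^ k, k, fun N => (hk _).trans ?_⟩
  rw [mul_assoc, ← mul_pow]
  push_cast
  rw [abs_mul]
  have h1 := abs_nonneg (m : ℝ)
  have h2 := abs_nonneg (N : ℝ)
  gcongr
  nlinarith

/-- the effect of multiplication by `g` -/
theorem mul_sum {g : ℤ × ℤ} (hg : g ≠ 0) {w : ℤ → ℂ} (hw : PB w) {y : ℝ} (hy : 0 < y) :
    ∑' p, ((kap (res (mulm g p)) : ℂ) * w (nm (mulm g p))) * Ts 0 y (mulm g p) =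
      psi g * H (fun N => w (nm g * N)) (|(nm g : ℝ)| * y) := by
  have hn := abs_nm_pos hg
  rw [← (hw.comp_mul (nm g)).shift (lg g / 2) (by positivity), ← tsum_mul_left]
  refine tsum_congr fun p => ?_
  rw [Ts_mulm hg, nm_mulm, res_mulm, kap_mul]
  unfold psi
  push_cast
  ring

lemma psi_phi : psi (0, 1) = 1 := by
  unfold psi
  have h1 : kap (res (0, 1)) = -1 := by
    have : res (0, 1) = 3 := by unfold res; norm_num
    rw [this]; decide
  have h2 : lg (0, 1) = UU := by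
    unfold lg al al' UU
    simp only [Int.cast_zero, Int.cast_one, one_mul, zero_add]
    have h3 : |gc| = gr⁻¹ := by
      have h4 : |gr * gc| = 1 := by rw [phi_psi]; norm_num
      rw [abs_mul, abs_of_pos gr_pos] at h4
      exact eq_inv_of_mul_eq_one_right h4
    rw [h3, abs_of_pos gr_pos, Real.log_inv]
    ring
  have h3 : ee (-UU / 2) = -1 := by
    have h4 := ee_neg (UU / 2)
    rw [ee_half] at h4
    rw [neg_div]
    linear_combination -h4
  rw [h1, h2, h3]
  norm_num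

lemma nm_phi : nm (0, 1) = -1 := by
  unfold nm; norm_num

/-- multiplication by `φ` as a bijection -/
def mulPhi : ℤ × ℤ ≃ ℤ × ℤ where
  toFun p := mulm (0, 1) p
  invFun p := (p.2 - p.1, p.1)
  left_inv p := by unfold mulm; ext <;> simp
  right_inv p := by unfold mulm; ext <;> simp

/-- evenness -/
theorem H_even {w : ℤ → ℂ} (hw : PB w) {y : ℝ} (hy : 0 < y) : H w y = H (fun N => w (-N)) y := by
  have h0 : ((0, 1) : ℤ × ℤ) ≠ 0 := by simp
  have h1 := mul_sum h0 hw hy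
  rw [psi_phi, nm_phi] at h1
  have h2 : H w y = ∑' p, ((kap (res (mulm (0, 1) p)) : ℂ) * w (nm (mulm (0, 1) p))) * Ts 0 y (mulm (0, 1) p) := by
    unfold H
    exact (mulPhi.tsum_eq (fun p => ((kap (res p) : ℂ) * w (nm p)) * Ts 0 y p)).symm
  rw [h2, h1]
  norm_num

lemma H_add {w w' : ℤ → ℂ} (hw : PB w) (hw' : PB w') {y : ℝ} (hy : 0 < y) :
    H (fun N => w N + w' N) y = H w y + H w' y := by
  unfold H
  rw [← (hw.summable_H hy).tsum_add (hw'.summable_H hy)]
  refine tsum_congr fun p => ?_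
  ring

lemma H_smul (r : ℂ) (w : ℤ → ℂ) (y : ℝ) : H (fun N => r * w N) y = r * H w y := by
  unfold H
  rw [← tsum_mul_left]
  refine tsum_congr fun p => ?_
  ring

lemma H_sum {ι : Type*} (s : Finset ι) (w : ι → ℤ → ℂ) (hw : ∀ i, PB (w i)) {y : ℝ} (hy : 0 < y) :
    H (fun N => ∑ i ∈ s, w i N) y = ∑ i ∈ s, H (w i) y := by
  unfold H
  rw [← Summable.tsum_finsetSum fun i _ => (hw i).summable_H hy]
  refine tsum_congr fun p => ?_
  rw [Finset.mul_sum, Finset.sum_mul]

/-- the sum over the multiples of `g` -/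
lemma sum_range {g : ℤ × ℤ} (hg : g ≠ 0) {w : ℤ → ℂ} (hw : PB w) {y : ℝ} (hy : 0 < y) (P : ℤ × ℤ → Prop)
    [DecidablePred P] (hP : ∀ p, P p ↔ p ∈ Set.range (mulm g)) :
    ∑' p, (if P p then ((kap (res p) : ℂ) * w (nm p)) * Ts 0 y p else 0) =
      psi g * H (fun N => w (nm g * N)) (|(nm g : ℝ)| * y) := by
  rw [← mul_sum hg hw hy]
  have hsupp : Function.support (fun p => if P p then ((kap (res p) : ℂ) * w (nm p)) * Ts 0 y p else 0) ⊆
      Set.range (mulm g) := by
    intro p hp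
    rw [← hP]
    by_contra hcon
    apply hp
    simp [hcon]
  rw [← (mulm_injective hg).tsum_eq hsupp]
  refine tsum_congr fun p => ?_
  rw [if_pos ((hP _).2 ⟨p, rfl⟩)]

end Pool.Agent.J4.H31.MF
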