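import Mathlib
import Pool.Agent.J4.H31.MF.Mul

/-! Splitting of primes in `ℤ[φ]`. -/

set_option autoImplicit false

namespace Pool.Agent.J4.H31.MF

/-- reduction modulo a prime above `p` -/
def ev {p : ℕ} (θ : ZMod p) (b : ℤ × ℤ) : ZMod p := b.1 + b.2 * θ

lemma ev_mulm {p : ℕ} {θ : ZMod p} (hθ : θ ^ 2 = θ + 1) (a b : ℤ × ℤ) : ev θ (mulm a b) = ev θ a * ev θ b := by
  unfold ev mulm
  push_cast
  linear_combination -(a.2 * b.2 : ZMod p) * hθ

lemma ev_mul_ev {p : ℕ} {θ : ZMod p} (hθ : θ ^ 2 = θ + 1) (b : ℤ × ℤ) :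
    ev θ b * ev (1 - θ) b = ((nm b : ℤ) : ZMod p) := by
  unfold ev nm
  push_cast
  linear_combination -(b.2 : ZMod p) ^ 2 * hθ

lemma ev_cjg {p : ℕ} (θ : ZMod p) (b : ℤ × ℤ) : ev (1 - θ) (cjg b) = ev θ b := by
  unfold ev cjg
  push_cast
  ring

lemma ev_cjg' {p : ℕ} (θ : ZMod p) (b : ℤ × ℤ) : ev θ (cjg b) = ev (1 - θ) b := by
  unfold ev cjg
  push_cast
  ring

lemma mulm_cjg_self (g b : ℤ × ℤ) : mulm g (mulm (cjg g) b) = mulm (nm g, 0) b := by
  unfold mulm cjg nm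
  ext <;> simp <;> ring

lemma two_dec : ∀ x y : ZMod 2, x ^ 2 + x * y - y ^ 2 = 0 → x = 0 ∧ y = 0 := by decide

lemma sq_dec : ∀ c : ZMod 5, IsSquare c → kap c ≠ -1 := by decide

lemma sq_dec' : ∀ c : ZMod 5, kap c = 1 → IsSquare c := by decide

/-- the inert case -/
lemma inert {p : ℕ} [hp : Fact p.Prime] (h : kap (p : ZMod 5) = -1) {b : ℤ × ℤ} (hb : (p : ℤ) ∣ nm b) :
    (p : ℤ) ∣ b.1 ∧ (p : ℤ) ∣ b.2 := by
  by_cases hp2 : p = 2
  · subst hp2
    have h1 := two_dec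
    have h2 : ((nm b : ℤ) : ZMod 2) = 0 := (ZMod.intCast_zmod_eq_zero_iff_dvd _ 2).2 hb
    have h3 := h1 (b.1 : ZMod 2) (b.2 : ZMod 2) (by unfold nm at h2; push_cast at h2; exact h2)
    exact ⟨(ZMod.intCast_zmod_eq_zero_iff_dvd _ 2).1 h3.1, (ZMod.intCast_zmod_eq_zero_iff_dvd _ 2).1 h3.2⟩
  · have hns : ¬ IsSquare ((5 : ℕ) : ZMod p) := by
      have : Fact (Nat.Prime 5) := ⟨by norm_num⟩
      rw [← ZMod.exists_sq_eq_prime_iff_of_mod_four_eq_one (p := 5) (q := p) (by norm_num) hp2]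
      intro hsq
      exact sq_dec _ hsq h
    have h0 : ((nm b : ℤ) : ZMod p) = 0 := (ZMod.intCast_zmod_eq_zero_iff_dvd _ p).2 hb
    have h1 : (2 * (b.1 : ZMod p) + b.2) ^ 2 = ((5 : ℕ) : ZMod p) * (b.2 : ZMod p) ^ 2 := by
      unfold nm at h0
      push_cast at h0 ⊢
      linear_combination 4 * h0
    have h2 : (b.2 : ZMod p) = 0 := by
      by_contra hne
      apply hns
      refine ⟨(2 * (b.1 : ZMod p) + b.2) / b.2, ?_⟩
      field_simp
      rw [← h1]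
    have h3 : (b.1 : ZMod p) = 0 := by
      unfold nm at h0
      push_cast at h0
      rw [h2] at h0
      simpa using h0
    exact ⟨(ZMod.intCast_zmod_eq_zero_iff_dvd _ p).1 h3, (ZMod.intCast_zmod_eq_zero_iff_dvd _ p).1 h2⟩

/-- a root of `x ^ 2 = x + 1` in the split case -/
lemma exists_root {p : ℕ} [hp : Fact p.Prime] (h : kap (p : ZMod 5) = 1) :
    ∃ θ : ZMod p, θ ^ 2 = θ + 1 ∧ θ - (1 - θ) ≠ 0 := by
  have hp2 : p ≠ 2 := by
    rintro rfl
    revert h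
    decide
  have hp5 : p ≠ 5 := by
    rintro rfl
    revert h
    decide
  have hs : IsSquare ((5 : ℕ) : ZMod p) := by
    have : Fact (Nat.Prime 5) := ⟨by norm_num⟩
    rw [← ZMod.exists_sq_eq_prime_iff_of_mod_four_eq_one (p := 5) (q := p) (by norm_num) hp2]
    exact sq_dec' _ h
  obtain ⟨s, hs⟩ := hs
  have h2 : (2 : ZMod p) ≠ 0 := by
    intro h
    have : ((2 : ℕ) : ZMod p) = 0 := by exact_mod_cast h
    rw [ZMod.natCast_eq_zero_iff] at this
    exact hp2 ((Nat.prime_dvd_prime_iff_eq hp.out Nat.prime_two).1 this)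
  have h5 : ((5 : ℕ) : ZMod p) ≠ 0 := by
    intro h
    rw [ZMod.natCast_eq_zero_iff] at h
    exact hp5 ((Nat.prime_dvd_prime_iff_eq hp.out (by norm_num)).1 h)
  have hs' : s * s = 5 := by rw [← hs]; norm_num
  refine ⟨(1 + s) / 2, ?_, ?_⟩
  · field_simp
    linear_combination hs'
  · intro h
    have h3 : s = 0 := by
      field_simp at h
      have h4 : 2 * s = 0 := by linear_combination h
      exact (mul_eq_zero.1 h4).resolve_left h2
    apply h5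
    rw [hs, h3, mul_zero]

lemma both_zero {p : ℕ} [hp : Fact p.Prime] {θ : ZMod p} (hθ' : θ - (1 - θ) ≠ 0) {b : ℤ × ℤ} (h1 : ev θ b = 0)
    (h2 : ev (1 - θ) b = 0) : ∃ c : ℤ × ℤ, b = mulm ((p : ℤ), 0) c := by
  have h3 : (θ - (1 - θ)) * (b.2 : ZMod p) = 0 := by
    unfold ev at h1 h2
    linear_combination h1 - h2
  have h4 : (b.2 : ZMod p) = 0 := (mul_eq_zero.1 h3).resolve_left hθ'
  have h5 : (b.1 : ZMod p) = 0 := by
    unfold ev at h1
    rw [h4] at h1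
    simpa using h1
  obtain ⟨m, hm⟩ := (ZMod.intCast_zmod_eq_zero_iff_dvd _ p).1 h5
  obtain ⟨n, hn⟩ := (ZMod.intCast_zmod_eq_zero_iff_dvd _ p).1 h4
  refine ⟨(m, n), ?_⟩
  unfold mulm
  ext <;> simp [hm, hn]

/-- an element of norm `p` in the split case -/
lemma exists_norm {p : ℕ} [hp : Fact p.Prime] {θ : ZMod p} (hθ : θ ^ 2 = θ + 1) :
    ∃ g : ℤ × ℤ, nm g = p ∧ ev θ g = 0 := by
  have hpp := hp.out
  set k := Nat.sqrt p with hk
  have hk1 : k ^ 2 ≤ p := Nat.sqrt_le' p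
  have hk2 : p < (k + 1) ^ 2 := Nat.lt_succ_sqrt' p
  have hk3 : k ^ 2 < p := by
    rcases hk1.lt_or_eq with h | h
    · exact h
    · exfalso
      rw [← h] at hpp
      exact Nat.Prime.not_prime_pow (le_refl 2) hpp
  obtain ⟨x, hx, y, hy, hxy, hfxy⟩ := Finset.exists_ne_map_eq_of_card_lt_of_maps_to
    (s := Finset.range (k + 1) ×ˢ Finset.range (k + 1)) (t := (Finset.univ : Finset (ZMod p)))
    (f := fun x : ℕ × ℕ => ev θ ((x.1 : ℤ), (x.2 : ℤ)))
    (by rw [Finset.card_product, Finset.card_range, Finset.card_univ, ZMod.card]; nlinarith)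
    (fun _ _ => Finset.mem_univ _)
  simp only [Finset.mem_product, Finset.mem_range] at hx hy
  set b : ℤ × ℤ := ((x.1 : ℤ) - y.1, (x.2 : ℤ) - y.2) with hb
  have hb0 : b ≠ 0 := by
    intro h
    apply hxy
    have h1 : (x.1 : ℤ) - y.1 = 0 := congrArg Prod.fst h
    have h2 : (x.2 : ℤ) - y.2 = 0 := congrArg Prod.snd h
    ext <;> omega
  have hev : ev θ b = 0 := by
    unfold ev at hfxy ⊢
    simp only [hb]
    push_cast at hfxy ⊢
    linear_combination hfxy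
  have hdvd : (p : ℤ) ∣ nm b := by
    rw [← ZMod.intCast_zmod_eq_zero_iff_dvd, ← ev_mul_ev hθ, hev, zero_mul]
  have hnm0 : nm b ≠ 0 := fun h => hb0 (nm_eq_zero h)
  have hb1 : |b.1| ≤ k := by
    simp only [hb]
    rw [abs_le]
    constructor <;> omega
  have hb2 : |b.2| ≤ k := by
    simp only [hb]
    rw [abs_le]
    constructor <;> omega
  have hkz : (k : ℤ) ^ 2 < p := by exact_mod_cast hk3
  have hb1' : b.1 ^ 2 ≤ (k : ℤ) ^ 2 := sq_le_sq' (by linarith [(abs_le.1 hb1).1]) (abs_le.1 hb1).2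
  have hb2' : b.2 ^ 2 ≤ (k : ℤ) ^ 2 := sq_le_sq' (by linarith [(abs_le.1 hb2).1]) (abs_le.1 hb2).2
  have hlt : |nm b| < 2 * p := by
    rw [abs_lt]
    unfold nm
    constructor <;> nlinarith [sq_nonneg (b.1 - b.2), sq_nonneg (b.1 + b.2), sq_nonneg b.1, sq_nonneg b.2,
      sq_nonneg (2 * b.2 - b.1), sq_nonneg (2 * b.1 + b.2)]
  obtain ⟨m, hm⟩ := hdvd
  have hp0 : (0 : ℤ) < p := by exact_mod_cast hpp.pos
  have hm1 : m = 1 ∨ m = -1 := by
    have hm0 : m ≠ 0 := by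
      rintro rfl
      apply hnm0
      rw [hm, mul_zero]
    rw [hm, abs_mul, abs_of_pos hp0] at hlt
    have h1 : |m| < 2 := by nlinarith
    rw [abs_lt] at h1
    omega
  rcases hm1 with rfl | rfl
  · exact ⟨b, by rw [hm, mul_one], hev⟩
  · refine ⟨mulm (0, 1) b, ?_, ?_⟩
    · rw [nm_mulm, nm_phi, hm]; ring
    · rw [ev_mulm hθ, hev, mul_zero]

lemma ker_ev {p : ℕ} [hp : Fact p.Prime] {θ : ZMod p} (hθ : θ ^ 2 = θ + 1) (hθ' : θ - (1 - θ) ≠ 0) {g : ℤ × ℤ}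
    (hg : nm g = p) (hev : ev θ g = 0) (b : ℤ × ℤ) : ev θ b = 0 ↔ b ∈ Set.range (mulm g) := by
  constructor
  · intro hb
    have h1 : ev θ (mulm (cjg g) b) = 0 := by rw [ev_mulm hθ, hb, mul_zero]
    have h2 : ev (1 - θ) (mulm (cjg g) b) = 0 := by
      have hθ1 : (1 - θ) ^ 2 = (1 - θ) + 1 := by linear_combination hθ
      rw [ev_mulm hθ1, ev_cjg, hev, zero_mul]
    obtain ⟨c, hc⟩ := both_zero hθ' h1 h2
    refine ⟨c, ?_⟩
    have h3 : mulm ((p : ℤ), 0) (mulm g c) = mulm ((p : ℤ), 0) b := by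
      have h4 : mulm g (mulm (cjg g) b) = mulm ((p : ℤ), 0) b := by rw [mulm_cjg_self, hg]
      rw [← h4, hc]
      unfold mulm
      ext <;> simp <;> ring
    exact mulm_injective (by simp [hp.out.ne_zero]) h3
  · rintro ⟨c, rfl⟩
    rw [ev_mulm hθ, hev, zero_mul]

end Pool.Agent.J4.H31.MF
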