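import Mathlib
import Pool.Agent.J4.H31.MF.Split

/-! The Hecke operators. -/

set_option autoImplicit false

open Complex MeasureTheory

namespace Pool.Agent.J4.H31.MF

lemma lg_int (m : ℤ) : lg (m, 0) = 0 := by
  unfold lg al al'
  simp

lemma psi_int (m : ℤ) : psi (m, 0) = (kap (m : ZMod 5) : ℂ) := by
  unfold psi
  rw [lg_int]
  have : res (m, 0) = (m : ZMod 5) := by unfold res; simp
  rw [this]
  simp [ee_zero]

lemma nm_int (m : ℤ) : nm (m, 0) = m * m := by
  unfold nm; ring

/-- the weight supported on the multiples of `p` -/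
def up (p : ℕ) (w : ℤ → ℂ) (M : ℤ) : ℂ := if (p : ℤ) ∣ M then w (M / p) else 0

lemma PB.up {w : ℤ → ℂ} (hw : PB w) (p : ℕ) : PB (up p w) := by
  obtain ⟨C, k, hk⟩ := hw
  have hC : 0 ≤ C := by
    have := (norm_nonneg _).trans (hk 0)
    simpa using this
  refine ⟨C, k, fun N => ?_⟩
  unfold MF.up
  split_ifs with h
  · obtain ⟨m, rfl⟩ := h
    by_cases hp : p = 0
    · subst hp
      simp
      have := hk 0
      simpa using this
    · have hp' : (p : ℤ) ≠ 0 := by exact_mod_cast hp
      rw [Int.mul_ediv_cancel_left _ hp']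
      refine (hk m).trans ?_
      push_cast
      rw [abs_mul]
      have h1 : (1 : ℝ) ≤ |(p : ℝ)| := by
        rw [abs_of_nonneg (by positivity)]
        exact_mod_cast Nat.one_le_iff_ne_zero.2 hp
      have h2 := abs_nonneg (m : ℝ)
      gcongr
      nlinarith
  · rw [norm_zero]
    positivity

lemma up_mul {p : ℕ} (hp : p ≠ 0) (w : ℤ → ℂ) (N : ℤ) : up p w (p * N) = w N := by
  have hp' : (p : ℤ) ≠ 0 := by exact_mod_cast hp
  unfold up
  rw [if_pos (dvd_mul_right _ _), Int.mul_ediv_cancel_left _ hp']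

lemma summable_ite {F : ℤ × ℤ → ℂ} (hF : Summable F) (P : ℤ × ℤ → Prop) [DecidablePred P] :
    Summable fun p => if P p then F p else 0 := by
  refine Summable.of_norm_bounded hF.norm fun p => ?_
  split_ifs
  · exact le_rfl
  · simp

/-- the Hecke relation on the level of the functional `H` -/
theorem hecke_H {p : ℕ} (hp : p.Prime) (hp5 : p ≠ 5) : ∃ lam : ℂ, ∀ w : ℤ → ℂ, PB w → ∀ y : ℝ, 0 < y →
    H (up p w) (y / p) + H (fun N => w (p * N)) (p * y) = lam * H w y := by
  have : Fact p.Prime := ⟨hp⟩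
  have hp0 : p ≠ 0 := hp.ne_zero
  have hpr : (0 : ℝ) < p := by exact_mod_cast hp.pos
  have hpz : ((p : ℤ), (0 : ℤ)) ≠ 0 := by simp [hp0]
  -- the multiples of `p`
  have hmp : ∀ w : ℤ → ℂ, PB w → ∀ y : ℝ, 0 < y → ∀ (P : ℤ × ℤ → Prop) [DecidablePred P],
      (∀ b, P b ↔ b ∈ Set.range (mulm ((p : ℤ), 0))) →
      ∑' b, (if P b then ((kap (res b) : ℂ) * up p w (nm b)) * Ts 0 (y / p) b else 0) =
        (kap (p : ZMod 5) : ℂ) * H (fun N => w (p * N)) (p * y) := by
    intro w hw y hy P _ hP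
    rw [sum_range hpz (hw.up p) (by positivity) P hP, psi_int, nm_int]
    have e1 : (fun N : ℤ => up p w ((p : ℤ) * p * N)) = fun N => w (p * N) := by
      funext N
      rw [mul_assoc, up_mul hp0]
    have e2 : |(((p : ℤ) * p : ℤ) : ℝ)| * (y / p) = p * y := by
      push_cast
      rw [abs_of_nonneg (by positivity)]
      field_simp
    rw [e1, e2]
    simp
  have hk : kap (p : ZMod 5) = 1 ∨ kap (p : ZMod 5) = -1 := by
    have hne : (p : ZMod 5) ≠ 0 := by
      intro h
      rw [ZMod.natCast_eq_zero_iff] at h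
      exact hp5 ((Nat.prime_dvd_prime_iff_eq (by norm_num) hp).1 h).symm
    have : ∀ c : ZMod 5, c ≠ 0 → kap c = 1 ∨ kap c = -1 := by decide
    exact this _ hne
  rcases hk with hk | hk
  · obtain ⟨θ, hθ, hθ'⟩ := exists_root hk
    obtain ⟨g, hg, hev⟩ := exists_norm hθ
    have hθ1 : (1 - θ) ^ 2 = (1 - θ) + 1 := by linear_combination hθ
    have hθ1' : (1 - θ) - (1 - (1 - θ)) ≠ 0 := by
      intro h
      apply hθ'
      linear_combination -h
    have hg0 : g ≠ 0 := by
      rintro rfl
      simp [nm] at hg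
      exact hp0 (by exact_mod_cast hg.symm)
    have hg' : nm (cjg g) = p := by rw [nm_cjg, hg]
    have hev' : ev (1 - θ) (cjg g) = 0 := by rw [ev_cjg, hev]
    have hg0' : cjg g ≠ 0 := by
      intro h
      rw [h] at hg'
      simp [nm] at hg'
      exact hp0 (by exact_mod_cast hg'.symm)
    refine ⟨psi g + psi (cjg g), fun w hw y hy => ?_⟩
    classical
    set F : ℤ × ℤ → ℂ := fun b => ((kap (res b) : ℂ) * up p w (nm b)) * Ts 0 (y / p) b with hF
    have hFs : Summable F := (hw.up p).summable_H (by positivity)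
    have hdec : ∀ b, F b = (if ev θ b = 0 then F b else 0) + (if ev (1 - θ) b = 0 then F b else 0) -
        (if (ev θ b = 0 ∧ ev (1 - θ) b = 0) then F b else 0) := by
      intro b
      by_cases h1 : ev θ b = 0
      · by_cases h2 : ev (1 - θ) b = 0
        · simp [h1, h2]
        · simp [h1, h2]
      · by_cases h2 : ev (1 - θ) b = 0
        · simp [h1, h2]
        · simp only [h1, h2, if_false, false_and, add_zero, sub_zero]
          have h3 : ¬ (p : ℤ) ∣ nm b := by
            rw [← ZMod.intCast_zmod_eq_zero_iff_dvd, ← ev_mul_ev hθ]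
            exact mul_ne_zero h1 h2
          simp [hF, up, h3]
    have h1 : H (up p w) (y / p) = ∑' b, (if ev θ b = 0 then F b else 0) + ∑' b, (if ev (1 - θ) b = 0 then F b else 0) -
        ∑' b, (if (ev θ b = 0 ∧ ev (1 - θ) b = 0) then F b else 0) := by
      rw [← (summable_ite hFs _).tsum_add (summable_ite hFs _),
        ← ((summable_ite hFs _).add (summable_ite hFs _)).tsum_sub (summable_ite hFs _)]
      exact tsum_congr hdec
    have e1 : (fun N : ℤ => up p w ((p : ℤ) * N)) = w := by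
      funext N
      rw [up_mul hp0]
    have e2 : |((p : ℤ) : ℝ)| * (y / p) = y := by
      push_cast
      rw [abs_of_nonneg (by positivity)]
      field_simp
    have h2 : ∑' b, (if ev θ b = 0 then F b else 0) = psi g * H w y := by
      rw [sum_range hg0 (hw.up p) (by positivity) (fun b => ev θ b = 0) (ker_ev hθ hθ' hg hev), hg, e1, e2]
    have h3 : ∑' b, (if ev (1 - θ) b = 0 then F b else 0) = psi (cjg g) * H w y := by
      rw [sum_range hg0' (hw.up p) (by positivity) (fun b => ev (1 - θ) b = 0) (ker_ev hθ1 hθ1' hg' hev'), hg', e1, e2]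
    have h4 : ∑' b, (if (ev θ b = 0 ∧ ev (1 - θ) b = 0) then F b else 0) = H (fun N => w (p * N)) (p * y) := by
      rw [hmp w hw y hy (fun b => ev θ b = 0 ∧ ev (1 - θ) b = 0) (fun b => ?_), hk]
      · simp
      · constructor
        · rintro ⟨ha, hb⟩
          obtain ⟨c, hc⟩ := both_zero hθ' ha hb
          exact ⟨c, hc.symm⟩
        · rintro ⟨c, rfl⟩
          rw [ev_mulm hθ, ev_mulm hθ1]
          have : ∀ t : ZMod p, ev t ((p : ℤ), 0) = 0 := by
            intro t
            unfold ev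
            simp
          rw [this, this, zero_mul, zero_mul]
          exact ⟨rfl, rfl⟩
    rw [h1, h2, h3, h4]
    ring
  · refine ⟨0, fun w hw y hy => ?_⟩
    classical
    have hdec : ∀ b : ℤ × ℤ, ((kap (res b) : ℂ) * up p w (nm b)) * Ts 0 (y / p) b =
        if ((p : ℤ) ∣ b.1 ∧ (p : ℤ) ∣ b.2) then ((kap (res b) : ℂ) * up p w (nm b)) * Ts 0 (y / p) b else 0 := by
      intro b
      by_cases h : (p : ℤ) ∣ nm b
      · rw [if_pos (inert hk h)]
      · simp [up, h]
    have h1 : H (up p w) (y / p) = (kap (p : ZMod 5) : ℂ) * H (fun N => w (p * N)) (p * y) := by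
      rw [← hmp w hw y hy (fun b => (p : ℤ) ∣ b.1 ∧ (p : ℤ) ∣ b.2) (fun b => ?_)]
      · unfold H
        exact tsum_congr hdec
      · constructor
        · rintro ⟨⟨m, hm⟩, ⟨n, hn⟩⟩
          exact ⟨(m, n), by unfold mulm; ext <;> simp [hm, hn]⟩
        · rintro ⟨c, rfl⟩
          unfold mulm
          simp
    rw [h1, hk]
    push_cast
    ring

/-- no coefficients at the multiples of `5` -/
theorem H_five {w : ℤ → ℂ} (hw : ∀ N : ℤ, ¬ (5 : ℤ) ∣ N → w N = 0) (y : ℝ) : H w y = 0 := by
  unfold H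
  have : ∀ p : ℤ × ℤ, ((kap (res p) : ℂ) * w (nm p)) * Ts 0 y p = 0 := by
    intro p
    by_cases h : (5 : ℤ) ∣ nm p
    · have h1 : ((nm p : ℤ) : ZMod 5) = 0 := (ZMod.intCast_zmod_eq_zero_iff_dvd _ 5).2 h
      rw [nm_mod] at h1
      have h2 : ∀ c : ZMod 5, c ^ 2 = 0 → kap c = 0 := by decide
      rw [h2 _ h1]
      simp
    · rw [hw _ h]
      simp
  simp [this]

end Pool.Agent.J4.H31.MF
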