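import Mathlib
import Pool.Agent.J4.H31.MF.Hecke

/-! The Fourier coefficients. -/

set_option autoImplicit false

open Complex MeasureTheory

namespace Pool.Agent.J4.H31.MF

/-- the Fourier coefficients -/
noncomputable def aco (n : ℕ) : ℂ :=
  (1 / 4 : ℂ) * ∑' b : ((fun p : Phi => (nm p).natAbs) ⁻¹' {n} : Set Phi), psi b

lemma natAbs_cast (N : ℤ) : ((N.natAbs : ℕ) : ℝ) = |(N : ℝ)| := by
  rw [Nat.cast_natAbs]
  push_cast
  rfl

lemma fiber_zero (b : ((fun p : Phi => (nm p).natAbs) ⁻¹' {0} : Set Phi)) : False := by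
  have h1 : (nm (b : Phi)).natAbs = 0 := b.2
  rw [Int.natAbs_eq_zero] at h1
  exact (b : Phi).2.1 (nm_eq_zero h1)

lemma aco_zero : aco 0 = 0 := by
  unfold aco
  have : IsEmpty ((fun p : Phi => (nm p).natAbs) ⁻¹' {0} : Set Phi) := ⟨fiber_zero⟩
  rw [tsum_empty, mul_zero]

/-- the functional `H` on even weights -/
theorem hasSum_H_nat {w : ℤ → ℂ} (hw : PB w) (he : ∀ N : ℤ, w N = w (N.natAbs : ℕ)) {y : ℝ} (hy : 0 < y) :
    HasSum (fun n : ℕ => 4 * aco n * w n * (KB (2 * Real.pi * n * y) : ℂ)) (H w y) := by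
  have h := (hasSum_H hw hy).tsum_fiberwise (fun p : Phi => (nm p).natAbs)
  have e0 : (fun n : ℕ => 4 * aco n * w n * (KB (2 * Real.pi * n * y) : ℂ)) = fun n : ℕ =>
      ∑' b : ((fun p : Phi => (nm p).natAbs) ⁻¹' {n} : Set Phi),
        psi b * w (nm b) * (KB (2 * Real.pi * |(nm b : ℝ)| * y) : ℂ) := by
    funext n
    have e : ∀ b : ((fun p : Phi => (nm p).natAbs) ⁻¹' {n} : Set Phi),
        psi b * w (nm b) * (KB (2 * Real.pi * |(nm b : ℝ)| * y) : ℂ) =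
          psi b * (w n * (KB (2 * Real.pi * n * y) : ℂ)) := by
      intro b
      have h1 : (nm (b : Phi)).natAbs = n := b.2
      rw [he (nm b), ← natAbs_cast, h1, mul_assoc]
    rw [tsum_congr e, tsum_mul_right]
    unfold aco
    ring
  rw [e0]
  exact h

lemma phi_bound (p : Phi) : (((p : ℤ × ℤ).1 : ℝ) ^ 2 + ((p : ℤ × ℤ).2 : ℝ) ^ 2) ≤ (gr ^ 4 + 1) * |(nm p : ℝ)| := by
  obtain ⟨hp0, hp1, hp2⟩ := p.2
  have h1 := al_sq_lower (p : ℤ × ℤ)
  have hN := abs_nm_pos hp0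
  have h2 : al' p ^ 2 ≤ |(nm p : ℝ)| := by
    have h3 : al p ^ 2 * al' p ^ 2 = |(nm p : ℝ)| * |(nm p : ℝ)| := by
      rw [← mul_pow, al_mul_al', ← sq, sq_abs]
    have h4 : 0 < al p ^ 2 := by
      have : al p ≠ 0 := fun h => hp0 (al_zero_iff h)
      positivity
    by_contra hcon
    push Not at hcon
    nlinarith [sq_nonneg (al' p)]
  nlinarith

lemma one_le_abs_nm (p : Phi) : (1 : ℝ) ≤ |(nm p : ℝ)| := by
  have h : nm p ≠ 0 := fun h => p.2.1 (nm_eq_zero h)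
  exact_mod_cast Int.one_le_abs h

lemma summable_phi_exp {t : ℝ} (ht : 0 < t) : Summable fun p : Phi => Real.exp (-(t * |(nm p : ℝ)|)) := by
  have hg : 0 < gr ^ 4 + 1 := by positivity
  have h1 : Summable fun p : Phi => dom (t / (gr ^ 4 + 1)) p :=
    (summable_dom (by positivity)).subtype _
  refine Summable.of_nonneg_of_le (fun _ => (Real.exp_pos _).le) (fun p => ?_) h1
  unfold dom
  apply Real.exp_le_exp.2
  rw [neg_le_neg_iff, div_mul_eq_mul_div, div_le_iff₀ hg]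
  have := phi_bound p
  nlinarith

lemma summable_phi_rpow {σ : ℝ} (hσ : 1 < σ) : Summable fun p : Phi => |(nm p : ℝ)| ^ (-σ) := by
  have hg : 0 < gr ^ 4 + 1 := by positivity
  have h0 : Summable fun x : Fin 2 → ℤ => ‖x‖ ^ (-(2 * σ)) :=
    EisensteinSeries.summable_one_div_norm_rpow (by linarith)
  have h1 : Summable fun p : ℤ × ℤ => ‖(finTwoArrowEquiv ℤ).symm p‖ ^ (-(2 * σ)) :=
    ((finTwoArrowEquiv ℤ).symm.summable_iff).2 h0
  have h2 : Summable fun p : Phi => (gr ^ 4 + 1) ^ σ * ‖(finTwoArrowEquiv ℤ).symm (p : ℤ × ℤ)‖ ^ (-(2 * σ)) :=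
    (h1.subtype _).mul_left _
  refine Summable.of_nonneg_of_le (fun _ => by positivity) (fun p => ?_) h2
  have hN := one_le_abs_nm p
  have hb := phi_bound p
  have hp0 := p.2.1
  have hnorm : ‖(finTwoArrowEquiv ℤ).symm (p : ℤ × ℤ)‖ ^ 2 ≤ (((p : ℤ × ℤ).1 : ℝ) ^ 2 + ((p : ℤ × ℤ).2 : ℝ) ^ 2) := by
    have h3 : ‖(finTwoArrowEquiv ℤ).symm (p : ℤ × ℤ)‖ ≤
        Real.sqrt (((p : ℤ × ℤ).1 : ℝ) ^ 2 + ((p : ℤ × ℤ).2 : ℝ) ^ 2) := by
      rw [pi_norm_le_iff_of_nonneg (Real.sqrt_nonneg _)]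
      intro i
      rw [Int.norm_eq_abs]
      apply Real.abs_le_sqrt
      fin_cases i
      · simp [finTwoArrowEquiv]
        positivity
      · simp [finTwoArrowEquiv]
        positivity
    calc _ ≤ Real.sqrt (((p : ℤ × ℤ).1 : ℝ) ^ 2 + ((p : ℤ × ℤ).2 : ℝ) ^ 2) ^ 2 := by gcongr
      _ = _ := Real.sq_sqrt (by positivity)
  have hpos : 0 < ‖(finTwoArrowEquiv ℤ).symm (p : ℤ × ℤ)‖ := by
    rw [norm_pos_iff]
    intro h
    apply hp0
    exact (finTwoArrowEquiv ℤ).symm.injective (by rw [h]; ext i; fin_cases i <;> simp [finTwoArrowEquiv])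
  set M := ‖(finTwoArrowEquiv ℤ).symm (p : ℤ × ℤ)‖ with hM
  have h4 : M ^ 2 / (gr ^ 4 + 1) ≤ |(nm p : ℝ)| := by
    rw [div_le_iff₀ hg]
    linarith
  calc |(nm p : ℝ)| ^ (-σ) ≤ (M ^ 2 / (gr ^ 4 + 1)) ^ (-σ) :=
        Real.rpow_le_rpow_of_nonpos (by positivity) h4 (by linarith)
    _ = (gr ^ 4 + 1) ^ σ * M ^ (-(2 * σ)) := by
        rw [Real.div_rpow (by positivity) hg.le, Real.rpow_neg hg.le, div_inv_eq_mul, mul_comm]
        congr 1
        rw [← Real.rpow_natCast, ← Real.rpow_mul (by positivity)]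
        congr 1
        push_cast
        ring

lemma norm_psi_le (p : ℤ × ℤ) : ‖psi p‖ ≤ 1 := by
  unfold psi
  rw [norm_mul, norm_ee, mul_one]
  exact norm_kap_le _

end Pool.Agent.J4.H31.MF
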