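import Mathlib
import Pool.Agent.J4.H31.MF.Coeff
import Pool.Agent.J4.H31.MF.Bessel2

/-! Hecke operators and Fourier expansion of the Maass form. -/

set_option autoImplicit false

open Complex MeasureTheory Filter

namespace Pool.Agent.J4.H31.MF

/-! ### the first coefficient -/

lemma gr_lower : 1.6 < gr := by
  have h := phi_sq
  have h0 := gr_pos
  nlinarith

lemma gr_upper : gr < 1.62 := by
  have h := phi_sq
  have h0 := gr_pos
  nlinarith

lemma gr_four : gr ^ 4 = 3 * gr + 2 := by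
  linear_combination (gr ^ 2 + gr + 2) * phi_sq

lemma fiber_one {p : ℤ × ℤ} (hp : p ∈ Phi) (h : (nm p).natAbs = 1) :
    p = (1, 0) ∨ p = (-1, 0) ∨ p = (0, 1) ∨ p = (0, -1) := by
  have hb := phi_bound ⟨p, hp⟩
  obtain ⟨hp0, hp1, hp2⟩ := hp
  have hN : |(nm p : ℝ)| = 1 := by
    rw [← natAbs_cast, h, Nat.cast_one]
  simp only at hb
  rw [hN] at hb hp1 hp2
  have hgl := gr_lower
  have hgu := gr_upper
  rw [gr_four] at hb hp2
  have hb' : p.1 ^ 2 + p.2 ^ 2 < 8 := by
    have : ((p.1 ^ 2 + p.2 ^ 2 : ℤ) : ℝ) < 8 := by push_cast; linarith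
    exact_mod_cast this
  obtain ⟨m, n⟩ := p
  simp only at hb'
  have hm1 : m ≤ 2 := by nlinarith [sq_nonneg n]
  have hm2 : -2 ≤ m := by nlinarith [sq_nonneg n]
  have hn1 : n ≤ 2 := by nlinarith [sq_nonneg m]
  have hn2 : -2 ≤ n := by nlinarith [sq_nonneg m]
  unfold al at hp1 hp2
  have hsq := phi_sq
  simp only at hp1 hp2
  interval_cases m <;> interval_cases n <;> simp [nm] at h ⊢ <;> push_cast at hp1 hp2 <;> nlinarith

lemma mem_phi_one : ((1, 0) : ℤ × ℤ) ∈ Phi := by
  refine ⟨by simp, ?_, ?_⟩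
  · simp [nm, al]
  · have hgl := gr_lower
    rw [gr_four]
    simp [nm, al]
    linarith

lemma mem_phi_neg_one : ((-1, 0) : ℤ × ℤ) ∈ Phi := by
  refine ⟨by simp, ?_, ?_⟩
  · simp [nm, al]
  · have hgl := gr_lower
    rw [gr_four]
    simp [nm, al]
    linarith

lemma mem_phi_phi : ((0, 1) : ℤ × ℤ) ∈ Phi := by
  have hgl := gr_lower
  refine ⟨by simp, ?_, ?_⟩
  · simp [nm, al]
    rw [abs_of_pos gr_pos]
    linarith
  · rw [gr_four]
    simp [nm, al]
    rw [phi_sq]
    linarith

lemma mem_phi_neg_phi : ((0, -1) : ℤ × ℤ) ∈ Phi := by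
  have hgl := gr_lower
  refine ⟨by simp, ?_, ?_⟩
  · simp [nm, al]
    rw [abs_of_pos gr_pos]
    linarith
  · rw [gr_four]
    simp [nm, al]
    rw [phi_sq]
    linarith

lemma psi_neg (p : ℤ × ℤ) : psi (-p) = psi p := by
  unfold psi
  have h1 : al (-p) = -al p := by unfold al; simp; ring
  have h2 : al' (-p) = -al' p := by unfold al'; simp; ring
  have h3 : lg (-p) = lg p := by unfold lg; rw [h1, h2, abs_neg, abs_neg]
  have h4 : kap (res (-p)) = kap (res p) := by
    have h5 : res (-p) = -res p := by unfold res; simp; ring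
    rw [h5]
    have : ∀ c : ZMod 5, kap (-c) = kap c := by decide
    exact this _
  rw [h3, h4]

/-- the first coefficient -/
theorem aco_one : aco 1 = 1 := by
  classical
  unfold aco
  set S : Finset Phi := {⟨(1, 0), mem_phi_one⟩, ⟨(-1, 0), mem_phi_neg_one⟩, ⟨(0, 1), mem_phi_phi⟩,
    ⟨(0, -1), mem_phi_neg_phi⟩} with hS
  have hset : ((fun p : Phi => (nm p).natAbs) ⁻¹' {1} : Set Phi) = (S : Set Phi) := by
    ext ⟨p, hp⟩
    simp only [Set.mem_preimage, Set.mem_singleton_iff, hS, Finset.coe_insert, Finset.coe_singleton,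
      Set.mem_insert_iff, Subtype.mk.injEq]
    constructor
    · exact fun h => fiber_one hp h
    · rintro (h | h | h | h) <;> rw [h] <;> simp [nm]
  rw [hset, Finset.tsum_subtype' S (fun b : Phi => psi b)]
  have h1 : psi (1, 0) = 1 := by
    rw [psi_int, show kap ((1 : ℤ) : ZMod 5) = 1 from by decide]; simp
  have h2 : psi (-1, 0) = 1 := by
    have : ((-1, 0) : ℤ × ℤ) = -(1, 0) := by simp
    rw [this, psi_neg, h1]
  have h3 : psi (0, -1) = 1 := by
    have : ((0, -1) : ℤ × ℤ) = -(0, 1) := by simp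
    rw [this, psi_neg, psi_phi]
  rw [hS, Finset.sum_insert (by simp), Finset.sum_insert (by simp), Finset.sum_insert (by simp), Finset.sum_singleton,
    h1, h2, psi_phi, h3]
  norm_num

/-! ### Fourier expansion -/

/-- the Fourier expansion -/
theorem f_fourier {x y : ℝ} (hy : 0 < y) :
    HasSum (fun n : ℕ => 2 * (Real.sqrt y : ℂ) * aco n * (KB (2 * Real.pi * n * y) : ℂ) *
      (Real.cos (2 * Real.pi * n * x) : ℂ)) (f (x + y * I)) := by
  have hPBc : PB fun N : ℤ => (Real.cos (2 * Real.pi * x * N) : ℂ) :=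
    PB_one_bound 1 fun N => by rw [Complex.norm_real]; exact Real.abs_cos_le_one _
  have he : ∀ N : ℤ, (Real.cos (2 * Real.pi * x * N) : ℂ) = (Real.cos (2 * Real.pi * x * ((N.natAbs : ℕ) : ℤ)) : ℂ) := by
    intro N
    congr 1
    rcases Int.natAbs_eq N with h | h
    · rw [← h]
    · have : ((N : ℤ) : ℝ) = -((N.natAbs : ℤ) : ℝ) := by exact_mod_cast h
      rw [this, mul_neg, Real.cos_neg]
  have h1 := (hasSum_H_nat hPBc he hy).mul_left ((1 / 2 : ℂ) * (Real.sqrt y : ℂ))
  have h2 : H (fun N : ℤ => (Real.cos (2 * Real.pi * x * N) : ℂ)) y = H (ex x) y := by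
    have h3 := H_even (PB_ex x) hy
    have h4 : (fun N : ℤ => (Real.cos (2 * Real.pi * x * N) : ℂ)) = fun N => (1 / 2 : ℂ) * (ex x N + ex x (-N)) := by
      funext N
      unfold ex
      rw [Complex.exp_ofReal_mul_I, Complex.exp_ofReal_mul_I]
      push_cast
      rw [mul_neg, Complex.cos_neg, Complex.sin_neg]
      ring
    have hPn : PB fun N => ex x (-N) := PB_one_bound 1 fun N => (norm_ex x _).le
    rw [h4, H_smul, H_add (PB_ex x) hPn hy, ← h3]
    ring
  have h5 : (1 / 2 : ℂ) * (Real.sqrt y : ℂ) * H (fun N : ℤ => (Real.cos (2 * Real.pi * x * N) : ℂ)) y = f (x + y * I) := by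
    rw [h2]
    unfold f
    simp
    ring
  rw [h5] at h1
  have h6 : (fun n : ℕ => 2 * (Real.sqrt y : ℂ) * aco n * (KB (2 * Real.pi * n * y) : ℂ) *
      (Real.cos (2 * Real.pi * n * x) : ℂ)) = fun n : ℕ => (1 / 2 : ℂ) * (Real.sqrt y : ℂ) *
      (4 * aco n * (Real.cos (2 * Real.pi * x * ((n : ℕ) : ℤ)) : ℂ) * (KB (2 * Real.pi * n * y) : ℂ)) := by
    funext n
    have : 2 * Real.pi * n * x = 2 * Real.pi * x * ((n : ℕ) : ℤ) := by push_cast; ring
    rw [this]
    ring
  rw [h6]
  exact h1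

/-! ### Hecke relations for the coefficients -/

/-- the weight of the integers of absolute value `n` -/
def ind (n : ℕ) (N : ℤ) : ℂ := if N.natAbs = n then 1 else 0

lemma PB_ind (n : ℕ) : PB (ind n) := PB_one_bound 1 fun N => by
  unfold ind
  split_ifs <;> simp

lemma H_ind (n : ℕ) {y : ℝ} (hy : 0 < y) : H (ind n) y = 4 * aco n * (KB (2 * Real.pi * n * y) : ℂ) := by
  have h := hasSum_H_nat (PB_ind n) (fun N => by unfold ind; rw [Int.natAbs_natCast]) hy
  have h2 : HasSum (fun m : ℕ => 4 * aco m * ind n m * (KB (2 * Real.pi * m * y) : ℂ))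
      (4 * aco n * ind n n * (KB (2 * Real.pi * n * y) : ℂ)) := by
    apply hasSum_single
    intro m hm
    have : ind n m = 0 := by unfold ind; simp [hm]
    rw [this]
    ring
  rw [h.unique h2]
  have : ind n n = 1 := by unfold ind; simp
  rw [this]
  ring

lemma H_zero_of (w : ℤ → ℂ) (h : ∀ N, w N = 0) (y : ℝ) : H w y = 0 := by
  unfold H
  simp [h]

/-- the Hecke relations, with an eigenvalue for each prime -/
lemma hecke_rel {p : ℕ} (hp : p.Prime) {lam : ℂ} (h : ∀ w : ℤ → ℂ, PB w → ∀ y : ℝ, 0 < y →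
    H (up p w) (y / p) + H (fun N => w (p * N)) (p * y) = lam * H w y) {n : ℕ} (hn : 0 < n) :
    aco (p * n) + (if p ∣ n then aco (n / p) else 0) = lam * aco n := by
  obtain ⟨x, hx, hKx⟩ := exists_KB_ne_zero
  have hpr : (0 : ℝ) < p := by exact_mod_cast hp.pos
  have hnr : (0 : ℝ) < n := by exact_mod_cast hn
  have hpi := Real.pi_pos
  set y := x / (2 * Real.pi * n) with hy
  have hy0 : 0 < y := by positivity
  have hKy : 2 * Real.pi * n * y = x := by rw [hy]; field_simp
  have h1 := h (ind n) (PB_ind n) y hy0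
  have e1 : up p (ind n) = ind (p * n) := by
    funext M
    unfold up ind
    by_cases hd : (p : ℤ) ∣ M
    · obtain ⟨m, rfl⟩ := hd
      have hp0 : (p : ℤ) ≠ 0 := by exact_mod_cast hp.ne_zero
      rw [if_pos (dvd_mul_right _ _), Int.mul_ediv_cancel_left _ hp0, Int.natAbs_mul, Int.natAbs_natCast]
      have : p * m.natAbs = p * n ↔ m.natAbs = n := Nat.mul_right_inj hp.ne_zero
      simp only [this]
    · rw [if_neg hd, if_neg]
      intro hM
      apply hd
      rw [← Int.dvd_natAbs, hM]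
      exact_mod_cast dvd_mul_right p n
  have e2 : H (up p (ind n)) (y / p) = 4 * aco (p * n) * (KB x : ℂ) := by
    rw [e1, H_ind _ (by positivity)]
    congr 3
    rw [← hKy]
    push_cast
    field_simp
  have e3 : H (fun N => ind n (p * N)) (p * y) = 4 * (if p ∣ n then aco (n / p) else 0) * (KB x : ℂ) := by
    by_cases hd : p ∣ n
    · obtain ⟨m, rfl⟩ := hd
      have e4 : (fun N : ℤ => ind (p * m) (p * N)) = ind m := by
        funext N
        unfold ind
        rw [Int.natAbs_mul, Int.natAbs_natCast]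
        have : p * N.natAbs = p * m ↔ N.natAbs = m := Nat.mul_right_inj hp.ne_zero
        simp only [this]
      rw [e4, H_ind _ (by positivity), if_pos (dvd_mul_right _ _), Nat.mul_div_cancel_left _ hp.pos]
      congr 3
      rw [← hKy]
      push_cast
      ring
    · rw [if_neg hd, H_zero_of]
      · ring
      · intro N
        unfold ind
        rw [if_neg]
        intro hN
        apply hd
        rw [← hN, Int.natAbs_mul, Int.natAbs_natCast]
        exact dvd_mul_right _ _
  rw [e2, e3, H_ind _ hy0, hKy] at h1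
  have hK : (KB x : ℂ) ≠ 0 := by exact_mod_cast hKx
  have h2 : (4 * (KB x : ℂ)) * (aco (p * n) + (if p ∣ n then aco (n / p) else 0)) =
      (4 * (KB x : ℂ)) * (lam * aco n) := by
    linear_combination h1
  exact mul_left_cancel₀ (mul_ne_zero (by norm_num) hK) h2

theorem hecke_eigen {p : ℕ} (hp : p.Prime) (hp5 : p ≠ 5) : ∀ w : ℤ → ℂ, PB w → ∀ y : ℝ, 0 < y →
    H (up p w) (y / p) + H (fun N => w (p * N)) (p * y) = aco p * H w y := by
  obtain ⟨lam, hlam⟩ := hecke_H hp hp5
  have h1 := hecke_rel hp hlam (n := 1) one_pos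
  have h2 : ¬ p ∣ 1 := by
    intro h
    exact hp.one_lt.ne' (Nat.dvd_one.1 h)
  rw [mul_one, if_neg h2, aco_one, add_zero, mul_one] at h1
  rw [h1]
  exact hlam

theorem aco_hecke {p : ℕ} (hp : p.Prime) (hp5 : p ≠ 5) {n : ℕ} (hn : 0 < n) :
    aco (p * n) + (if p ∣ n then aco (n / p) else 0) = aco p * aco n :=
  hecke_rel hp (hecke_eigen hp hp5) hn

theorem aco_five (n : ℕ) : aco (5 * n) = 0 := by
  obtain ⟨x, hx, hKx⟩ := exists_KB_ne_zero
  by_cases hn : n = 0
  · rw [hn, mul_zero, aco_zero]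
  have hnr : (0 : ℝ) < ((5 * n : ℕ) : ℝ) := by exact_mod_cast Nat.mul_pos (by norm_num) (Nat.pos_of_ne_zero hn)
  have hpi := Real.pi_pos
  set y := x / (2 * Real.pi * ((5 * n : ℕ) : ℝ)) with hy
  have hy0 : 0 < y := by positivity
  have hKy : 2 * Real.pi * ((5 * n : ℕ) : ℝ) * y = x := by rw [hy]; field_simp
  have h1 := H_ind (5 * n) hy0
  rw [H_five, hKy] at h1
  · have hK : (KB x : ℂ) ≠ 0 := by exact_mod_cast hKx
    have h2 : 4 * aco (5 * n) * (KB x : ℂ) = 0 := h1.symm
    rcases mul_eq_zero.1 h2 with h3 | h3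
    · rcases mul_eq_zero.1 h3 with h4 | h4
      · norm_num at h4
      · exact h4
    · exact absurd h3 hK
  · intro N hN
    unfold ind
    rw [if_neg]
    intro h
    apply hN
    rw [← Int.dvd_natAbs, h]
    push_cast
    exact dvd_mul_right _ _

/-! ### Hecke operators -/

lemma ex_zmul (x : ℝ) (p N : ℤ) : ex x (p * N) = ex (p * x) N := by
  unfold ex
  congr 1
  push_cast
  ring

lemma sum_ex {p : ℕ} (hp : 0 < p) (x : ℝ) (N : ℤ) :
    ∑ j ∈ Finset.range p, ex ((x + j) / p) N = p * up p (ex x) N := by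
  have hpr : (p : ℝ) ≠ 0 := by exact_mod_cast hp.ne'
  have hpz : (p : ℤ) ≠ 0 := by exact_mod_cast hp.ne'
  unfold up
  by_cases hd : (p : ℤ) ∣ N
  · obtain ⟨m, rfl⟩ := hd
    rw [if_pos (dvd_mul_right _ _), Int.mul_ediv_cancel_left _ hpz]
    have : ∀ j ∈ Finset.range p, ex ((x + j) / p) (p * m) = ex x m := by
      intro j _
      rw [ex_zmul]
      have e : ((p : ℤ) : ℝ) * ((x + j) / p) = x + j := by push_cast; field_simp
      rw [e, ex_add]
      have : ex (j : ℝ) m = 1 := by
        unfold ex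
        have : (((2 * Real.pi * (j : ℝ) * m : ℝ) : ℂ) * I) = ((j * m : ℤ) : ℂ) * (2 * Real.pi * I) := by
          push_cast; ring
        rw [this]
        exact Complex.exp_int_mul_two_pi_mul_I _
      rw [this, mul_one]
    rw [Finset.sum_congr rfl this, Finset.sum_const, Finset.card_range, nsmul_eq_mul]
  · rw [if_neg hd, mul_zero]
    set ζ : ℂ := ex (1 / p) N with hζ
    have h1 : ∀ j ∈ Finset.range p, ex ((x + j) / p) N = ex (x / p) N * ζ ^ j := by
      intro j _
      rw [hζ]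
      unfold ex
      rw [← Complex.exp_nat_mul, ← Complex.exp_add]
      congr 1
      push_cast
      ring
    rw [Finset.sum_congr rfl h1, ← Finset.mul_sum]
    have h2 : ζ ≠ 1 := by
      intro h
      apply hd
      rw [hζ] at h
      unfold ex at h
      obtain ⟨k, hk⟩ := Complex.exp_eq_one_iff.1 h
      have hpc : (p : ℂ) ≠ 0 := by exact_mod_cast hp.ne'
      have h3 : ((2 * Real.pi * (1 / p) * N : ℝ) : ℂ) * I = ((N : ℂ) / p) * (2 * Real.pi * I) := by
        push_cast; ring
      rw [h3] at hk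
      have h4 := mul_right_cancel₀ Complex.two_pi_I_ne_zero hk
      rw [div_eq_iff hpc] at h4
      refine ⟨k, ?_⟩
      have : (N : ℂ) = ((p * k : ℤ) : ℂ) := by rw [h4]; push_cast; ring
      exact_mod_cast this
    have h3 : ζ ^ p = 1 := by
      rw [hζ]
      unfold ex
      rw [← Complex.exp_nat_mul]
      have hpc : (p : ℂ) ≠ 0 := by exact_mod_cast hp.ne'
      have : (p : ℂ) * (((2 * Real.pi * (1 / p) * N : ℝ) : ℂ) * I) = N * (2 * Real.pi * I) := by
        push_cast
        field_simp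
      rw [this]
      exact Complex.exp_int_mul_two_pi_mul_I N
    rw [geom_sum_eq h2, h3, sub_self, zero_div, mul_zero]

lemma sum_f {p : ℕ} (hp : 0 < p) {z : ℂ} (hz : 0 < z.im) :
    ∑ j ∈ Finset.range p, f ((z + j) / p) = (Real.sqrt p : ℂ) * ((1 / 2 : ℂ) * ((Real.sqrt z.im : ℝ) *
      H (up p (ex z.re)) (z.im / p))) := by
  have hpr : (0 : ℝ) < p := by exact_mod_cast hp
  have him : ∀ j : ℕ, ((z + j) / p).im = z.im / p := by
    intro j
    rw [show (p : ℂ) = ((p : ℝ) : ℂ) by push_cast; rfl, Complex.div_ofReal_im]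
    simp
  have hre : ∀ j : ℕ, ((z + j) / p).re = (z.re + j) / p := by
    intro j
    rw [show (p : ℂ) = ((p : ℝ) : ℂ) by push_cast; rfl, Complex.div_ofReal_re]
    simp
  have h1 : ∀ j ∈ Finset.range p, f ((z + j) / p) = (1 / 2 : ℂ) * ((Real.sqrt (z.im / p) : ℝ)) *
      H (ex ((z.re + j) / p)) (z.im / p) := by
    intro j _
    unfold f
    rw [him, hre]
    ring
  rw [Finset.sum_congr rfl h1, ← Finset.mul_sum, ← H_sum _ _ (fun j => PB_ex _) (by positivity)]
  have h2 : (fun N : ℤ => ∑ j ∈ Finset.range p, ex ((z.re + j) / p) N) = fun N => (p : ℂ) * up p (ex z.re) N := by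
    funext N
    exact sum_ex hp z.re N
  rw [h2, H_smul]
  have h3 : (Real.sqrt (z.im / p) : ℂ) * p = (Real.sqrt p : ℂ) * (Real.sqrt z.im : ℂ) := by
    rw [Real.sqrt_div hz.le]
    have h4 : Real.sqrt z.im / Real.sqrt p * p = Real.sqrt p * Real.sqrt z.im := by
      have h5 : Real.sqrt p ≠ 0 := by positivity
      have h6 : Real.sqrt p * Real.sqrt p = p := Real.mul_self_sqrt hpr.le
      field_simp
      linear_combination -h6
    exact_mod_cast congrArg (fun t : ℝ => (t : ℂ)) h4
  linear_combination (1 / 2 : ℂ) * H (up p (ex z.re)) (z.im / p) * h3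

/-- the Hecke operators -/
theorem f_hecke {p : ℕ} (hp : p.Prime) (hp5 : p ≠ 5) {z : ℂ} (hz : 0 < z.im) :
    f (p * z) + ∑ j ∈ Finset.range p, f ((z + j) / p) = (Real.sqrt p : ℂ) * aco p * f z := by
  have hpr : (0 : ℝ) < p := by exact_mod_cast hp.pos
  rw [sum_f hp.pos hz]
  have h1 : f (p * z) = (Real.sqrt p : ℂ) * ((1 / 2 : ℂ) * ((Real.sqrt z.im : ℝ) *
      H (fun N => ex z.re (p * N)) (p * z.im))) := by
    unfold f
    have h2 : ((p : ℂ) * z).im = p * z.im := by simp
    have h3 : ((p : ℂ) * z).re = p * z.re := by simp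
    have h4 : (fun N => ex z.re (p * N)) = ex (p * z.re) := by
      funext N
      rw [ex_zmul]
      push_cast
      rfl
    rw [h2, h3, h4, Real.sqrt_mul hpr.le]
    push_cast
    ring
  rw [h1]
  have h5 := hecke_eigen hp hp5 (ex z.re) (PB_ex _) z.im hz
  unfold f
  linear_combination (Real.sqrt p : ℂ) * (1 / 2 : ℂ) * (Real.sqrt z.im : ℂ) * h5

/-- the operator at `5` -/
theorem f_five {z : ℂ} (hz : 0 < z.im) : ∑ j ∈ Finset.range 5, f ((z + j) / 5) = 0 := by
  have h := sum_f (p := 5) (by norm_num) hz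
  rw [H_five] at h
  · simpa using h
  · intro N hN
    unfold up
    rw [if_neg]
    exact_mod_cast hN

end Pool.Agent.J4.H31.MF
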