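import Mathlib

/-! Smoothness of Laplace–Fourier transforms in two variables. -/

set_option autoImplicit false

open Complex MeasureTheory
open scoped ContDiff

namespace Pool.Agent.J4.H31.MF.Sm

variable {X : Type*} [MeasurableSpace X]

/-- the data of a transform -/
structure Dat (μ : Measure X) (c : X → ℂ) (N Q : X → ℝ) : Prop where
  hc : Measurable c
  hN : Measurable N
  hQ : Measurable Q
  hNQ : ∀ t, |N t| ≤ Q t
  hint : ∀ y : ℝ, 0 < y → Integrable (fun t => ‖c t‖ * Real.exp (-(y * Q t))) μ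

/-- admissible multipliers -/
def Adm (Q : X → ℝ) (m : X → ℂ) : Prop := Measurable m ∧ ∃ (C : ℝ) (k : ℕ), 0 ≤ C ∧ ∀ t, ‖m t‖ ≤ C * (1 + Q t) ^ k

/-- the real part as a real linear map with complex values -/
noncomputable def rho : ℂ →L[ℝ] ℂ := ofRealCLM.comp reCLM
/-- the imaginary part as a real linear map with complex values -/
noncomputable def iota : ℂ →L[ℝ] ℂ := ofRealCLM.comp imCLM

@[simp] lemma rho_apply (z : ℂ) : rho z = (z.re : ℂ) := rfl
@[simp] lemma iota_apply (z : ℂ) : iota z = (z.im : ℂ) := rfl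

lemma norm_rho_le : ‖rho‖ ≤ 1 := by
  refine ContinuousLinearMap.opNorm_le_bound _ zero_le_one fun z => ?_
  rw [rho_apply, Complex.norm_real, one_mul]
  exact Complex.abs_re_le_norm z

lemma norm_iota_le : ‖iota‖ ≤ 1 := by
  refine ContinuousLinearMap.opNorm_le_bound _ zero_le_one fun z => ?_
  rw [iota_apply, Complex.norm_real, one_mul]
  exact Complex.abs_im_le_norm z

/-- the exponent -/
noncomputable def ell (n q : ℝ) : ℂ →L[ℝ] ℂ := ((n : ℂ) * I) • rho - (q : ℂ) • iota

lemma ell_apply (n q : ℝ) (z : ℂ) : ell n q z = (n : ℂ) * I * z.re - q * z.im := by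
  simp [ell]

lemma norm_exp_ell (n q : ℝ) (z : ℂ) : ‖cexp (ell n q z)‖ = Real.exp (-(q * z.im)) := by
  rw [ell_apply, Complex.norm_exp]
  congr 1
  simp

/-- the transform with the multiplier `m` -/
noncomputable def G (μ : Measure X) (c : X → ℂ) (N Q : X → ℝ) (m : X → ℂ) (z : ℂ) : ℂ :=
  ∫ t, c t * m t * cexp (ell (N t) (Q t) z) ∂μ

lemma pow_le_exp' (k : ℕ) {t : ℝ} (ht : 0 < t) {x : ℝ} (hx : 0 ≤ x) :
    (1 + x) ^ k ≤ (k.factorial / t ^ k * Real.exp t) * Real.exp (t * x) := by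
  have h := Real.pow_div_factorial_le_exp (t * (1 + x)) (by positivity) k
  have hk : (0 : ℝ) < k.factorial := by exact_mod_cast k.factorial_pos
  rw [div_le_iff₀ hk, mul_pow, mul_add, mul_one, Real.exp_add] at h
  have ht' : 0 < t ^ k := pow_pos ht k
  calc (1 + x) ^ k = (t ^ k * (1 + x) ^ k) / t ^ k := by field_simp
    _ ≤ (Real.exp t * Real.exp (t * x) * k.factorial) / t ^ k := by gcongr
    _ = _ := by ring

variable {μ : Measure X} {c : X → ℂ} {N Q : X → ℝ}

lemma Dat.Q_nonneg (D : Dat μ c N Q) (t : X) : 0 ≤ Q t := (abs_nonneg _).trans (D.hNQ t)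

lemma Dat.measurable_term (D : Dat μ c N Q) {m : X → ℂ} (hm : Measurable m) (z : ℂ) :
    Measurable fun t => c t * m t * cexp (ell (N t) (Q t) z) := by
  have h1 := D.hc
  have h2 := D.hN
  have h3 := D.hQ
  simp only [ell_apply]
  fun_prop

/-- the uniform bound -/
lemma Dat.bound (D : Dat μ c N Q) {m : X → ℂ} (hm : Adm Q m) {y : ℝ} (hy : 0 < y) :
    ∃ B : X → ℝ, Integrable B μ ∧ ∀ t, 0 ≤ B t ∧ ∀ z : ℂ, y ≤ z.im → ‖c t * m t * cexp (ell (N t) (Q t) z)‖ ≤ B t := by
  obtain ⟨-, C, k, hC, hk⟩ := hm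
  refine ⟨fun t => (C * (k.factorial / (y / 2) ^ k * Real.exp (y / 2))) * (‖c t‖ * Real.exp (-(y / 2 * Q t))),
    (D.hint (y / 2) (by positivity)).const_mul _, fun t => ⟨by positivity, fun z hz => ?_⟩⟩
  have hQ := D.Q_nonneg t
  rw [norm_mul, norm_mul, norm_exp_ell]
  have h1 := pow_le_exp' k (half_pos hy) hQ
  have h2 : Real.exp (-(Q t * z.im)) ≤ Real.exp (-(Q t * y)) := Real.exp_le_exp.2 (by nlinarith)
  calc ‖c t‖ * ‖m t‖ * Real.exp (-(Q t * z.im))
      ≤ ‖c t‖ * (C * ((k.factorial / (y / 2) ^ k * Real.exp (y / 2)) * Real.exp (y / 2 * Q t))) *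
        Real.exp (-(Q t * y)) := by
        gcongr
        exact (hk t).trans (mul_le_mul_of_nonneg_left h1 hC)
    _ = (C * (k.factorial / (y / 2) ^ k * Real.exp (y / 2))) * (‖c t‖ * (Real.exp (y / 2 * Q t) *
        Real.exp (-(Q t * y)))) := by ring
    _ = _ := by
        rw [← Real.exp_add]
        congr 3
        ring

lemma Dat.integrable (D : Dat μ c N Q) {m : X → ℂ} (hm : Adm Q m) {z : ℂ} (hz : 0 < z.im) :
    Integrable (fun t => c t * m t * cexp (ell (N t) (Q t) z)) μ := by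
  obtain ⟨B, hB, hb⟩ := D.bound hm hz
  exact hB.mono' (D.measurable_term hm.1 z).aestronglyMeasurable
    (Filter.Eventually.of_forall fun t => (hb t).2 z le_rfl)

lemma Dat.adm_N (D : Dat μ c N Q) {m : X → ℂ} (hm : Adm Q m) : Adm Q fun t => m t * ((N t : ℂ) * I) := by
  obtain ⟨h0, C, k, hC, hk⟩ := hm
  have h2 := D.hN
  refine ⟨by fun_prop, C, k + 1, hC, fun t => ?_⟩
  have hQ := D.Q_nonneg t
  rw [norm_mul, norm_mul, Complex.norm_I, mul_one, Complex.norm_real, pow_succ, ← mul_assoc]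
  exact mul_le_mul (hk t) ((D.hNQ t).trans (by linarith)) (norm_nonneg _) (by positivity)

lemma Dat.adm_Q (D : Dat μ c N Q) {m : X → ℂ} (hm : Adm Q m) : Adm Q fun t => m t * (-(Q t : ℂ)) := by
  obtain ⟨h0, C, k, hC, hk⟩ := hm
  have h2 := D.hQ
  refine ⟨by fun_prop, C, k + 1, hC, fun t => ?_⟩
  have hQ := D.Q_nonneg t
  rw [norm_mul, norm_neg, Complex.norm_real, pow_succ, ← mul_assoc]
  refine mul_le_mul (hk t) ?_ (norm_nonneg _) (by positivity)
  rw [Real.norm_of_nonneg hQ]
  linarith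

theorem Dat.hasFDerivAt (D : Dat μ c N Q) {m : X → ℂ} (hm : Adm Q m) {z : ℂ} (hz : 0 < z.im) :
    HasFDerivAt (G μ c N Q m) ((G μ c N Q (fun t => m t * ((N t : ℂ) * I)) z) • rho +
      (G μ c N Q (fun t => m t * (-(Q t : ℂ))) z) • iota) z := by
  have hmN := D.adm_N hm
  have hmQ := D.adm_Q hm
  obtain ⟨B1, hB1, hb1⟩ := D.bound hmN (half_pos hz)
  obtain ⟨B2, hB2, hb2⟩ := D.bound hmQ (half_pos hz)
  have hs : {w : ℂ | z.im / 2 < w.im} ∈ nhds z := by
    apply (isOpen_lt continuous_const Complex.continuous_im).mem_nhds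
    show z.im / 2 < z.im
    linarith
  have key := hasFDerivAt_integral_of_dominated_of_fderiv_le (μ := μ) (𝕜 := ℝ)
    (F := fun w t => c t * m t * cexp (ell (N t) (Q t) w)) (x₀ := z)
    (F' := fun w t => (c t * (m t * ((N t : ℂ) * I)) * cexp (ell (N t) (Q t) w)) • rho +
      (c t * (m t * (-(Q t : ℂ))) * cexp (ell (N t) (Q t) w)) • iota) (bound := fun t => B1 t + B2 t)
    hs (Filter.Eventually.of_forall fun w => (D.measurable_term hm.1 w).aestronglyMeasurable)
    (D.integrable hm hz)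
    (((D.measurable_term hmN.1 z).aestronglyMeasurable.smul_const rho).add
      ((D.measurable_term hmQ.1 z).aestronglyMeasurable.smul_const iota))
    (Filter.Eventually.of_forall fun t w hw => by
      refine (norm_add_le _ _).trans (add_le_add ?_ ?_)
      · rw [norm_smul]
        have h1 := (hb1 t).2 w (le_of_lt hw)
        calc _ ≤ B1 t * 1 := mul_le_mul h1 norm_rho_le (norm_nonneg _) (hb1 t).1
          _ = B1 t := mul_one _
      · rw [norm_smul]
        have h1 := (hb2 t).2 w (le_of_lt hw)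
        calc _ ≤ B2 t * 1 := mul_le_mul h1 norm_iota_le (norm_nonneg _) (hb2 t).1
          _ = B2 t := mul_one _)
    (hB1.add hB2)
    (Filter.Eventually.of_forall fun t w _ => by
      have h1 := ((ell (N t) (Q t)).hasFDerivAt (x := w)).cexp.const_mul (c t * m t)
      have e1 : (c t * (m t * ((N t : ℂ) * I)) * cexp (ell (N t) (Q t) w)) • rho +
          (c t * (m t * (-(Q t : ℂ))) * cexp (ell (N t) (Q t) w)) • iota =
          (c t * m t) • cexp (ell (N t) (Q t) w) • ell (N t) (Q t) := by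
        refine ContinuousLinearMap.ext fun v => ?_
        simp only [ContinuousLinearMap.add_apply, ContinuousLinearMap.smul_apply, rho_apply, iota_apply, smul_eq_mul,
          ell_apply]
        ring
      rw [e1]
      exact h1)
  have e : (G μ c N Q (fun t => m t * ((N t : ℂ) * I)) z) • rho + (G μ c N Q (fun t => m t * (-(Q t : ℂ))) z) • iota =
      ∫ t, ((c t * (m t * ((N t : ℂ) * I)) * cexp (ell (N t) (Q t) z)) • rho +
      (c t * (m t * (-(Q t : ℂ))) * cexp (ell (N t) (Q t) z)) • iota) ∂μ := by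
    rw [integral_add ((D.integrable hmN hz).smul_const rho) ((D.integrable hmQ hz).smul_const iota),
      integral_smul_const, integral_smul_const]
    rfl
  rw [e]
  exact key

lemma isOpen_UH : IsOpen {z : ℂ | 0 < z.im} := isOpen_lt continuous_const Complex.continuous_im

theorem Dat.contDiffOn_nat (D : Dat μ c N Q) (n : ℕ) : ∀ {m : X → ℂ}, Adm Q m →
    ContDiffOn ℝ n (G μ c N Q m) {z : ℂ | 0 < z.im} := by
  induction n with
  | zero =>
    intro m hm
    rw [Nat.cast_zero, contDiffOn_zero]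
    exact fun z hz => (D.hasFDerivAt hm hz).continuousAt.continuousWithinAt
  | succ n ih =>
    intro m hm
    rw [Nat.cast_succ, contDiffOn_succ_iff_fderiv_of_isOpen isOpen_UH]
    refine ⟨fun z hz => (D.hasFDerivAt hm hz).differentiableAt.differentiableWithinAt, fun h => ?_, ?_⟩
    · exact absurd h (by simp)
    · have h1 : ContDiffOn ℝ n (fun z => (G μ c N Q (fun t => m t * ((N t : ℂ) * I)) z) • rho +
          (G μ c N Q (fun t => m t * (-(Q t : ℂ))) z) • iota) {z : ℂ | 0 < z.im} :=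
        ((ih (D.adm_N hm)).smul contDiffOn_const).add ((ih (D.adm_Q hm)).smul contDiffOn_const)
      exact h1.congr fun z hz => (D.hasFDerivAt hm hz).fderiv

theorem Dat.contDiffOn (D : Dat μ c N Q) {m : X → ℂ} (hm : Adm Q m) :
    ContDiffOn ℝ ∞ (G μ c N Q m) {z : ℂ | 0 < z.im} :=
  contDiffOn_infty.2 fun n => D.contDiffOn_nat n hm

end Pool.Agent.J4.H31.MF.Sm
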