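import Mathlib
import Pool.Agent.J4.H31.MF.Bessel2
import Pool.Agent.J4.H31.MF.Smooth

/-! The differential equation of the Bessel function in integral form. -/

set_option autoImplicit false

open Complex MeasureTheory Filter

namespace Pool.Agent.J4.H31.MF

lemma cosh_sq_exp_bound {X : ℝ} (hX : 0 < X) : ∃ C : ℝ, 0 ≤ C ∧ ∀ v : ℝ,
    (1 + Real.cosh v) ^ 2 * Real.exp (-X * Real.cosh v) ≤ C * Real.exp (-(X / 2) * Real.cosh v) := by
  refine ⟨(Nat.factorial 2 / (X / 2) ^ 2 * Real.exp (X / 2)), by positivity, fun v => ?_⟩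
  have h := Sm.pow_le_exp' 2 (half_pos hX) (x := Real.cosh v) (Real.cosh_pos v).le
  calc (1 + Real.cosh v) ^ 2 * Real.exp (-X * Real.cosh v)
      ≤ ((Nat.factorial 2 / (X / 2) ^ 2 * Real.exp (X / 2)) * Real.exp (X / 2 * Real.cosh v)) *
        Real.exp (-X * Real.cosh v) := by gcongr
    _ = (Nat.factorial 2 / (X / 2) ^ 2 * Real.exp (X / 2)) * (Real.exp (X / 2 * Real.cosh v) *
        Real.exp (-X * Real.cosh v)) := by ring
    _ = _ := by
        rw [← Real.exp_add]
        congr 2
        ring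

lemma tendsto_exp_cosh {X : ℝ} (hX : 0 < X) : Tendsto (fun v : ℝ => Real.exp (-X * Real.cosh v)) atTop (nhds 0) := by
  apply Real.tendsto_exp_atBot.comp
  have h1 : Tendsto (fun v : ℝ => v ^ 2 / 8) atTop atTop := by
    apply Tendsto.atTop_div_const (by norm_num)
    exact tendsto_pow_atTop two_ne_zero
  have h2 : Tendsto Real.cosh atTop atTop := by
    refine tendsto_atTop_mono (fun v => ?_) h1
    have := cosh_lower v
    linarith
  exact h2.const_mul_atTop_of_neg (by linarith)

/-- the antiderivative -/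
noncomputable def anti (X v : ℝ) : ℝ :=
  Real.cos (nu * v) * (-X * Real.sinh v * Real.exp (-X * Real.cosh v)) +
    nu * Real.sin (nu * v) * Real.exp (-X * Real.cosh v)

lemma hasDerivAt_anti (X v : ℝ) : HasDerivAt (anti X)
    (Real.cos (nu * v) * ((X ^ 2 * Real.sinh v ^ 2 - X * Real.cosh v) * Real.exp (-X * Real.cosh v)) +
      nu ^ 2 * (Real.exp (-X * Real.cosh v) * Real.cos (nu * v))) v := by
  have h1 : HasDerivAt (fun v : ℝ => Real.cos (nu * v)) (-Real.sin (nu * v) * nu) v := by
    have h0 : HasDerivAt (fun v : ℝ => nu * v) nu v := by simpa using (hasDerivAt_id v).const_mul nu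
    exact h0.cos
  have h2 : HasDerivAt (fun v : ℝ => Real.sin (nu * v)) (Real.cos (nu * v) * nu) v := by
    have h0 : HasDerivAt (fun v : ℝ => nu * v) nu v := by simpa using (hasDerivAt_id v).const_mul nu
    exact h0.sin
  have h3 : HasDerivAt (fun v : ℝ => Real.exp (-X * Real.cosh v)) (Real.exp (-X * Real.cosh v) * (-X * Real.sinh v)) v := by
    exact ((Real.hasDerivAt_cosh v).const_mul (-X)).exp
  have h4 : HasDerivAt (fun v : ℝ => -X * Real.sinh v * Real.exp (-X * Real.cosh v))
      (-X * Real.cosh v * Real.exp (-X * Real.cosh v) +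
        -X * Real.sinh v * (Real.exp (-X * Real.cosh v) * (-X * Real.sinh v))) v :=
    ((Real.hasDerivAt_sinh v).const_mul (-X)).mul h3
  have h5 := (h1.mul h4).add ((h2.const_mul nu).mul h3)
  refine HasDerivAt.congr_deriv h5 ?_
  ring

lemma abs_sinh_le (v : ℝ) : |Real.sinh v| ≤ Real.cosh v := by
  rw [abs_le]
  have h1 := Real.cosh_sub_sinh v
  have h2 := Real.exp_pos (-v)
  have h3 := Real.cosh_add_sinh v
  have h4 := Real.exp_pos v
  constructor <;> linarith

lemma integrable_ode {X : ℝ} (hX : 0 < X) : Integrable fun v : ℝ =>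
    Real.cos (nu * v) * ((X ^ 2 * Real.sinh v ^ 2 - X * Real.cosh v) * Real.exp (-X * Real.cosh v)) := by
  obtain ⟨C, hC, hb⟩ := cosh_sq_exp_bound hX
  refine Integrable.mono' (((integrable_exp_cosh (half_pos hX)).const_mul ((X ^ 2 + X) * C)))
    (by apply Continuous.aestronglyMeasurable; fun_prop) (Filter.Eventually.of_forall fun v => ?_)
  rw [norm_mul, norm_mul, Real.norm_of_nonneg (Real.exp_pos _).le]
  have h1 : ‖X ^ 2 * Real.sinh v ^ 2 - X * Real.cosh v‖ ≤ (X ^ 2 + X) * (1 + Real.cosh v) ^ 2 := by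
    rw [Real.norm_eq_abs]
    have hc := Real.one_le_cosh v
    have hs : Real.sinh v ^ 2 ≤ Real.cosh v ^ 2 := by
      rw [← sq_abs (Real.sinh v)]
      have := abs_sinh_le v
      gcongr
    rw [abs_le]
    constructor <;> nlinarith [sq_nonneg (Real.sinh v), mul_pos hX hX, mul_nonneg (mul_pos hX hX).le (sub_nonneg.2 hs),
      mul_nonneg hX.le (sub_nonneg.2 hc)]
  calc ‖Real.cos (nu * v)‖ * (‖X ^ 2 * Real.sinh v ^ 2 - X * Real.cosh v‖ * Real.exp (-X * Real.cosh v))
      ≤ 1 * (((X ^ 2 + X) * (1 + Real.cosh v) ^ 2) * Real.exp (-X * Real.cosh v)) := by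
        gcongr
        exact Real.abs_cos_le_one _
    _ = (X ^ 2 + X) * ((1 + Real.cosh v) ^ 2 * Real.exp (-X * Real.cosh v)) := by ring
    _ ≤ (X ^ 2 + X) * (C * Real.exp (-(X / 2) * Real.cosh v)) :=
        mul_le_mul_of_nonneg_left (hb v) (by positivity)
    _ = _ := by ring

/-- the differential equation -/
theorem ode {X : ℝ} (hX : 0 < X) : ∫ v in Set.Ioi (0 : ℝ),
    Real.cos (nu * v) * ((X ^ 2 * Real.sinh v ^ 2 - X * Real.cosh v) * Real.exp (-X * Real.cosh v)) =
      -nu ^ 2 * KB X := by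
  obtain ⟨C, hC, hb⟩ := cosh_sq_exp_bound hX
  have h1 := (integrable_ode hX).integrableOn (s := Set.Ioi (0 : ℝ))
  have h2 : IntegrableOn (fun v : ℝ => nu ^ 2 * (Real.exp (-X * Real.cosh v) * Real.cos (nu * v))) (Set.Ioi 0) := by
    apply Integrable.integrableOn
    apply Integrable.const_mul
    refine (integrable_exp_cosh hX).mono' (by apply Continuous.aestronglyMeasurable; fun_prop)
      (Filter.Eventually.of_forall fun v => ?_)
    rw [norm_mul, Real.norm_of_nonneg (Real.exp_pos _).le]
    exact mul_le_of_le_one_right (Real.exp_pos _).le (Real.abs_cos_le_one _)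
  have h3 : Tendsto (anti X) atTop (nhds 0) := by
    have h4 : Tendsto (fun v : ℝ => (X + |nu|) * C * Real.exp (-(X / 2) * Real.cosh v)) atTop (nhds 0) := by
      have := (tendsto_exp_cosh (half_pos hX)).const_mul ((X + |nu|) * C)
      rwa [mul_zero] at this
    refine squeeze_zero_norm (fun v => ?_) h4
    unfold anti
    have hc := Real.one_le_cosh v
    have hE := Real.exp_pos (-X * Real.cosh v)
    have b1 : ‖Real.cos (nu * v) * (-X * Real.sinh v * Real.exp (-X * Real.cosh v))‖ ≤
        X * ((1 + Real.cosh v) ^ 2 * Real.exp (-X * Real.cosh v)) := by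
      rw [norm_mul, norm_mul, norm_mul, norm_neg, Real.norm_of_nonneg hX.le, Real.norm_of_nonneg hE.le]
      have := abs_sinh_le v
      calc ‖Real.cos (nu * v)‖ * (X * ‖Real.sinh v‖ * Real.exp (-X * Real.cosh v))
          ≤ 1 * (X * Real.cosh v * Real.exp (-X * Real.cosh v)) := by
            gcongr
            · exact Real.abs_cos_le_one _
            · exact this
        _ ≤ X * ((1 + Real.cosh v) ^ 2 * Real.exp (-X * Real.cosh v)) := by
            rw [one_mul, mul_assoc]
            gcongr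
            nlinarith
    have b2 : ‖nu * Real.sin (nu * v) * Real.exp (-X * Real.cosh v)‖ ≤
        |nu| * ((1 + Real.cosh v) ^ 2 * Real.exp (-X * Real.cosh v)) := by
      rw [norm_mul, norm_mul, Real.norm_of_nonneg hE.le]
      calc ‖nu‖ * ‖Real.sin (nu * v)‖ * Real.exp (-X * Real.cosh v)
          ≤ |nu| * 1 * Real.exp (-X * Real.cosh v) := by
            gcongr
            · exact le_rfl
            · exact Real.abs_sin_le_one _
        _ ≤ |nu| * ((1 + Real.cosh v) ^ 2 * Real.exp (-X * Real.cosh v)) := by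
            rw [mul_assoc]
            gcongr
            nlinarith
    calc _ ≤ X * ((1 + Real.cosh v) ^ 2 * Real.exp (-X * Real.cosh v)) +
        |nu| * ((1 + Real.cosh v) ^ 2 * Real.exp (-X * Real.cosh v)) := (norm_add_le _ _).trans (add_le_add b1 b2)
      _ = (X + |nu|) * ((1 + Real.cosh v) ^ 2 * Real.exp (-X * Real.cosh v)) := by ring
      _ ≤ (X + |nu|) * (C * Real.exp (-(X / 2) * Real.cosh v)) :=
          mul_le_mul_of_nonneg_left (hb v) (by positivity)
      _ = _ := by ring
  have h5 := integral_Ioi_of_hasDerivAt_of_tendsto (hasDerivAt_anti X 0).continuousAt.continuousWithinAt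
    (fun v _ => hasDerivAt_anti X v) (h1.add h2) h3
  rw [integral_add h1 h2, integral_const_mul] at h5
  have h6 : anti X 0 = 0 := by unfold anti; simp
  rw [h6, sub_zero] at h5
  unfold KB
  linarith

end Pool.Agent.J4.H31.MF
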