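import Mathlib
import Pool.Agent.J4.H31.MF.Ode
import Pool.Agent.J4.H31.MF.Coeff

/-! Smoothness of the Maass form and its Laplace equation. -/

set_option autoImplicit false

open Complex MeasureTheory Filter
open scoped ContDiff

namespace Pool.Agent.J4.H31.MF

/-- the measure -/
noncomputable def mm : Measure (Phi × ℝ) := Measure.count.prod (volume.restrict (Set.Ioi 0))

/-- the amplitude -/
noncomputable def cc (t : Phi × ℝ) : ℂ := psi t.1 * (Real.cos (nu * t.2) : ℂ)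
/-- the frequency -/
noncomputable def NN (t : Phi × ℝ) : ℝ := 2 * Real.pi * nm t.1
/-- the decay rate -/
noncomputable def QQ (t : Phi × ℝ) : ℝ := 2 * Real.pi * |(nm t.1 : ℝ)| * Real.cosh t.2

lemma measurable_of_sections {β : Type*} [MeasurableSpace β] {f : Phi × ℝ → β} (h : ∀ p : Phi, Measurable fun v => f (p, v)) :
    Measurable f := measurable_from_prod_countable_right h

lemma abs_nm_le_QQ (t : Phi × ℝ) : |(nm t.1 : ℝ)| ≤ QQ t := by
  unfold QQ
  have h1 := Real.one_le_cosh t.2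
  have h2 := Real.pi_gt_three
  have h3 := abs_nonneg (nm t.1 : ℝ)
  have h4 : (1 : ℝ) ≤ 2 * Real.pi * Real.cosh t.2 := by nlinarith
  nlinarith

lemma dat : Sm.Dat mm cc NN QQ where
  hc := measurable_of_sections fun p => by
    unfold cc
    apply Continuous.measurable
    fun_prop
  hN := measurable_of_sections fun p => by
    exact (measurable_const : Measurable fun _ : ℝ => 2 * Real.pi * (nm p : ℝ))
  hQ := measurable_of_sections fun p => by
    unfold QQ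
    apply Continuous.measurable
    fun_prop
  hNQ t := by
    unfold NN QQ
    rw [abs_mul, abs_of_pos (by positivity)]
    exact le_mul_of_one_le_right (by positivity) (Real.one_le_cosh _)
  hint y hy := by
    have h1 : Integrable (fun p : Phi => Real.exp (-(Real.pi * y * |(nm p : ℝ)|))) Measure.count := by
      rw [integrable_count_iff]
      refine (summable_phi_exp (t := Real.pi * y) (by positivity)).congr fun p => ?_
      rw [Real.norm_of_nonneg (Real.exp_pos _).le]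
    have h2 : Integrable (fun v : ℝ => Real.exp (-(Real.pi * y) * Real.cosh v)) (volume.restrict (Set.Ioi 0)) :=
      (integrable_exp_cosh (by positivity)).integrableOn
    have h3 := h1.mul_prod h2
    refine Integrable.mono' h3 ?_ (Eventually.of_forall fun t => ?_)
    · apply Measurable.aestronglyMeasurable
      refine measurable_of_sections fun p => ?_
      unfold cc QQ
      apply Continuous.measurable
      fun_prop
    · rw [Real.norm_of_nonneg (by positivity), ← Real.exp_add]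
      have hc : ‖cc t‖ ≤ 1 := by
        unfold cc
        rw [norm_mul, Complex.norm_real]
        calc _ ≤ 1 * 1 := mul_le_mul (norm_psi_le _) (Real.abs_cos_le_one _) (abs_nonneg _) zero_le_one
          _ = 1 := one_mul 1
      calc ‖cc t‖ * Real.exp (-(y * QQ t)) ≤ 1 * Real.exp (-(y * QQ t)) := by gcongr
        _ = Real.exp (-(y * QQ t)) := one_mul _
        _ ≤ _ := by
          apply Real.exp_le_exp.2
          unfold QQ
          have a1 := one_le_abs_nm t.1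
          have a2 := Real.one_le_cosh t.2
          have a3 : |(nm t.1 : ℝ)| + Real.cosh t.2 ≤ 2 * (|(nm t.1 : ℝ)| * Real.cosh t.2) := by nlinarith
          have a4 : 0 < Real.pi * y := by positivity
          nlinarith [mul_le_mul_of_nonneg_left a3 a4.le]

/-- the integrals as sums -/
lemma G_eq_tsum {m : Phi × ℝ → ℂ} (hm : Sm.Adm QQ m) {z : ℂ} (hz : 0 < z.im) :
    Sm.G mm cc NN QQ m z = ∑' p : Phi, ∫ v in Set.Ioi (0 : ℝ), cc (p, v) * m (p, v) *
      cexp (Sm.ell (NN (p, v)) (QQ (p, v)) z) := by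
  have h := dat.integrable hm hz
  unfold Sm.G mm
  rw [integral_prod _ h]
  have h2 := h.integral_prod_left
  rw [integral_countable h2]
  refine tsum_congr fun p => ?_
  simp [Measure.real]

lemma adm_w {w : ℤ → ℂ} (hw : PB w) : Sm.Adm QQ fun t => w (nm t.1) := by
  obtain ⟨C, k, hk⟩ := hw
  have hC : 0 ≤ C := by
    have := (norm_nonneg _).trans (hk 0)
    simpa using this
  refine ⟨measurable_of_sections fun p => (measurable_const : Measurable fun _ : ℝ => w (nm p)), C, k, hC,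
    fun t => (hk _).trans ?_⟩
  have := abs_nm_le_QQ t
  gcongr

lemma PB.mul_ex {w : ℤ → ℂ} (hw : PB w) (x : ℝ) : PB fun N => w N * ex x N := by
  obtain ⟨C, k, hk⟩ := hw
  refine ⟨C, k, fun N => ?_⟩
  rw [norm_mul, norm_ex, mul_one]
  exact hk N

theorem G_H {w : ℤ → ℂ} (hw : PB w) {z : ℂ} (hz : 0 < z.im) :
    Sm.G mm cc NN QQ (fun t => w (nm t.1)) z = H (fun N => w N * ex z.re N) z.im := by
  rw [G_eq_tsum (adm_w hw) hz, ← (hasSum_H (hw.mul_ex z.re) hz).tsum_eq]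
  refine tsum_congr fun p => ?_
  have e : ∀ v : ℝ, cc (p, v) * w (nm p) * cexp (Sm.ell (NN (p, v)) (QQ (p, v)) z) =
      (psi p * (w (nm p) * ex z.re (nm p))) *
        ((Real.exp (-(2 * Real.pi * |(nm p : ℝ)| * z.im) * Real.cosh v) * Real.cos (nu * v) : ℝ) : ℂ) := by
    intro v
    rw [Sm.ell_apply]
    unfold cc NN QQ ex
    have : cexp (((2 * Real.pi * (nm (p, v).1 : ℝ) : ℝ) : ℂ) * I * z.re -
        ((2 * Real.pi * |(nm (p, v).1 : ℝ)| * Real.cosh (p, v).2 : ℝ) : ℂ) * z.im) =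
        cexp (((2 * Real.pi * z.re * (nm p : ℝ) : ℝ) : ℂ) * I) *
        cexp (((-(2 * Real.pi * |(nm p : ℝ)| * z.im) * Real.cosh v : ℝ) : ℂ)) := by
      rw [← Complex.exp_add]
      congr 1
      push_cast
      ring
    rw [this, ofReal_mul (Real.exp _), ofReal_exp]
    ring
  simp only [e]
  rw [integral_const_mul, integral_complex_ofReal]
  rfl

/-- the Maass form as a transform -/
lemma f_eq_G {z : ℂ} (hz : 0 < z.im) :
    f z = (1 / 2 : ℂ) * ((Real.sqrt z.im : ℝ) * Sm.G mm cc NN QQ (fun _ => 1) z) := by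
  have h := G_H (w := fun _ => 1) (PB_one_bound 1 (by simp)) hz
  rw [h]
  unfold f
  simp only [one_mul]

lemma adm_one : Sm.Adm QQ fun _ => (1 : ℂ) :=
  ⟨measurable_const, 1, 0, zero_le_one, fun t => by simp⟩

/-- the Maass form is smooth -/
theorem f_smooth : ContDiffOn ℝ ∞ f {z : ℂ | 0 < z.im} := by
  have h1 : ContDiffOn ℝ ∞ (fun z : ℂ => (1 / 2 : ℂ) * ((Real.sqrt z.im : ℝ) * Sm.G mm cc NN QQ (fun _ => 1) z))
      {z : ℂ | 0 < z.im} := by
    apply ContDiffOn.mul contDiffOn_const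
    apply ContDiffOn.mul _ (dat.contDiffOn adm_one)
    have h2 : ContDiffOn ℝ ∞ (fun z : ℂ => Real.sqrt z.im) {z : ℂ | 0 < z.im} :=
      ContDiffOn.sqrt (imCLM.contDiff.contDiffOn) fun z hz => ne_of_gt hz
    exact ofRealCLM.contDiff.comp_contDiffOn h2
  exact h1.congr fun z hz => f_eq_G hz

lemma hasDerivAt_G_x {m : Phi × ℝ → ℂ} (hm : Sm.Adm QQ m) {z : ℂ} (hz : 0 < z.im) (t : ℝ) :
    HasDerivAt (fun t : ℝ => Sm.G mm cc NN QQ m (z + t))
      (Sm.G mm cc NN QQ (fun s => m s * ((NN s : ℂ) * I)) (z + t)) t := by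
  have hz' : 0 < (z + (t : ℂ)).im := by simpa using hz
  have h1 := dat.hasFDerivAt hm hz'
  have h2 : HasDerivAt (fun t : ℝ => z + (t : ℂ)) 1 t := (ofRealCLM.hasDerivAt (x := t)).const_add z
  have h3 := h1.comp_hasDerivAt t h2
  refine HasDerivAt.congr_deriv h3 ?_
  simp

lemma hasDerivAt_G_y {m : Phi × ℝ → ℂ} (hm : Sm.Adm QQ m) {z : ℂ} {t : ℝ} (hz : 0 < z.im + t) :
    HasDerivAt (fun t : ℝ => Sm.G mm cc NN QQ m (z + t * I))
      (Sm.G mm cc NN QQ (fun s => m s * (-(QQ s : ℂ))) (z + t * I)) t := by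
  have hz' : 0 < (z + (t : ℂ) * I).im := by simpa using hz
  have h1 := dat.hasFDerivAt hm hz'
  have h2 : HasDerivAt (fun t : ℝ => z + (t : ℂ) * I) (1 * I) t :=
    ((ofRealCLM.hasDerivAt (x := t)).mul_const I).const_add z
  have h3 := h1.comp_hasDerivAt t h2
  refine HasDerivAt.congr_deriv h3 ?_
  simp

/-- the identity behind the Laplace equation -/
lemma G_ode {z : ℂ} (hz : 0 < z.im) :
    (z.im : ℂ) ^ 2 * Sm.G mm cc NN QQ (fun s => 1 * ((NN s : ℂ) * I) * ((NN s : ℂ) * I)) z +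
      (z.im : ℂ) ^ 2 * Sm.G mm cc NN QQ (fun s => 1 * (-(QQ s : ℂ)) * (-(QQ s : ℂ))) z +
      (z.im : ℂ) * Sm.G mm cc NN QQ (fun s => 1 * (-(QQ s : ℂ))) z =
      -(nu : ℂ) ^ 2 * Sm.G mm cc NN QQ (fun _ => 1) z := by
  have a1 := dat.adm_N (dat.adm_N adm_one)
  have a2 := dat.adm_Q (dat.adm_Q adm_one)
  have a3 := dat.adm_Q adm_one
  have i1 := dat.integrable a1 hz
  have i2 := dat.integrable a2 hz
  have i3 := dat.integrable a3 hz
  have h0 : (z.im : ℂ) ^ 2 * Sm.G mm cc NN QQ (fun s => 1 * ((NN s : ℂ) * I) * ((NN s : ℂ) * I)) z +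
      (z.im : ℂ) ^ 2 * Sm.G mm cc NN QQ (fun s => 1 * (-(QQ s : ℂ)) * (-(QQ s : ℂ))) z +
      (z.im : ℂ) * Sm.G mm cc NN QQ (fun s => 1 * (-(QQ s : ℂ))) z =
      Sm.G mm cc NN QQ (fun s => (z.im : ℂ) ^ 2 * ((QQ s : ℂ) ^ 2 - (NN s : ℂ) ^ 2) - z.im * QQ s) z := by
    unfold Sm.G
    have j1 := i1.const_mul ((z.im : ℂ) ^ 2)
    have j2 := i2.const_mul ((z.im : ℂ) ^ 2)
    have j3 := i3.const_mul (z.im : ℂ)
    have j12 : Integrable (fun t => (z.im : ℂ) ^ 2 * (cc t * (1 * ((NN t : ℂ) * I) * ((NN t : ℂ) * I)) *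
        cexp (Sm.ell (NN t) (QQ t) z)) + (z.im : ℂ) ^ 2 * (cc t * (1 * (-(QQ t : ℂ)) * (-(QQ t : ℂ))) *
        cexp (Sm.ell (NN t) (QQ t) z))) mm := j1.add j2
    rw [← integral_const_mul, ← integral_const_mul, ← integral_const_mul, ← integral_add j1 j2, ← integral_add j12 j3]
    congr 1
    funext s
    linear_combination (cc s * cexp (Sm.ell (NN s) (QQ s) z) * (z.im : ℂ) ^ 2 * (NN s : ℂ) ^ 2) * I_sq
  have a4 : Sm.Adm QQ fun s => (z.im : ℂ) ^ 2 * ((QQ s : ℂ) ^ 2 - (NN s : ℂ) ^ 2) - z.im * QQ s := by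
    have hQ := dat.hQ
    have hN := dat.hN
    refine ⟨by fun_prop, 2 * z.im ^ 2 + z.im, 2, by positivity, fun s => ?_⟩
    have hq := dat.Q_nonneg s
    have hn := dat.hNQ s
    have e : (z.im : ℂ) ^ 2 * ((QQ s : ℂ) ^ 2 - (NN s : ℂ) ^ 2) - z.im * QQ s =
      ((z.im ^ 2 * (QQ s ^ 2 - NN s ^ 2) - z.im * QQ s : ℝ) : ℂ) := by push_cast; ring
    show ‖(z.im : ℂ) ^ 2 * ((QQ s : ℂ) ^ 2 - (NN s : ℂ) ^ 2) - z.im * QQ s‖ ≤ _
    rw [e, Complex.norm_real, Real.norm_eq_abs]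
    have hn2 : NN s ^ 2 ≤ QQ s ^ 2 := by
      rw [← sq_abs (NN s)]
      gcongr
    have hn3 := sq_nonneg (NN s)
    have hz2 : 0 < z.im ^ 2 := by positivity
    rw [abs_le]
    constructor
    · nlinarith [mul_nonneg hz2.le (sub_nonneg.2 hn2), mul_nonneg hz.le hq, mul_nonneg hz.le (mul_nonneg hq hq),
        mul_nonneg hz2.le hq, mul_nonneg hz2.le (mul_nonneg hq hq)]
    · nlinarith [mul_nonneg hz2.le hn3, mul_nonneg hz.le hq, mul_nonneg hz.le (mul_nonneg hq hq),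
        mul_nonneg hz2.le hq, mul_nonneg hz2.le (mul_nonneg hq hq)]
  rw [h0, G_eq_tsum a4 hz, G_eq_tsum adm_one hz, ← tsum_mul_left]
  refine tsum_congr fun p => ?_
  have hX : 0 < 2 * Real.pi * |(nm p : ℝ)| * z.im := by have := one_le_abs_nm p; positivity
  have e : ∀ v : ℝ, cexp (Sm.ell (NN (p, v)) (QQ (p, v)) z) = ex z.re (nm p) *
      (Real.exp (-(2 * Real.pi * |(nm p : ℝ)| * z.im) * Real.cosh v) : ℂ) := by
    intro v
    rw [Sm.ell_apply]
    unfold NN QQ ex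
    rw [ofReal_exp, ← Complex.exp_add]
    congr 1
    push_cast
    ring
  have e1 : ∀ v : ℝ, cc (p, v) * ((z.im : ℂ) ^ 2 * ((QQ (p, v) : ℂ) ^ 2 - (NN (p, v) : ℂ) ^ 2) - z.im * QQ (p, v)) *
      cexp (Sm.ell (NN (p, v)) (QQ (p, v)) z) = (psi p * ex z.re (nm p)) *
      ((Real.cos (nu * v) * (((2 * Real.pi * |(nm p : ℝ)| * z.im) ^ 2 * Real.sinh v ^ 2 -
        (2 * Real.pi * |(nm p : ℝ)| * z.im) * Real.cosh v) *
          Real.exp (-(2 * Real.pi * |(nm p : ℝ)| * z.im) * Real.cosh v)) : ℝ) : ℂ) := by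
    intro v
    rw [e]
    have e3 : (z.im : ℂ) ^ 2 * ((QQ (p, v) : ℂ) ^ 2 - (NN (p, v) : ℂ) ^ 2) - z.im * QQ (p, v) =
        (((2 * Real.pi * |(nm p : ℝ)| * z.im) ^ 2 * Real.sinh v ^ 2 -
        (2 * Real.pi * |(nm p : ℝ)| * z.im) * Real.cosh v : ℝ) : ℂ) := by
      have e4 : (z.im : ℂ) ^ 2 * ((QQ (p, v) : ℂ) ^ 2 - (NN (p, v) : ℂ) ^ 2) - z.im * QQ (p, v) =
        ((z.im ^ 2 * (QQ (p, v) ^ 2 - NN (p, v) ^ 2) - z.im * QQ (p, v) : ℝ) : ℂ) := by push_cast; ring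
      rw [e4]
      congr 1
      unfold NN QQ
      rw [Real.sinh_sq]
      have : |(nm p : ℝ)| ^ 2 = (nm p : ℝ) ^ 2 := sq_abs _
      linear_combination (4 * Real.pi ^ 2 * z.im ^ 2) * this
    rw [e3]
    unfold cc
    push_cast
    ring
  have e2 : ∀ v : ℝ, cc (p, v) * 1 * cexp (Sm.ell (NN (p, v)) (QQ (p, v)) z) = (psi p * ex z.re (nm p)) *
      ((Real.exp (-(2 * Real.pi * |(nm p : ℝ)| * z.im) * Real.cosh v) * Real.cos (nu * v) : ℝ) : ℂ) := by
    intro v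
    rw [e]
    unfold cc
    push_cast
    ring
  simp only [e1, e2]
  rw [integral_const_mul, integral_complex_ofReal, ode hX, integral_const_mul, integral_complex_ofReal]
  unfold KB
  push_cast
  ring

lemma hasDerivAt_f_x {z : ℂ} (hz : 0 < z.im) (t : ℝ) :
    HasDerivAt (fun t : ℝ => f (z + t)) ((1 / 2 : ℂ) * ((Real.sqrt z.im : ℝ) *
      Sm.G mm cc NN QQ (fun s => 1 * ((NN s : ℂ) * I)) (z + t))) t := by
  have e : (fun t : ℝ => f (z + t)) = fun t : ℝ => (1 / 2 : ℂ) * ((Real.sqrt z.im : ℝ) *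
      Sm.G mm cc NN QQ (fun _ => 1) (z + t)) := by
    funext t
    have h1 : (z + (t : ℂ)).im = z.im := by simp
    rw [f_eq_G (by rw [h1]; exact hz), h1]
  rw [e]
  exact ((hasDerivAt_G_x adm_one hz t).const_mul _).const_mul _

lemma f_xx {z : ℂ} (hz : 0 < z.im) : deriv (deriv (fun t : ℝ => f (z + t))) 0 = (1 / 2 : ℂ) * ((Real.sqrt z.im : ℝ) *
      Sm.G mm cc NN QQ (fun s => 1 * ((NN s : ℂ) * I) * ((NN s : ℂ) * I)) z) := by
  have e : deriv (fun t : ℝ => f (z + t)) = fun t : ℝ => (1 / 2 : ℂ) * ((Real.sqrt z.im : ℝ) *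
      Sm.G mm cc NN QQ (fun s => 1 * ((NN s : ℂ) * I)) (z + t)) := by
    funext t
    exact (hasDerivAt_f_x hz t).deriv
  rw [e, (((hasDerivAt_G_x (dat.adm_N adm_one) hz 0).const_mul _).const_mul _).deriv]
  simp

lemma f_yy {z : ℂ} (hz : 0 < z.im) : deriv (deriv (fun t : ℝ => f (z + t * I))) 0 = (1 / 2 : ℂ) * (
      -(1 / (4 * z.im * Real.sqrt z.im) : ℝ) * Sm.G mm cc NN QQ (fun _ => 1) z +
      (1 / Real.sqrt z.im : ℝ) * Sm.G mm cc NN QQ (fun s => 1 * (-(QQ s : ℂ))) z +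
      (Real.sqrt z.im : ℝ) * Sm.G mm cc NN QQ (fun s => 1 * (-(QQ s : ℂ)) * (-(QQ s : ℂ))) z) := by
  have hnb : ∀ᶠ t : ℝ in nhds 0, 0 < z.im + t := by
    have : ContinuousAt (fun t : ℝ => z.im + t) 0 := by fun_prop
    exact this.eventually (lt_mem_nhds (by simpa using hz))
  have hs1 : ∀ t : ℝ, 0 < z.im + t → HasDerivAt (fun t : ℝ => ((Real.sqrt (z.im + t) : ℝ) : ℂ))
      ((1 / (2 * Real.sqrt (z.im + t)) : ℝ) : ℂ) t := by
    intro t ht
    have h1 : HasDerivAt (fun t : ℝ => z.im + t) 1 t := (hasDerivAt_id t).const_add _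
    exact (h1.sqrt ht.ne').ofReal_comp
  have hs2 : HasDerivAt (fun t : ℝ => ((1 / (2 * Real.sqrt (z.im + t)) : ℝ) : ℂ))
      ((-(1 / (4 * z.im * Real.sqrt z.im)) : ℝ) : ℂ) 0 := by
    have h1 : HasDerivAt (fun t : ℝ => z.im + t) 1 0 := (hasDerivAt_id 0).const_add _
    have hz0 : z.im + 0 ≠ 0 := by simpa using hz.ne'
    have h2 := (h1.sqrt hz0).const_mul 2
    have hsq : Real.sqrt z.im ≠ 0 := (Real.sqrt_pos.2 hz).ne'
    have h3 := (h2.inv (by rw [add_zero]; positivity)).ofReal_comp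
    have e : (fun t : ℝ => ((1 / (2 * Real.sqrt (z.im + t)) : ℝ) : ℂ)) =
        fun t : ℝ => (((2 * Real.sqrt (z.im + t))⁻¹ : ℝ) : ℂ) := by
      funext t
      rw [one_div]
    rw [e]
    refine HasDerivAt.congr_deriv h3 ?_
    congr 1
    rw [add_zero]
    have h4 : Real.sqrt z.im ^ 2 = z.im := Real.sq_sqrt hz.le
    field_simp
    linear_combination 4 * h4
  have e0 : ∀ t : ℝ, 0 < z.im + t → f (z + t * I) = (1 / 2 : ℂ) * ((Real.sqrt (z.im + t) : ℝ) *
      Sm.G mm cc NN QQ (fun _ => 1) (z + t * I)) := by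
    intro t ht
    have h1 : (z + (t : ℂ) * I).im = z.im + t := by simp
    rw [f_eq_G (by rw [h1]; exact ht), h1]
  have e1 : ∀ t : ℝ, 0 < z.im + t → HasDerivAt (fun t : ℝ => f (z + t * I)) ((1 / 2 : ℂ) * (
      ((1 / (2 * Real.sqrt (z.im + t)) : ℝ) : ℂ) * Sm.G mm cc NN QQ (fun _ => 1) (z + t * I) +
      (Real.sqrt (z.im + t) : ℝ) * Sm.G mm cc NN QQ (fun s => 1 * (-(QQ s : ℂ))) (z + t * I))) t := by
    intro t ht
    have h1 := ((hs1 t ht).mul (hasDerivAt_G_y adm_one ht)).const_mul (1 / 2 : ℂ)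
    refine h1.congr_of_eventuallyEq ?_
    have hnb' : ∀ᶠ s : ℝ in nhds t, 0 < z.im + s := by
      have : ContinuousAt (fun t : ℝ => z.im + t) t := by fun_prop
      exact this.eventually (lt_mem_nhds ht)
    filter_upwards [hnb'] with s hs
    exact e0 s hs
  have e2 : deriv (fun t : ℝ => f (z + t * I)) =ᶠ[nhds 0] fun t : ℝ => (1 / 2 : ℂ) * (
      ((1 / (2 * Real.sqrt (z.im + t)) : ℝ) : ℂ) * Sm.G mm cc NN QQ (fun _ => 1) (z + t * I) +
      (Real.sqrt (z.im + t) : ℝ) * Sm.G mm cc NN QQ (fun s => 1 * (-(QQ s : ℂ))) (z + t * I)) := by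
    filter_upwards [hnb] with t ht
    exact (e1 t ht).deriv
  rw [e2.deriv_eq]
  have hz0 : 0 < z.im + 0 := by simpa using hz
  have h3 := ((hs2.mul (hasDerivAt_G_y adm_one hz0)).add ((hs1 0 hz0).mul
    (hasDerivAt_G_y (dat.adm_Q adm_one) hz0))).const_mul (1 / 2 : ℂ)
  refine h3.deriv.trans ?_
  simp only [add_zero, ofReal_zero, zero_mul]
  have hsq : ((Real.sqrt z.im : ℝ) : ℂ) ≠ 0 := by
    have : Real.sqrt z.im ≠ 0 := (Real.sqrt_pos.2 hz).ne'
    exact_mod_cast this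
  push_cast
  field_simp
  ring

/-- the Laplace equation -/
theorem f_laplace {z : ℂ} (hz : 0 < z.im) :
    -(z.im : ℂ) ^ 2 * (deriv (deriv (fun t : ℝ => f (z + t))) 0 + deriv (deriv (fun t : ℝ => f (z + t * I))) 0) =
      (1 / 4 + (nu : ℂ) ^ 2) * f z := by
  rw [f_xx hz, f_yy hz, f_eq_G hz]
  have h := G_ode hz
  have hsq : ((Real.sqrt z.im : ℝ) : ℂ) ≠ 0 := by
    have : Real.sqrt z.im ≠ 0 := (Real.sqrt_pos.2 hz).ne'
    exact_mod_cast this
  have hs2 : ((Real.sqrt z.im : ℝ) : ℂ) ^ 2 = (z.im : ℂ) := by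
    rw [← ofReal_pow, Real.sq_sqrt hz.le]
  have hzc : (z.im : ℂ) ≠ 0 := by exact_mod_cast hz.ne'
  push_cast
  set A := Sm.G mm cc NN QQ (fun s => 1 * ((NN s : ℂ) * I) * ((NN s : ℂ) * I)) z
  set B := Sm.G mm cc NN QQ (fun s => 1 * (-(QQ s : ℂ)) * (-(QQ s : ℂ))) z
  set D := Sm.G mm cc NN QQ (fun s => 1 * (-(QQ s : ℂ))) z
  set E := Sm.G mm cc NN QQ (fun _ => 1) z
  have h1 : (1 : ℂ) / (4 * z.im * Real.sqrt z.im) = Real.sqrt z.im / (4 * (z.im : ℂ) ^ 2) := by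
    rw [div_eq_div_iff (by simp [hzc, hsq]) (by simp [hzc])]
    linear_combination (-4 * (z.im : ℂ)) * hs2
  have h2 : (1 : ℂ) / Real.sqrt z.im = Real.sqrt z.im / (z.im : ℂ) := by
    rw [div_eq_div_iff hsq hzc]
    linear_combination -hs2
  rw [h1, h2]
  field_simp
  linear_combination (-4 : ℂ) * h

end Pool.Agent.J4.H31.MF
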