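import Mathlib
import Pool.Agent.J4.H31.MF.Laplace
import Pool.Agent.J4.H31.MF.Form

/-! The functional equation of the quadratic twists. -/

set_option autoImplicit false

open Complex MeasureTheory Filter
open scoped MatrixGroups

namespace Pool.Agent.J4.H31.MF

lemma ex_intCast (m : ℤ) (N : ℤ) : ex (m : ℝ) N = 1 := by
  unfold ex
  have : (((2 * Real.pi * (m : ℝ) * N : ℝ) : ℂ) * I) = ((m * N : ℤ) : ℂ) * (2 * Real.pi * I) := by
    push_cast; ring
  rw [this]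
  exact Complex.exp_int_mul_two_pi_mul_I _

lemma f_add_int (z : ℂ) (m : ℤ) : f (z + m) = f z := by
  unfold f
  have h1 : (z + (m : ℂ)).im = z.im := by simp
  have h2 : (z + (m : ℂ)).re = z.re + m := by simp
  rw [h1, h2]
  congr 2
  congr 1
  funext N
  rw [ex_add, ex_intCast, mul_one]

/-- the basic relation -/
lemma f_mat {r : ℕ} (hr : 0 < r) {u v : ℤ} (huv : (r : ℤ) ∣ 25 * u * v + 1) {z : ℂ} (hz : 0 < z.im) :
    f (-1 / (25 * r ^ 2 * z) + u / r) = -f (z + v / r) := by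
  obtain ⟨a, ha⟩ := huv
  have hrc : (r : ℂ) ≠ 0 := by exact_mod_cast hr.ne'
  have hz0 : z ≠ 0 := by
    rintro rfl
    simp at hz
  set g : SL(2, ℤ) := ⟨!![a, u; 25 * v, r], by
    rw [Matrix.det_fin_two_of]
    linear_combination -ha⟩ with hg
  have hzv : 0 < (z + v / r).im := by
    have : ((v : ℂ) / r).im = 0 := by
      rw [show ((v : ℂ) / r) = ((v / r : ℝ) : ℂ) by push_cast; rfl, ofReal_im]
    rw [add_im, this, add_zero]
    exact hz
  have hw : 0 < (-1 / (25 * (z + v / r))).im := by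
    apply im_neg_inv_pos
    have : (25 * (z + v / r)).im = 25 * (z + v / r).im := by
      rw [show (25 : ℂ) = ((25 : ℝ) : ℂ) by norm_num, im_ofReal_mul]
    rw [this]
    positivity
  have h1 := f_invariant g (by simp [hg]) hw
  rw [f_fricke hzv] at h1
  rw [← h1]
  congr 1
  unfold moeb
  simp only [hg, Matrix.SpecialLinearGroup.coe_mk, Matrix.of_apply, Matrix.cons_val', Matrix.cons_val_zero,
    Matrix.cons_val_one, Matrix.cons_val_fin_one]
  have hac : (25 * (u : ℂ) * v + 1) = r * a := by exact_mod_cast ha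
  have h2 : (z + v / r : ℂ) = (r * z + v) / r := by field_simp
  have h3 : (r * z + v : ℂ) ≠ 0 := by
    intro h
    rw [h2, h] at hzv
    simp at hzv
  push_cast
  rw [h2]
  have h4 : (25 * (v : ℂ) * (-1 / (25 * ((r * z + v) / r))) + r) = r ^ 2 * z / (r * z + v) := by
    field_simp
    ring
  rw [h4]
  field_simp
  linear_combination (-1 : ℂ) * hac

/-- the twisted form -/
noncomputable def F {r : ℕ} (χ : DirichletCharacter ℂ r) [NeZero r] (z : ℂ) : ℂ :=
  ∑ u : ZMod r, χ u * f (z + (u.val : ℂ) / r)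

lemma sum_units {r : ℕ} [NeZero r] (χ : DirichletCharacter ℂ r) (g : ZMod r → ℂ) :
    ∑ u : ZMod r, χ u * g u = ∑ u : (ZMod r)ˣ, χ u * g u := by
  symm
  refine Fintype.sum_of_injective (fun u : (ZMod r)ˣ => (u : ZMod r)) Units.val_injective _ _ (fun i hi => ?_)
    (fun i => rfl)
  rw [χ.map_nonunit, zero_mul]
  intro h
  exact hi ⟨h.unit, rfl⟩

/-- quadratic characters take the values `±1` on units -/
lemma chi_inv {r : ℕ} {χ : DirichletCharacter ℂ r} (hχ : χ ^ 2 = 1) (u : (ZMod r)ˣ) : χ u * χ u = 1 := by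
  rw [← sq, ← MulChar.pow_apply' χ two_ne_zero, hχ, MulChar.one_apply_coe]

theorem F_fe {r : ℕ} [NeZero r] {χ : DirichletCharacter ℂ r} (hχ : χ ^ 2 = 1) (hr : Nat.Coprime 5 r) {z : ℂ}
    (hz : 0 < z.im) : F χ (-1 / (25 * r ^ 2 * z)) = -χ (-1) * F χ z := by
  have hr0 : 0 < r := Nat.pos_of_ne_zero (NeZero.ne r)
  have h25 : Nat.Coprime 25 r := by
    have : (25 : ℕ) = 5 ^ 2 := by norm_num
    rw [this]
    exact Nat.Coprime.pow_left 2 hr
  set a : (ZMod r)ˣ := ZMod.unitOfCoprime 25 h25 with ha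
  have hac : (a : ZMod r) = 25 := by rw [ha, ZMod.coe_unitOfCoprime]; norm_num
  unfold F
  rw [sum_units χ (fun u => f (-1 / (25 * r ^ 2 * z) + (u.val : ℂ) / r)),
    sum_units χ (fun u => f (z + (u.val : ℂ) / r)), Finset.mul_sum]
  -- the involution
  set e : (ZMod r)ˣ ≃ (ZMod r)ˣ := (Equiv.inv _).trans (Equiv.mulLeft (-a⁻¹)) with he
  rw [← e.sum_comp]
  refine Finset.sum_congr rfl fun v _ => ?_
  have hev : (e v : (ZMod r)ˣ) = -a⁻¹ * v⁻¹ := rfl
  have h1 : (25 : ZMod r) * (e v : (ZMod r)ˣ) * v = -1 := by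
    have : a * (e v) * v = -1 := by
      rw [hev]
      rw [mul_assoc, mul_assoc, inv_mul_cancel, mul_one, mul_neg, mul_inv_cancel]
    have h2 := congrArg (fun u : (ZMod r)ˣ => (u : ZMod r)) this
    simp only [Units.val_mul, Units.val_neg, Units.val_one, hac] at h2
    exact h2
  have h2 : (r : ℤ) ∣ 25 * (((e v : (ZMod r)ˣ) : ZMod r).val : ℤ) * ((v : ZMod r).val : ℤ) + 1 := by
    rw [← ZMod.intCast_zmod_eq_zero_iff_dvd]
    push_cast
    simp only [ZMod.natCast_val, ZMod.cast_id', id]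
    rw [h1]
    ring
  have h3 := f_mat hr0 h2 hz
  have h4 : χ (e v : (ZMod r)ˣ) = χ (-1) * χ v := by
    have h5 : χ ((25 : ZMod r) * (e v : (ZMod r)ˣ) * v) = χ (-1) := by rw [h1]
    rw [map_mul, map_mul] at h5
    have h6 : χ (25 : ZMod r) = 1 := by
      have h7 : (25 : ZMod r) = ((ZMod.unitOfCoprime 5 hr : (ZMod r)ˣ) : ZMod r) * (ZMod.unitOfCoprime 5 hr : (ZMod r)ˣ) := by
        rw [ZMod.coe_unitOfCoprime]
        norm_num
      rw [h7, map_mul, chi_inv hχ]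
    rw [h6, one_mul] at h5
    have h8 := chi_inv hχ v
    calc χ (e v : (ZMod r)ˣ) = χ (e v : (ZMod r)ˣ) * (χ v * χ v) := by rw [h8, mul_one]
      _ = (χ (e v : (ZMod r)ˣ) * χ v) * χ v := by ring
      _ = _ := by rw [h5]
  push_cast at h3
  rw [h3, h4]
  ring

/-! ### Gauss sums -/

/-- the additive twist by `χ` in terms of the Gauss sum -/
lemma sum_chi_ex {r : ℕ} [NeZero r] {χ : DirichletCharacter ℂ r} (hχ : χ ^ 2 = 1) (hp : χ.IsPrimitive) (x : ℝ) (N : ℤ) :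
    ∑ u : ZMod r, χ u * ex (x + (u.val : ℝ) / r) N = gaussSum χ (ZMod.stdAddChar (N := r)) * (χ N * ex x N) := by
  have hrc : (r : ℂ) ≠ 0 := by exact_mod_cast (NeZero.ne r)
  have h1 := gaussSum_mulShift_of_isPrimitive (ZMod.stdAddChar (N := r)) hp (N : ZMod r)
  have h2 : χ⁻¹ = χ := by
    rw [inv_eq_iff_mul_eq_one, ← sq, hχ]
  rw [h2] at h1
  have h3 : ∀ u : ZMod r, ex (x + (u.val : ℝ) / r) N = ex x N * ZMod.stdAddChar ((N : ZMod r) * u) := by
    intro u
    rw [ex_add]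
    congr 1
    have h4 : ((N : ZMod r) * u) = ((N * (u.val : ℤ) : ℤ) : ZMod r) := by
      push_cast
      simp only [ZMod.natCast_val, ZMod.cast_id', id]
    rw [h4, ZMod.stdAddChar_coe]
    unfold ex
    congr 1
    push_cast
    ring
  have h5 : gaussSum χ ((ZMod.stdAddChar (N := r)).mulShift (N : ZMod r)) =
      ∑ u : ZMod r, χ u * ZMod.stdAddChar ((N : ZMod r) * u) := rfl
  rw [h5] at h1
  calc ∑ u : ZMod r, χ u * ex (x + (u.val : ℝ) / r) N = ex x N * ∑ u : ZMod r, χ u * ZMod.stdAddChar ((N : ZMod r) * u) := by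
        rw [Finset.mul_sum]
        refine Finset.sum_congr rfl fun u _ => ?_
        rw [h3]
        ring
    _ = _ := by rw [h1]; ring

lemma gauss_ne_zero {r : ℕ} [NeZero r] {χ : DirichletCharacter ℂ r} (hp : χ.IsPrimitive) :
    gaussSum χ (ZMod.stdAddChar (N := r)) ≠ 0 := by
  intro h
  have h1 : ∀ a : ZMod r, ∑ u : ZMod r, χ u * ZMod.stdAddChar (a * u) = 0 := by
    intro a
    have := gaussSum_mulShift_of_isPrimitive (ZMod.stdAddChar (N := r)) hp a
    rw [h, mul_zero] at this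
    exact this
  have h2 : ZMod.dft (fun u : ZMod r => χ u) = 0 := by
    funext k
    rw [ZMod.dft_apply]
    have := h1 (-k)
    simp only [smul_eq_mul, Pi.zero_apply]
    rw [← this]
    refine Finset.sum_congr rfl fun u _ => ?_
    rw [mul_comm]
    congr 2
    ring
  have h3 : (fun u : ZMod r => χ u) = 0 := by
    have := ZMod.dft.injective (a₁ := fun u : ZMod r => χ u) (a₂ := 0) (by rw [h2, map_zero])
    exact this
  have h4 := congrFun h3 1
  simp at h4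

lemma PB_chi {r : ℕ} (χ : DirichletCharacter ℂ r) : PB fun N : ℤ => χ N :=
  PB_one_bound 1 fun _ => χ.norm_le_one _

/-- the twisted form in terms of `H` -/
lemma F_eq_H {r : ℕ} [NeZero r] {χ : DirichletCharacter ℂ r} (hχ : χ ^ 2 = 1) (hp : χ.IsPrimitive) {z : ℂ}
    (hz : 0 < z.im) : F χ z = gaussSum χ (ZMod.stdAddChar (N := r)) * ((1 / 2 : ℂ) * ((Real.sqrt z.im : ℝ) *
      H (fun N => χ N * ex z.re N) z.im)) := by
  unfold F f
  have him : ∀ u : ZMod r, (z + (u.val : ℂ) / r).im = z.im := by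
    intro u
    rw [show ((u.val : ℂ) / r) = (((u.val : ℝ) / r : ℝ) : ℂ) by push_cast; rfl]
    simp
  have hre : ∀ u : ZMod r, (z + (u.val : ℂ) / r).re = z.re + (u.val : ℝ) / r := by
    intro u
    rw [show ((u.val : ℂ) / r) = (((u.val : ℝ) / r : ℝ) : ℂ) by push_cast; rfl]
    simp
  simp only [him, hre]
  have h1 : ∀ u : ZMod r, χ u * ((1 / 2 : ℂ) * ((Real.sqrt z.im : ℝ) * H (ex (z.re + (u.val : ℝ) / r)) z.im)) =
      ((1 / 2 : ℂ) * (Real.sqrt z.im : ℝ)) * H (fun N => χ u * ex (z.re + (u.val : ℝ) / r) N) z.im := by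
    intro u
    rw [H_smul]
    ring
  rw [Finset.sum_congr rfl fun u _ => h1 u, ← Finset.mul_sum, ← H_sum _ _ _ hz]
  · simp only [sum_chi_ex hχ hp]
    rw [H_smul]
    ring
  · intro u
    refine PB_one_bound 1 fun N => ?_
    rw [norm_mul, norm_ex, mul_one]
    exact χ.norm_le_one _

/-- the functional equation, even case -/
theorem H_fe_even {r : ℕ} [NeZero r] {χ : DirichletCharacter ℂ r} (hχ : χ ^ 2 = 1) (hp : χ.IsPrimitive)
    (hr : Nat.Coprime 5 r) (he : χ (-1) = 1) {y : ℝ} (hy : 0 < y) :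
    (Real.sqrt (1 / (25 * r ^ 2 * y)) : ℂ) * H (fun N => χ N) (1 / (25 * r ^ 2 * y)) =
      -((Real.sqrt y : ℂ) * H (fun N => χ N) y) := by
  have hr0 : (0 : ℝ) < r := by exact_mod_cast Nat.pos_of_ne_zero (NeZero.ne r)
  have hy' : 0 < 1 / (25 * r ^ 2 * y) := by positivity
  have hz : 0 < ((y : ℂ) * I).im := by simpa using hy
  have h1 := F_fe hχ hr hz
  have e1 : -1 / (25 * (r : ℂ) ^ 2 * ((y : ℂ) * I)) = ((1 / (25 * r ^ 2 * y) : ℝ) : ℂ) * I := by
    have hyc : (y : ℂ) ≠ 0 := by exact_mod_cast hy.ne'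
    have hrc : (r : ℂ) ≠ 0 := by exact_mod_cast hr0.ne'
    push_cast
    field_simp
    rw [I_sq]
  have e3' : ∀ t : ℝ, ((t : ℂ) * I).im = t := fun t => by simp
  have hz' : 0 < (((1 / (25 * r ^ 2 * y) : ℝ) : ℂ) * I).im := by rw [e3']; exact hy'
  rw [e1, he, F_eq_H hχ hp hz', F_eq_H hχ hp hz] at h1
  have e2 : ∀ t : ℝ, ((t : ℂ) * I).re = 0 := fun t => by simp
  have e3 : ∀ t : ℝ, ((t : ℂ) * I).im = t := fun t => by simp
  have e4 : (fun N : ℤ => χ N * ex 0 N) = fun N : ℤ => χ N := by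
    funext N
    have : ex 0 N = 1 := by unfold ex; simp
    rw [this, mul_one]
  rw [e2, e2, e3, e3, e4] at h1
  have hG := gauss_ne_zero hp
  apply mul_left_cancel₀ (mul_ne_zero hG (by norm_num : (1 / 2 : ℂ) ≠ 0))
  linear_combination h1

lemma f_differentiableAt {z : ℂ} (hz : 0 < z.im) : DifferentiableAt ℝ f z :=
  (f_smooth.differentiableOn (by simp)).differentiableAt (Sm.isOpen_UH.mem_nhds hz)

lemma fderiv_f_one {z : ℂ} (hz : 0 < z.im) :
    fderiv ℝ f z 1 = (1 / 2 : ℂ) * ((Real.sqrt z.im : ℝ) * H (fun N => (2 * Real.pi * N * I) * ex z.re N) z.im) := by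
  have h1 := (f_differentiableAt hz).hasFDerivAt
  have h2 : HasDerivAt (fun t : ℝ => z + (t : ℂ)) 1 0 := (ofRealCLM.hasDerivAt (x := (0 : ℝ))).const_add z
  have h1' : HasFDerivAt f (fderiv ℝ f z) (z + ((0 : ℝ) : ℂ)) := by simpa using h1
  have h3 := h1'.comp_hasDerivAt (0 : ℝ) h2
  have h4 := hasDerivAt_f_x hz 0
  have h5 := h3.unique h4
  rw [h5]
  have hw : PB fun N : ℤ => (2 * Real.pi * N * I : ℂ) := by
    refine ⟨2 * Real.pi, 1, fun N => ?_⟩
    rw [norm_mul, norm_mul, norm_mul, Complex.norm_I, mul_one, Complex.norm_real, Complex.norm_two, pow_one,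
      Real.norm_of_nonneg Real.pi_pos.le, Complex.norm_intCast]
    have := Real.pi_pos
    gcongr
    linarith [abs_nonneg (N : ℝ)]
  have h6 := G_H hw hz
  rw [← h6]
  congr 2
  have h7 : z + ((0 : ℝ) : ℂ) = z := by simp
  rw [h7]
  congr 1
  funext s
  unfold NN
  push_cast
  ring

/-- the `x`-derivative of the twisted form on the imaginary axis -/
lemma hasDerivAt_F {r : ℕ} [NeZero r] {χ : DirichletCharacter ℂ r} (hχ : χ ^ 2 = 1) (hp : χ.IsPrimitive) {y : ℝ}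
    (hy : 0 < y) {w : ℝ → ℂ} {w' : ℝ} (hw : HasDerivAt w (w' : ℂ) 0) (hw0 : w 0 = y * I) :
    HasDerivAt (fun t => F χ (w t)) (w' * (gaussSum χ (ZMod.stdAddChar (N := r)) * ((1 / 2 : ℂ) * ((Real.sqrt y : ℝ) *
      (2 * Real.pi * I * H (fun N => N * χ N) y))))) 0 := by
  have him : ∀ u : ZMod r, (y * I + (u.val : ℂ) / r).im = y := by
    intro u
    rw [show ((u.val : ℂ) / r) = (((u.val : ℝ) / r : ℝ) : ℂ) by push_cast; rfl]
    simp
  have hre : ∀ u : ZMod r, (y * I + (u.val : ℂ) / r).re = (u.val : ℝ) / r := by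
    intro u
    rw [show ((u.val : ℂ) / r) = (((u.val : ℝ) / r : ℝ) : ℂ) by push_cast; rfl]
    simp
  have h1 : ∀ u : ZMod r, HasDerivAt (fun t => χ u * f (w t + (u.val : ℂ) / r))
      (χ u * (w' * ((1 / 2 : ℂ) * ((Real.sqrt y : ℝ) *
        H (fun N => (2 * Real.pi * N * I) * ex ((u.val : ℝ) / r) N) y)))) 0 := by
    intro u
    apply HasDerivAt.const_mul
    have hz : 0 < (y * I + (u.val : ℂ) / r).im := by rw [him]; exact hy
    have h2 := (f_differentiableAt hz).hasFDerivAt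
    have h3 : HasDerivAt (fun t => w t + (u.val : ℂ) / r) (w' : ℂ) 0 := hw.add_const _
    have h2' : HasFDerivAt f (fderiv ℝ f (y * I + (u.val : ℂ) / r)) (w 0 + (u.val : ℂ) / r) := by rw [hw0]; exact h2
    have h4 := h2'.comp_hasDerivAt (0 : ℝ) h3
    refine HasDerivAt.congr_deriv h4 ?_
    have h5 : (w' : ℂ) = w' • (1 : ℂ) := by simp
    rw [h5, map_smul, fderiv_f_one hz, him, hre]
    simp
  have h6 := HasDerivAt.fun_sum (u := Finset.univ) fun u _ => h1 u
  unfold F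
  refine HasDerivAt.congr_deriv h6 ?_
  have h7 : ∀ u : ZMod r, χ u * (w' * ((1 / 2 : ℂ) * ((Real.sqrt y : ℝ) *
        H (fun N => (2 * Real.pi * N * I) * ex ((u.val : ℝ) / r) N) y))) =
      (w' * ((1 / 2 : ℂ) * (Real.sqrt y : ℝ))) * H (fun N => χ u * ((2 * Real.pi * N * I) * ex ((u.val : ℝ) / r) N)) y := by
    intro u
    rw [H_smul]
    ring
  have hPB : ∀ u : ZMod r, PB fun N : ℤ => χ u * ((2 * Real.pi * N * I) * ex ((u.val : ℝ) / r) N) := by
    intro u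
    refine ⟨2 * Real.pi, 1, fun N => ?_⟩
    rw [norm_mul, norm_mul, norm_ex, mul_one, norm_mul, norm_mul, norm_mul, Complex.norm_I, mul_one, Complex.norm_real,
      Complex.norm_two, pow_one, Real.norm_of_nonneg Real.pi_pos.le, Complex.norm_intCast]
    have h8 := Real.pi_pos
    have h9 := χ.norm_le_one u
    have h10 : (0 : ℝ) ≤ 2 * Real.pi * |(N : ℝ)| := by positivity
    calc ‖χ u‖ * (2 * Real.pi * |(N : ℝ)|) ≤ 1 * (2 * Real.pi * |(N : ℝ)|) := by gcongr
      _ ≤ _ := by linarith [mul_pos two_pos h8]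
  rw [Finset.sum_congr rfl fun u _ => h7 u, ← Finset.mul_sum, ← H_sum _ _ hPB hy]
  have h8 : (fun N : ℤ => ∑ u : ZMod r, χ u * ((2 * Real.pi * N * I) * ex ((u.val : ℝ) / r) N)) =
      fun N : ℤ => (gaussSum χ (ZMod.stdAddChar (N := r)) * (2 * Real.pi * I)) * (N * χ N) := by
    funext N
    have h9 := sum_chi_ex hχ hp 0 N
    simp only [zero_add] at h9
    have h10 : ex 0 N = 1 := by unfold ex; simp
    rw [h10, mul_one] at h9
    have h11 : ∀ u : ZMod r, χ u * ((2 * Real.pi * N * I) * ex ((u.val : ℝ) / r) N) =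
        (2 * Real.pi * N * I) * (χ u * ex ((u.val : ℝ) / r) N) := fun u => by ring
    rw [Finset.sum_congr rfl fun u _ => h11 u, ← Finset.mul_sum, h9]
    ring
  rw [h8, H_smul]
  ring

/-- the functional equation, odd case -/
theorem H_fe_odd {r : ℕ} [NeZero r] {χ : DirichletCharacter ℂ r} (hχ : χ ^ 2 = 1) (hp : χ.IsPrimitive)
    (hr : Nat.Coprime 5 r) (he : χ (-1) = -1) {y : ℝ} (hy : 0 < y) :
    (1 / (25 * r ^ 2 * y) : ℂ) * ((Real.sqrt (1 / (25 * r ^ 2 * y)) : ℂ) * H (fun N => N * χ N) (1 / (25 * r ^ 2 * y))) =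
      -(y * ((Real.sqrt y : ℂ) * H (fun N => N * χ N) y)) := by
  have hr0 : (0 : ℝ) < r := by exact_mod_cast Nat.pos_of_ne_zero (NeZero.ne r)
  have hy' : 0 < 1 / (25 * r ^ 2 * y) := by positivity
  have hyc : (y : ℂ) ≠ 0 := by exact_mod_cast hy.ne'
  have hrc : (r : ℂ) ≠ 0 := by exact_mod_cast hr0.ne'
  have h0 : HasDerivAt (fun t : ℝ => (y : ℂ) * I + (t : ℂ)) ((1 : ℝ) : ℂ) 0 := by
    have := (ofRealCLM.hasDerivAt (x := (0 : ℝ))).const_add ((y : ℂ) * I)
    simpa using this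
  have h1 := hasDerivAt_F hχ hp hy h0 (by simp)
  have hw0 : -1 / (25 * (r : ℂ) ^ 2 * ((y : ℂ) * I + ((0 : ℝ) : ℂ))) = ((1 / (25 * r ^ 2 * y) : ℝ) : ℂ) * I := by
    push_cast
    rw [add_zero]
    field_simp
    rw [I_sq]
  have h2 : HasDerivAt (fun t : ℝ => -1 / (25 * (r : ℂ) ^ 2 * ((y : ℂ) * I + (t : ℂ))))
      ((-(1 / (25 * r ^ 2 * y ^ 2)) : ℝ) : ℂ) 0 := by
    have h3 := (h0.const_mul (25 * (r : ℂ) ^ 2))
    have h4 : 25 * (r : ℂ) ^ 2 * ((y : ℂ) * I + ((0 : ℝ) : ℂ)) ≠ 0 := by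
      push_cast
      rw [add_zero]
      simp [hyc, hrc]
    have h5 := (h3.inv h4).const_mul (-1 : ℂ)
    have e : (fun t : ℝ => -1 / (25 * (r : ℂ) ^ 2 * ((y : ℂ) * I + (t : ℂ)))) =
        fun t : ℝ => -1 * (25 * (r : ℂ) ^ 2 * ((y : ℂ) * I + (t : ℂ)))⁻¹ := by
      funext t
      rw [div_eq_mul_inv]
    rw [e]
    refine HasDerivAt.congr_deriv h5 ?_
    push_cast
    rw [add_zero]
    field_simp
    rw [I_sq]
    ring
  have h3 := hasDerivAt_F hχ hp hy' h2 hw0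
  have h4 : (fun t : ℝ => F χ (-1 / (25 * (r : ℂ) ^ 2 * ((y : ℂ) * I + (t : ℂ))))) =
      fun t : ℝ => F χ ((y : ℂ) * I + (t : ℂ)) := by
    funext t
    rw [F_fe hχ hr (by simpa using hy), he]
    ring
  rw [h4] at h3
  have h5 := h3.unique h1
  have hG := gauss_ne_zero hp
  have hpi : (Real.pi : ℂ) ≠ 0 := by exact_mod_cast Real.pi_pos.ne'
  have hc : gaussSum χ (ZMod.stdAddChar (N := r)) * ((1 / 2 : ℂ) * (2 * Real.pi * I)) ≠ 0 :=
    mul_ne_zero hG (by simp [hpi])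
  apply mul_left_cancel₀ hc
  have h6 : (1 / (25 * (r : ℂ) ^ 2 * y)) = -y * ((-(1 / (25 * r ^ 2 * y ^ 2)) : ℝ) : ℂ) := by
    push_cast
    field_simp
  rw [h6]
  push_cast at h5 ⊢
  linear_combination (-(y : ℂ)) * h5

end Pool.Agent.J4.H31.MF
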