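import Mathlib
import Pool.Agent.J4.H31.MF.Twist
import Pool.Agent.J4.H31.MF.Ops

/-! The `L`-functions of the twists. -/

set_option autoImplicit false

open Complex MeasureTheory Filter

namespace Pool.Agent.J4.H31.MF

/-! ### absolute convergence -/

lemma summable_aco {σ : ℝ} (hσ : 1 < σ) : Summable fun n : ℕ => ‖aco n‖ * (n : ℝ) ^ (-σ) := by
  have h1 := summable_phi_rpow hσ
  have h2 := (h1.hasSum.tsum_fiberwise (fun p : Phi => (nm p).natAbs)).summable
  refine Summable.of_nonneg_of_le (fun n => by positivity) (fun n => ?_) (h2.mul_left (1 / 4 : ℝ))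
  have hs : Summable fun b : ((fun p : Phi => (nm p).natAbs) ⁻¹' {n} : Set Phi) => |(nm b : ℝ)| ^ (-σ) := h1.subtype _
  have e1 : ‖aco n‖ * (n : ℝ) ^ (-σ) = (1 / 4 : ℝ) * ‖∑' b : ((fun p : Phi => (nm p).natAbs) ⁻¹' {n} : Set Phi),
      psi b * ((|(nm b : ℝ)| ^ (-σ) : ℝ) : ℂ)‖ := by
    have e2 : ∀ b : ((fun p : Phi => (nm p).natAbs) ⁻¹' {n} : Set Phi),
        psi b * ((|(nm b : ℝ)| ^ (-σ) : ℝ) : ℂ) = psi b * (((n : ℝ) ^ (-σ) : ℝ) : ℂ) := by
      intro b
      have h3 : (nm (b : Phi)).natAbs = n := b.2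
      rw [← natAbs_cast, h3]
    rw [tsum_congr e2, tsum_mul_right]
    unfold aco
    rw [norm_mul, norm_mul, Complex.norm_real, Real.norm_of_nonneg (by positivity)]
    norm_num
    ring
  rw [e1]
  refine mul_le_mul_of_nonneg_left ?_ (by norm_num)
  have h4 : ∀ b : ((fun p : Phi => (nm p).natAbs) ⁻¹' {n} : Set Phi),
      ‖psi b * ((|(nm b : ℝ)| ^ (-σ) : ℝ) : ℂ)‖ ≤ |(nm b : ℝ)| ^ (-σ) := by
    intro b
    rw [norm_mul, Complex.norm_real, Real.norm_of_nonneg (by positivity)]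
    exact mul_le_of_le_one_left (by positivity) (norm_psi_le _)
  exact tsum_of_norm_bounded hs.hasSum h4

/-! ### decay and continuity -/

lemma PB.decay {w : ℤ → ℂ} (hw : PB w) : ∃ C δ : ℝ, 0 ≤ C ∧ 0 < δ ∧ ∀ y : ℝ, 1 ≤ y → ‖H w y‖ ≤ C * Real.exp (-(δ * y)) := by
  obtain ⟨C, δ, hC, hδ, h⟩ := hw.sg.bound (y0 := 1) one_pos
  exact ⟨C, δ, hC, hδ, fun y hy => h y hy _ fun p => le_rfl⟩

lemma PB.isBigO_top {w : ℤ → ℂ} (hw : PB w) (a : ℝ) : (H w) =O[atTop] fun x : ℝ => x ^ (-a) := by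
  obtain ⟨C, δ, hC, hδ, h⟩ := hw.decay
  have h1 : (H w) =O[atTop] fun x : ℝ => Real.exp (-δ * x) := by
    refine Asymptotics.IsBigO.of_bound C ?_
    filter_upwards [eventually_ge_atTop 1] with x hx
    rw [Real.norm_of_nonneg (Real.exp_pos _).le, neg_mul]
    exact h x hx
  exact h1.trans (isLittleO_exp_neg_mul_rpow_atTop hδ _).isBigO

lemma H_eq_G {w : ℤ → ℂ} (hw : PB w) {y : ℝ} (hy : 0 < y) :
    H w y = Sm.G mm cc NN QQ (fun t => w (nm t.1)) ((y : ℂ) * I) := by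
  have hz : 0 < ((y : ℂ) * I).im := by simpa using hy
  rw [G_H hw hz]
  have e1 : ((y : ℂ) * I).re = 0 := by simp
  have e2 : ((y : ℂ) * I).im = y := by simp
  rw [e1, e2]
  congr 1
  funext N
  have : ex 0 N = 1 := by unfold ex; simp
  rw [this, mul_one]

lemma PB.continuousOn {w : ℤ → ℂ} (hw : PB w) : ContinuousOn (H w) (Set.Ioi 0) := by
  have h1 : ContinuousOn (fun y : ℝ => Sm.G mm cc NN QQ (fun t => w (nm t.1)) ((y : ℂ) * I)) (Set.Ioi 0) := by
    intro y hy
    have hz : 0 < ((y : ℂ) * I).im := by simpa using hy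
    have h2 := (dat.hasFDerivAt (adm_w hw) hz).continuousAt
    have h3 : ContinuousAt (fun y : ℝ => (y : ℂ) * I) y := by fun_prop
    exact (ContinuousAt.comp (f := fun y : ℝ => (y : ℂ) * I) h2 h3).continuousWithinAt
  exact h1.congr fun y hy => H_eq_G hw hy

/-! ### the completed `L`-function -/

/-- the hypotheses on the weight -/
structure Wt (w : ℤ → ℂ) (M : ℝ) (d : ℕ) (b : ℕ → ℂ) : Prop where
  pb : PB w
  even : ∀ N : ℤ, w N = w (N.natAbs : ℕ)
  M_pos : 0 < M
  fe : ∀ y : ℝ, 0 < y → ((1 / (M * y) : ℝ) : ℂ) ^ d * ((Real.sqrt (1 / (M * y)) : ℂ) * H w (1 / (M * y))) =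
    -((y : ℂ) ^ d * ((Real.sqrt y : ℂ) * H w y))
  val : ∀ n : ℕ, w n = (n : ℂ) ^ d * b n
  bound : ∀ n : ℕ, ‖b n‖ ≤ 1

variable {w : ℤ → ℂ} {M : ℝ} {d : ℕ} {b : ℕ → ℂ}

lemma Wt.isBigO_zero (W : Wt w M d b) (a : ℝ) : (H w) =O[nhdsWithin 0 (Set.Ioi 0)] fun x : ℝ => x ^ (-a) := by
  have hM := W.M_pos
  set k : ℝ := a - (2 * d + 1) with hk
  have h1 := W.pb.isBigO_top (-k)
  have ht : Tendsto (fun y : ℝ => (M * y)⁻¹) (nhdsWithin 0 (Set.Ioi 0)) atTop := by
    apply tendsto_inv_nhdsGT_zero.comp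
    rw [tendsto_nhdsWithin_iff]
    constructor
    · have : Tendsto (fun y : ℝ => M * y) (nhds 0) (nhds (M * 0)) := (continuous_const.mul continuous_id).tendsto 0
      rw [mul_zero] at this
      exact this.mono_left nhdsWithin_le_nhds
    · filter_upwards [self_mem_nhdsWithin] with y hy
      exact mul_pos hM hy
  have h2 := h1.comp_tendsto ht
  have h3 : (fun y : ℝ => (y ^ (-(2 * (d : ℝ) + 1)) : ℝ) * (((M * y)⁻¹ : ℝ) ^ (-(-k)) : ℝ)) =O[nhdsWithin 0 (Set.Ioi 0)]
      fun x : ℝ => x ^ (-a) := by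
    refine Asymptotics.IsBigO.of_bound (M ^ (-k)) ?_
    filter_upwards [self_mem_nhdsWithin] with y hy
    have hy' : (0 : ℝ) < y := hy
    rw [Real.norm_of_nonneg (by positivity), Real.norm_of_nonneg (by positivity), neg_neg,
      Real.inv_rpow (by positivity), ← Real.rpow_neg (by positivity), Real.mul_rpow hM.le hy'.le]
    rw [show y ^ (-(2 * (d : ℝ) + 1)) * (M ^ (-k) * y ^ (-k)) = M ^ (-k) * (y ^ (-(2 * (d : ℝ) + 1)) * y ^ (-k)) by ring,
      ← Real.rpow_add hy']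
    apply le_of_eq
    congr 2
    rw [hk]
    ring
  refine Asymptotics.IsBigO.trans ?_ h3
  have h4 : (fun y : ℝ => ((y ^ (-(2 * (d : ℝ) + 1)) : ℝ) : ℂ) * (H w ((M * y)⁻¹))) =O[nhdsWithin 0 (Set.Ioi 0)]
      (fun y : ℝ => (y ^ (-(2 * (d : ℝ) + 1)) : ℝ) * (((M * y)⁻¹ : ℝ) ^ (-(-k)) : ℝ)) := by
    refine Asymptotics.IsBigO.mul ?_ h2
    refine Asymptotics.IsBigO.of_bound 1 (Eventually.of_forall fun y => ?_)
    rw [Complex.norm_real, one_mul]
  refine Asymptotics.IsBigO.trans ?_ h4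
  refine Asymptotics.IsBigO.of_bound (M ^ (-((d : ℝ) + 1 / 2))) ?_
  filter_upwards [self_mem_nhdsWithin] with y hy
  have hy' : (0 : ℝ) < y := hy
  have h5 := W.fe y hy'
  have hsy : 0 < Real.sqrt y := Real.sqrt_pos.2 hy'
  have h6 : ‖H w y‖ * (y ^ d * Real.sqrt y) = (1 / (M * y)) ^ d * Real.sqrt (1 / (M * y)) * ‖H w (1 / (M * y))‖ := by
    have := congrArg norm h5
    rw [norm_neg, norm_mul, norm_mul, norm_mul, norm_mul, norm_pow, norm_pow, Complex.norm_real, Complex.norm_real,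
      Complex.norm_real, Complex.norm_real, Real.norm_of_nonneg hy'.le, Real.norm_of_nonneg hsy.le,
      Real.norm_of_nonneg (Real.sqrt_nonneg _), Real.norm_of_nonneg (by positivity)] at this
    linarith
  have h7 : y ^ d * Real.sqrt y = y ^ ((d : ℝ) + 1 / 2) := by
    rw [Real.rpow_add hy', Real.rpow_natCast, Real.sqrt_eq_rpow]
  have h8 : (1 / (M * y)) ^ d * Real.sqrt (1 / (M * y)) = M ^ (-((d : ℝ) + 1 / 2)) * y ^ (-((d : ℝ) + 1 / 2)) := by
    have h9 : (1 / (M * y)) ^ d * Real.sqrt (1 / (M * y)) = (1 / (M * y)) ^ ((d : ℝ) + 1 / 2) := by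
      rw [Real.rpow_add (by positivity), Real.rpow_natCast, Real.sqrt_eq_rpow]
    rw [h9, one_div, Real.inv_rpow (by positivity), ← Real.rpow_neg (by positivity), Real.mul_rpow hM.le hy'.le]
  rw [h7, h8] at h6
  have h10 : ‖H w y‖ = M ^ (-((d : ℝ) + 1 / 2)) * (y ^ (-(2 * (d : ℝ) + 1)) * ‖H w ((M * y)⁻¹)‖) := by
    have h11 : y ^ ((d : ℝ) + 1 / 2) ≠ 0 := (Real.rpow_pos_of_pos hy' _).ne'
    apply mul_right_cancel₀ h11
    have hinv : 1 / (M * y) = (M * y)⁻¹ := one_div _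
    rw [h6, hinv]
    rw [show M ^ (-((d : ℝ) + 1 / 2)) * (y ^ (-(2 * (d : ℝ) + 1)) * ‖H w ((M * y)⁻¹)‖) * y ^ ((d : ℝ) + 1 / 2) =
      M ^ (-((d : ℝ) + 1 / 2)) * (y ^ (-(2 * (d : ℝ) + 1)) * y ^ ((d : ℝ) + 1 / 2)) * ‖H w ((M * y)⁻¹)‖ by ring,
      ← Real.rpow_add hy']
    congr 3
    ring
  rw [h10, norm_mul, Complex.norm_real, Real.norm_of_nonneg (by positivity)]

lemma Wt.differentiable (W : Wt w M d b) : Differentiable ℂ (mellin (H w)) := fun s =>
  mellin_differentiableAt_of_isBigO_rpow (W.pb.continuousOn.locallyIntegrableOn measurableSet_Ioi)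
    (W.pb.isBigO_top (s.re + 1)) (by linarith) (W.isBigO_zero (s.re - 1)) (by linarith)

lemma cpow_half {t : ℝ} (ht : 0 < t) (d : ℕ) : (t : ℂ) ^ ((1 / 2 : ℂ) + d) = (t : ℂ) ^ d * (Real.sqrt t : ℂ) := by
  have htc : (t : ℂ) ≠ 0 := by exact_mod_cast ht.ne'
  rw [Complex.cpow_add _ _ htc, Complex.cpow_natCast, Real.sqrt_eq_rpow, Complex.ofReal_cpow ht.le]
  push_cast
  ring

/-- the central value vanishes -/
lemma Wt.center (W : Wt w M d b) : mellin (H w) ((1 / 2 : ℂ) + d) = 0 := by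
  have hM := W.M_pos
  set Φ : ℝ → ℂ := fun t => (t : ℂ) ^ ((1 / 2 : ℂ) + d) • H w t with hΦ
  have h1 : mellin Φ 0 = mellin (H w) ((1 / 2 : ℂ) + d) := by
    rw [hΦ, mellin_cpow_smul, zero_add]
  have h2 : mellin (fun t => Φ ((M * t)⁻¹)) 0 = mellin Φ 0 := by
    have h3 := mellin_comp_mul_left (fun t => Φ t⁻¹) 0 hM
    rw [mellin_comp_inv] at h3
    rw [h3]
    simp
  have h4 : mellin (fun t => Φ ((M * t)⁻¹)) 0 = -mellin Φ 0 := by
    unfold mellin
    rw [← integral_neg]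
    refine setIntegral_congr_fun measurableSet_Ioi fun t ht => ?_
    have ht' : (0 : ℝ) < t := ht
    have h5 : Φ ((M * t)⁻¹) = -Φ t := by
      rw [hΦ]
      simp only [smul_eq_mul]
      have h6 := W.fe t ht'
      rw [cpow_half ht', cpow_half (by positivity), ← one_div, mul_assoc, mul_assoc]
      exact h6
    show (t : ℂ) ^ ((0 : ℂ) - 1) • Φ ((M * t)⁻¹) = -((t : ℂ) ^ ((0 : ℂ) - 1) • Φ t)
    rw [h5, smul_neg]
  rw [← h1]
  have h5 : mellin Φ 0 = -mellin Φ 0 := by rw [← h4, h2]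
  have h6 : (2 : ℂ) * mellin Φ 0 = 0 := by linear_combination h5
  exact (mul_eq_zero.1 h6).resolve_left two_ne_zero

/-- the integral of one term -/
lemma integral_norm_KB {c : ℝ} (hc : 0 < c) {β : ℝ} (hβ : 0 < β) :
    ∫ y in Set.Ioi (0 : ℝ), y ^ (c - 1) * |KB (β * y)| = β ^ (-c) * ∫ y in Set.Ioi (0 : ℝ), y ^ (c - 1) * |KB y| := by
  have h1 := integral_comp_mul_left_Ioi (fun y : ℝ => y ^ (c - 1) * |KB y|) 0 hβ
  rw [mul_zero] at h1
  have h2 : ∫ y in Set.Ioi (0 : ℝ), (β * y) ^ (c - 1) * |KB (β * y)| =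
      β ^ (c - 1) * ∫ y in Set.Ioi (0 : ℝ), y ^ (c - 1) * |KB (β * y)| := by
    rw [← integral_const_mul]
    refine setIntegral_congr_fun measurableSet_Ioi fun y hy => ?_
    have hy' : (0 : ℝ) < y := hy
    rw [Real.mul_rpow hβ.le hy'.le]
    ring
  rw [h2, smul_eq_mul] at h1
  have h3 : β ^ (c - 1) ≠ 0 := (Real.rpow_pos_of_pos hβ _).ne'
  apply mul_left_cancel₀ h3
  rw [h1, ← mul_assoc, ← Real.rpow_add hβ, ← Real.rpow_neg_one]
  congr 2
  ring

/-- the Mellin transform as a Dirichlet series -/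
lemma Wt.hasSum (W : Wt w M d b) {s : ℂ} (hs : 1 < s.re) :
    HasSum (fun n : ℕ => 4 * aco n * w n * (((2 * Real.pi * n : ℝ) : ℂ) ^ (-(s + d)) *
      mellin (fun x => (KB x : ℂ)) (s + d))) (mellin (H w) (s + d)) := by
  have hsd : 0 < (s + d).re := by
    rw [add_re, natCast_re]
    positivity
  have hre : (s + d - 1).re = (s.re + d) - 1 := by simp
  set Fn : ℕ → ℝ → ℂ := fun n y => (y : ℂ) ^ (s + d - 1) • (4 * aco n * w n * (KB (2 * Real.pi * n * y) : ℂ)) with hFn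
  have hconv : ∀ n : ℕ, MellinConvergent (fun y => (4 * aco n * w n * (KB (2 * Real.pi * n * y) : ℂ))) (s + d) := by
    intro n
    rcases Nat.eq_zero_or_pos n with rfl | hn
    · rw [aco_zero]
      have : (fun y : ℝ => (4 * 0 * w ((0 : ℕ) : ℤ) * (KB (2 * Real.pi * ((0 : ℕ) : ℝ) * y) : ℂ))) = fun _ => 0 := by
        funext y; ring
      rw [this]
      unfold MellinConvergent
      simp
    · have hn' : (0 : ℝ) < 2 * Real.pi * n := by
        have : (0 : ℝ) < n := by exact_mod_cast hn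
        positivity
      have h1 := (MellinConvergent.comp_mul_left (f := fun x => (KB x : ℂ)) (s := s + d) hn').2 (mellinConvergent_KB hsd)
      have h2 := h1.const_smul (4 * aco n * w n)
      simpa [smul_eq_mul] using h2
  have hint : ∀ n, Integrable (Fn n) (volume.restrict (Set.Ioi 0)) := hconv
  set K1 := ∫ y in Set.Ioi (0 : ℝ), y ^ (s.re + d - 1) * |KB y| with hK1
  have hK1' : 0 ≤ K1 := by
    apply setIntegral_nonneg measurableSet_Ioi
    intro y hy
    have hy' : (0 : ℝ) < y := hy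
    positivity
  have hnorm : ∀ n : ℕ, ∫ y in Set.Ioi (0 : ℝ), ‖Fn n y‖ ≤
      (4 * (2 * Real.pi) ^ (-(s.re + d)) * K1) * (‖aco n‖ * (n : ℝ) ^ (-s.re)) := by
    intro n
    rcases Nat.eq_zero_or_pos n with rfl | hn
    · simp [hFn, aco_zero]
    · have hnr : (0 : ℝ) < n := by exact_mod_cast hn
      have hn' : (0 : ℝ) < 2 * Real.pi * n := by positivity
      have h1 : ∫ y in Set.Ioi (0 : ℝ), ‖Fn n y‖ = (4 * ‖aco n‖ * ‖w n‖) *
          ∫ y in Set.Ioi (0 : ℝ), y ^ (s.re + d - 1) * |KB ((2 * Real.pi * n) * y)| := by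
        rw [← integral_const_mul]
        refine setIntegral_congr_fun measurableSet_Ioi fun y hy => ?_
        have hy' : (0 : ℝ) < y := hy
        simp only [hFn]
        rw [norm_smul, Complex.norm_cpow_eq_rpow_re_of_pos hy', hre, norm_mul, norm_mul, norm_mul, Complex.norm_real,
          Real.norm_eq_abs]
        norm_num
        ring
      rw [h1, integral_norm_KB (by positivity) hn', ← hK1, Real.mul_rpow (by positivity) hnr.le]
      have h2 : ‖w n‖ ≤ (n : ℝ) ^ d := by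
        rw [W.val, norm_mul, norm_pow, Complex.norm_natCast]
        exact mul_le_of_le_one_right (by positivity) (W.bound n)
      have h3 : (n : ℝ) ^ (-(s.re + d)) = (n : ℝ) ^ (-s.re) * ((n : ℝ) ^ d)⁻¹ := by
        rw [neg_add, Real.rpow_add hnr, Real.rpow_neg hnr.le (d : ℝ), Real.rpow_natCast]
      rw [h3]
      have h4 : ‖w n‖ * ((n : ℝ) ^ d)⁻¹ ≤ 1 := by
        rw [← div_eq_mul_inv]
        exact div_le_one_of_le₀ h2 (by positivity)
      calc 4 * ‖aco n‖ * ‖w n‖ * ((2 * Real.pi) ^ (-(s.re + d)) * ((n : ℝ) ^ (-s.re) * ((n : ℝ) ^ d)⁻¹) * K1)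
          = (4 * (2 * Real.pi) ^ (-(s.re + d)) * K1 * (‖aco n‖ * (n : ℝ) ^ (-s.re))) * (‖w n‖ * ((n : ℝ) ^ d)⁻¹) := by
            ring
        _ ≤ (4 * (2 * Real.pi) ^ (-(s.re + d)) * K1 * (‖aco n‖ * (n : ℝ) ^ (-s.re))) * 1 := by
            apply mul_le_mul_of_nonneg_left h4
            positivity
        _ = _ := by ring
  have hsumm : Summable fun n => ∫ y in Set.Ioi (0 : ℝ), ‖Fn n y‖ := by
    refine Summable.of_nonneg_of_le (fun n => integral_nonneg fun y => norm_nonneg _) hnorm ?_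
    exact (summable_aco hs).mul_left _
  have key := hasSum_integral_of_summable_integral_norm hint hsumm
  have e1 : ∫ y in Set.Ioi (0 : ℝ), ∑' n, Fn n y = mellin (H w) (s + d) := by
    unfold mellin
    refine setIntegral_congr_fun measurableSet_Ioi fun y hy => ?_
    have hy' : (0 : ℝ) < y := hy
    have h1 := (hasSum_H_nat W.pb W.even hy').mul_left ((y : ℂ) ^ (s + d - 1))
    simp only [hFn, smul_eq_mul]
    exact h1.tsum_eq
  have e2 : ∀ n : ℕ, ∫ y in Set.Ioi (0 : ℝ), Fn n y = 4 * aco n * w n * (((2 * Real.pi * n : ℝ) : ℂ) ^ (-(s + d)) *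
      mellin (fun x => (KB x : ℂ)) (s + d)) := by
    intro n
    rcases Nat.eq_zero_or_pos n with rfl | hn
    · simp [hFn, aco_zero]
    · have hn' : (0 : ℝ) < 2 * Real.pi * n := by
        have : (0 : ℝ) < n := by exact_mod_cast hn
        positivity
      have h1 := mellin_comp_mul_left (fun x => (KB x : ℂ)) (s + d) hn'
      rw [smul_eq_mul] at h1
      rw [← h1]
      unfold mellin
      rw [← integral_const_mul]
      refine integral_congr_ae (Eventually.of_forall fun y => ?_)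
      simp only [hFn, smul_eq_mul]
      ring
  rw [e1] at key
  simp only [e2] at key
  exact key

/-- the inverse of the Mellin transform of the Bessel function -/
noncomputable def Einv (s : ℂ) : ℂ :=
  2 ^ (2 - s) * ((Complex.Gamma ((s + nu * I) / 2))⁻¹ * (Complex.Gamma ((s - nu * I) / 2))⁻¹)

lemma differentiable_Einv : Differentiable ℂ Einv := by
  unfold Einv
  have h1 := Complex.differentiable_one_div_Gamma
  apply Differentiable.mul
  · exact Differentiable.const_cpow (by fun_prop) (Or.inl two_ne_zero)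
  · apply Differentiable.mul
    · exact h1.comp (by fun_prop)
    · exact h1.comp (by fun_prop)

lemma Einv_mul {s : ℂ} (hs : 0 < s.re) : mellin (fun x => (KB x : ℂ)) s * Einv s = 1 := by
  have ha : 0 < ((s + nu * I) / 2).re := by
    have : ((s + nu * I) / 2).re = s.re / 2 := by
      rw [show (2 : ℂ) = ((2 : ℝ) : ℂ) by norm_num, Complex.div_ofReal_re]
      simp
    rw [this]; positivity
  have hb : 0 < ((s - nu * I) / 2).re := by
    have : ((s - nu * I) / 2).re = s.re / 2 := by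
      rw [show (2 : ℂ) = ((2 : ℝ) : ℂ) by norm_num, Complex.div_ofReal_re]
      simp
    rw [this]; positivity
  rw [mellin_KB hs]
  unfold Einv
  have h1 := Complex.Gamma_ne_zero_of_re_pos ha
  have h2 := Complex.Gamma_ne_zero_of_re_pos hb
  have h3 : (2 : ℂ) ^ (s - 2) * 2 ^ (2 - s) = 1 := by
    rw [← Complex.cpow_add _ _ two_ne_zero]
    norm_num
  field_simp
  linear_combination h3

/-- the `L`-function of the twist -/
theorem Wt.exists_L (W : Wt w M d b) : ∃ L : ℂ → ℂ, Differentiable ℂ L ∧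
    (∀ s : ℂ, 1 < s.re → LSeriesHasSum (fun n => aco n * b n) s (L s)) ∧ L (1 / 2) = 0 := by
  have h2pi : (((2 * Real.pi : ℝ) : ℂ)) ≠ 0 := by
    have : (2 * Real.pi : ℝ) ≠ 0 := by positivity
    exact_mod_cast this
  refine ⟨fun s => mellin (H w) (s + d) * (((2 * Real.pi : ℝ) : ℂ) ^ (s + d) * Einv (s + d) / 4), ?_, ?_, ?_⟩
  · have h1 := W.differentiable
    have h2 := differentiable_Einv
    apply Differentiable.mul
    · exact h1.comp (by fun_prop)
    · apply Differentiable.div_const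
      apply Differentiable.mul
      · exact Differentiable.const_cpow (by fun_prop) (Or.inl h2pi)
      · exact h2.comp (by fun_prop)
  · intro s hs
    have hsd : 0 < (s + d).re := by
      rw [add_re, natCast_re]
      positivity
    have h1 := (W.hasSum hs).mul_right (((2 * Real.pi : ℝ) : ℂ) ^ (s + d) * Einv (s + d) / 4)
    unfold LSeriesHasSum
    have e : LSeries.term (fun n => aco n * b n) s = fun n : ℕ => 4 * aco n * w n *
        (((2 * Real.pi * n : ℝ) : ℂ) ^ (-(s + d)) * mellin (fun x => (KB x : ℂ)) (s + d)) *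
        (((2 * Real.pi : ℝ) : ℂ) ^ (s + d) * Einv (s + d) / 4) := by
      funext n
      rcases Nat.eq_zero_or_pos n with rfl | hn
      · rw [LSeries.term_zero, aco_zero]
        ring
      · have hnc : (n : ℂ) ≠ 0 := by exact_mod_cast hn.ne'
        rw [LSeries.term_of_ne_zero hn.ne', W.val]
        have h2 := Einv_mul hsd
        have h3 : (((2 * Real.pi * n : ℝ) : ℂ) ^ (-(s + d))) = ((2 * Real.pi : ℝ) : ℂ) ^ (-(s + d)) * (n : ℂ) ^ (-(s + d)) := by
          rw [ofReal_mul, Complex.mul_cpow_ofReal_nonneg (by positivity) (by positivity)]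
          push_cast
          rfl
        have h4 : ((2 * Real.pi : ℝ) : ℂ) ^ (-(s + d)) * ((2 * Real.pi : ℝ) : ℂ) ^ (s + d) = 1 := by
          rw [← Complex.cpow_add _ _ h2pi, neg_add_cancel, Complex.cpow_zero]
        have h5 : (n : ℂ) ^ (-(s + d)) = (n : ℂ) ^ (-s) * ((n : ℂ) ^ d)⁻¹ := by
          rw [neg_add, Complex.cpow_add _ _ hnc, Complex.cpow_neg _ (d : ℂ), Complex.cpow_natCast]
        have h6 : (n : ℂ) ^ d ≠ 0 := pow_ne_zero _ hnc
        rw [h3, h5]
        have h7 : aco n * b n / (n : ℂ) ^ s = aco n * b n * (n : ℂ) ^ (-s) := by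
          rw [Complex.cpow_neg, div_eq_mul_inv]
        rw [h7]
        calc aco n * b n * (n : ℂ) ^ (-s) = aco n * b n * (n : ℂ) ^ (-s) * (((n : ℂ) ^ d)⁻¹ * (n : ℂ) ^ d) *
              (mellin (fun x => (KB x : ℂ)) (s + d) * Einv (s + d)) *
              (((2 * Real.pi : ℝ) : ℂ) ^ (-(s + d)) * ((2 * Real.pi : ℝ) : ℂ) ^ (s + d)) := by
              rw [h2, h4, inv_mul_cancel₀ h6]; ring
          _ = _ := by ring
    rw [e]
    exact h1
  · simp only
    rw [W.center, zero_mul]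

end Pool.Agent.J4.H31.MF
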