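import Mathlib
import Pool.Agent.J4.H31.MF.Lfun

/-! Reduction of the twists by characters of conductor divisible by `5`. -/

set_option autoImplicit false

open Complex

namespace Pool.Agent.J4.H31.MF

lemma chi_sq {r : ℕ} {χ : DirichletCharacter ℂ r} (hχ : χ ^ 2 = 1) {u : ZMod r} (hu : IsUnit u) : χ u * χ u = 1 := by
  obtain ⟨v, rfl⟩ := hu
  exact chi_inv hχ v

/-- a quadratic primitive character has conductor not divisible by `25` -/
lemma not_dvd_25 {r : ℕ} [NeZero r] {χ : DirichletCharacter ℂ (5 * r)} (hχ : χ ^ 2 = 1) (hp : χ.IsPrimitive) :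
    Nat.Coprime 5 r := by
  rw [Nat.Prime.coprime_iff_not_dvd (by norm_num)]
  rintro ⟨t, rfl⟩
  have hr : 0 < 5 * t := Nat.pos_of_ne_zero (NeZero.ne _)
  have : NeZero (5 * (5 * t)) := ⟨by omega⟩
  have hd : (5 * t) ∣ 5 * (5 * t) := dvd_mul_left _ _
  have hf : χ.FactorsThrough (5 * t) := by
    rw [DirichletCharacter.factorsThrough_iff_ker_unitsMap hd]
    intro u hu
    rw [MonoidHom.mem_ker] at hu ⊢
    have h1 : (ZMod.castHom hd (ZMod (5 * t))) (u : ZMod (5 * (5 * t))) = 1 := by
      have := congrArg (fun v : (ZMod (5 * t))ˣ => (v : ZMod (5 * t))) hu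
      simpa [ZMod.unitsMap] using this
    set n : ℤ := ((u : ZMod (5 * (5 * t))).val : ℤ) with hn
    have hnu : ((n : ℤ) : ZMod (5 * (5 * t))) = u := by
      rw [hn]
      push_cast
      simp only [ZMod.natCast_val, ZMod.cast_id', id]
    rw [← hnu, map_intCast] at h1
    have h2 : (((n - 1 : ℤ)) : ZMod (5 * t)) = 0 := by push_cast; rw [h1, sub_self]
    rw [ZMod.intCast_zmod_eq_zero_iff_dvd] at h2
    obtain ⟨k, hk⟩ := h2
    have h3 : (u : ZMod (5 * (5 * t))) ^ 5 = 1 := by
      rw [← hnu]
      have h4 : (((n ^ 5 - 1 : ℤ)) : ZMod (5 * (5 * t))) = 0 := by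
        rw [ZMod.intCast_zmod_eq_zero_iff_dvd]
        have h5 : n = 1 + (5 * t) * k := by push_cast at hk; linarith
        rw [h5]
        refine ⟨k + 2 * (5 * t) * k ^ 2 + 2 * (5 * t) ^ 2 * k ^ 3 + (5 * t) ^ 3 * k ^ 4 + (5 * t) ^ 3 * t * k ^ 5, ?_⟩
        push_cast
        ring
      push_cast at h4
      exact sub_eq_zero.1 h4
    have h4 : χ (u : ZMod (5 * (5 * t))) = 1 := by
      have h5 : χ ((u : ZMod (5 * (5 * t))) ^ 5) = 1 := by rw [h3, map_one]
      rw [map_pow] at h5
      have h6 := chi_inv hχ u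
      calc χ (u : ZMod (5 * (5 * t))) = χ u * ((χ u * χ u) * (χ u * χ u)) := by rw [h6]; ring
        _ = χ u ^ 5 := by ring
        _ = 1 := h5
    ext
    rw [MulChar.coe_toUnitHom, h4]
    rfl
  have h7 := DirichletCharacter.conductor_dvd_of_mem_conductorSet χ (d := 5 * t) hf
  rw [DirichletCharacter.isPrimitive_def] at hp
  rw [hp] at h7
  have h8 := Nat.le_of_dvd hr h7
  omega

/-- the component of a character away from `5` -/
noncomputable def away {r : ℕ} (hc : Nat.Coprime 5 r) (χ : DirichletCharacter ℂ (5 * r)) : DirichletCharacter ℂ r where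
  toFun x := χ ((ZMod.chineseRemainder hc).symm (1, x))
  map_one' := by
    have : ((1, 1) : ZMod 5 × ZMod r) = 1 := rfl
    rw [this, map_one, map_one]
  map_mul' x y := by
    rw [← map_mul, ← map_mul]
    simp
  map_nonunit' x hx := by
    apply χ.map_nonunit
    intro h
    apply hx
    have h1 := h.map (ZMod.chineseRemainder hc)
    rw [RingEquiv.apply_symm_apply] at h1
    exact (Prod.isUnit_iff.1 h1).2

lemma away_apply {r : ℕ} (hc : Nat.Coprime 5 r) (χ : DirichletCharacter ℂ (5 * r)) (x : ZMod r) :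
    away hc χ x = χ ((ZMod.chineseRemainder hc).symm (1, x)) := rfl

lemma away_sq {r : ℕ} (hc : Nat.Coprime 5 r) {χ : DirichletCharacter ℂ (5 * r)} (hχ : χ ^ 2 = 1) :
    away hc χ ^ 2 = 1 := by
  ext u
  rw [MulChar.pow_apply' _ two_ne_zero, MulChar.one_apply_coe, away_apply, sq]
  apply chi_sq hχ
  have : IsUnit ((1, (u : ZMod r)) : ZMod 5 × ZMod r) := Prod.isUnit_iff.2 ⟨isUnit_one, u.isUnit⟩
  exact this.map (ZMod.chineseRemainder hc).symm

lemma away_nat {r : ℕ} (hc : Nat.Coprime 5 r) {χ : DirichletCharacter ℂ (5 * r)} (hχ : χ ^ 2 = 1) {n : ℕ}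
    (hn : n % 5 = 1 ∨ n % 5 = 4) : χ n = away hc χ n := by
  rw [away_apply]
  have h1 : ((n : ZMod (5 * r))) = (ZMod.chineseRemainder hc).symm ((n : ZMod 5), (n : ZMod r)) := by
    rw [RingEquiv.eq_symm_apply, map_natCast]
    rfl
  rw [h1]
  rcases hn with hn | hn
  · have : (n : ZMod 5) = 1 := by
      have : ((n : ℕ) : ZMod 5) = ((1 : ℕ) : ZMod 5) := by
        rw [ZMod.natCast_eq_natCast_iff]
        exact hn
      simpa using this
    rw [this]
  · have : (n : ZMod 5) = 2 * 2 := by
      have : ((n : ℕ) : ZMod 5) = ((4 : ℕ) : ZMod 5) := by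
        rw [ZMod.natCast_eq_natCast_iff]
        exact hn
      rw [this]
      decide
    rw [this]
    have h2 : ((2 * 2, (n : ZMod r)) : ZMod 5 × ZMod r) = (2, 1) * (2, 1) * (1, (n : ZMod r)) := by
      ext <;> simp
    rw [h2, map_mul, map_mul, map_mul, map_mul]
    have h3 : IsUnit (((2, 1)) : ZMod 5 × ZMod r) := by
      rw [Prod.isUnit_iff]
      refine ⟨?_, isUnit_one⟩
      exact (ZMod.isUnit_iff_coprime 2 5).2 (by norm_num)
    rw [chi_sq hχ (h3.map (ZMod.chineseRemainder hc).symm), one_mul]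

lemma away_primitive {r : ℕ} [NeZero r] (hc : Nat.Coprime 5 r) {χ : DirichletCharacter ℂ (5 * r)}
    (hp : χ.IsPrimitive) : (away hc χ).IsPrimitive := by
  have : NeZero (5 * r) := ⟨by have := NeZero.ne r; omega⟩
  set d := (away hc χ).conductor with hd
  have hdr : d ∣ r := (away hc χ).conductor_dvd_level
  have h5 : 5 * d ∣ 5 * r := Nat.mul_dvd_mul_left 5 hdr
  have hf : χ.FactorsThrough (5 * d) := by
    rw [DirichletCharacter.factorsThrough_iff_ker_unitsMap h5]
    intro u hu
    rw [MonoidHom.mem_ker] at hu ⊢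
    have h1 : (ZMod.castHom h5 (ZMod (5 * d))) (u : ZMod (5 * r)) = 1 := by
      have := congrArg (fun v : (ZMod (5 * d))ˣ => (v : ZMod (5 * d))) hu
      simpa [ZMod.unitsMap] using this
    set n : ℕ := (u : ZMod (5 * r)).val with hn
    have hnu : ((n : ℕ) : ZMod (5 * r)) = u := by
      rw [hn]
      simp only [ZMod.natCast_val, ZMod.cast_id', id]
    rw [← hnu, map_natCast] at h1
    have h2 : (n : ZMod (5 * d)) = ((1 : ℕ) : ZMod (5 * d)) := by rw [h1]; simp
    rw [ZMod.natCast_eq_natCast_iff] at h2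
    have h3 : (n : ZMod 5) = 1 := by
      have : (n : ZMod 5) = ((1 : ℕ) : ZMod 5) := by
        rw [ZMod.natCast_eq_natCast_iff]
        exact h2.of_mul_right d
      simpa using this
    have h4 : (n : ZMod d) = 1 := by
      have : (n : ZMod d) = ((1 : ℕ) : ZMod d) := by
        rw [ZMod.natCast_eq_natCast_iff]
        exact h2.of_mul_left 5
      simpa using this
    have h6 : ((n : ZMod (5 * r))) = (ZMod.chineseRemainder hc).symm ((1 : ZMod 5), (n : ZMod r)) := by
      rw [RingEquiv.eq_symm_apply, map_natCast, ← h3]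
      rfl
    have hun : IsUnit (n : ZMod r) := by
      have h7 : IsUnit (n : ZMod (5 * r)) := by rw [hnu]; exact u.isUnit
      have h8 := h7.map (ZMod.castHom (dvd_mul_left r 5) (ZMod r))
      rwa [map_natCast] at h8
    have h7 : away hc χ (n : ZMod r) = 1 := by
      have h8 := (DirichletCharacter.factorsThrough_iff_ker_unitsMap hdr).1 (away hc χ).factorsThrough_conductor
      have h9 : hun.unit ∈ (ZMod.unitsMap hdr).ker := by
        rw [MonoidHom.mem_ker]
        ext
        have : (ZMod.castHom hdr (ZMod d)) (n : ZMod r) = 1 := by rw [map_natCast, h4]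
        simpa [ZMod.unitsMap] using this
      have h10 := h8 h9
      rw [MonoidHom.mem_ker] at h10
      have h11 := congrArg (fun v : ℂˣ => (v : ℂ)) h10
      simpa [MulChar.coe_toUnitHom] using h11
    have h8 : χ (u : ZMod (5 * r)) = 1 := by
      rw [← hnu, h6, ← away_apply, h7]
    ext
    rw [MulChar.coe_toUnitHom, h8]
    rfl
  have h7 := DirichletCharacter.conductor_dvd_of_mem_conductorSet χ (d := 5 * d) hf
  rw [DirichletCharacter.isPrimitive_def] at hp ⊢
  rw [hp] at h7
  have h8 : r ∣ d := Nat.dvd_of_mul_dvd_mul_left (by norm_num) h7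
  exact Nat.dvd_antisymm hdr h8

/-- the coefficients are supported on the classes `±1` modulo `5` -/
lemma aco_support {n : ℕ} (hn : ¬ (n % 5 = 1 ∨ n % 5 = 4)) : aco n = 0 := by
  unfold aco
  have : ∀ b : ((fun p : Phi => (nm p).natAbs) ⁻¹' {n} : Set Phi), psi b = 0 := by
    intro b
    have h1 : (nm (b : Phi)).natAbs = n := b.2
    have h2 := nm_mod (b : Phi)
    unfold psi
    have h3 : kap (res (b : Phi)) = 0 := by
      have h4 : ∀ c : ZMod 5, kap c ≠ 0 → c ^ 2 = 1 ∨ c ^ 2 = 4 := by decide
      by_contra hcon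
      have h5 := h4 _ hcon
      rw [← h2] at h5
      apply hn
      have h6 : ((n : ℕ) : ZMod 5) = 1 ∨ ((n : ℕ) : ZMod 5) = 4 := by
        rw [← h1]
        rcases Int.natAbs_eq (nm (b : Phi)) with h7 | h7
        · have h8 : (((nm (b : Phi)).natAbs : ℕ) : ZMod 5) = ((nm (b : Phi) : ℤ) : ZMod 5) := by
            conv_rhs => rw [h7]
            simp
          rw [h8]
          exact h5
        · have h8 : (((nm (b : Phi)).natAbs : ℕ) : ZMod 5) = -((nm (b : Phi) : ℤ) : ZMod 5) := by
            conv_rhs => rw [h7]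
            simp
          rw [h8]
          rcases h5 with h5 | h5
          · right; rw [h5]; decide
          · left; rw [h5]; decide
      rcases h6 with h6 | h6
      · left
        have : ((n : ℕ) : ZMod 5) = ((1 : ℕ) : ZMod 5) := by rw [h6]; simp
        rw [ZMod.natCast_eq_natCast_iff] at this
        exact this
      · right
        have : ((n : ℕ) : ZMod 5) = ((4 : ℕ) : ZMod 5) := by rw [h6]; decide
        rw [ZMod.natCast_eq_natCast_iff] at this
        exact this
    rw [h3]
    simp
  simp [this]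

/-! ### the twisted `L`-functions -/

lemma exists_L_coprime {r : ℕ} [NeZero r] {χ : DirichletCharacter ℂ r} (hχ : χ ^ 2 = 1) (hp : χ.IsPrimitive)
    (hr : Nat.Coprime 5 r) : ∃ L : ℂ → ℂ, Differentiable ℂ L ∧
    (∀ s : ℂ, 1 < s.re → LSeriesHasSum (fun n => aco n * χ n) s (L s)) ∧ L (1 / 2) = 0 := by
  have hr0 : (0 : ℝ) < r := by exact_mod_cast Nat.pos_of_ne_zero (NeZero.ne r)
  have hm : χ (-1) = 1 ∨ χ (-1) = -1 := by
    have h1 : χ (-1) * χ (-1) = 1 := by rw [← map_mul]; simp
    exact mul_self_eq_one_iff.1 h1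
  have hneg : ∀ N : ℤ, χ (N : ZMod r) = χ (((N.natAbs : ℕ) : ℤ) : ZMod r) ∨
      (N = -((N.natAbs : ℕ) : ℤ) ∧ χ (N : ZMod r) = χ (-1) * χ (((N.natAbs : ℕ) : ℤ) : ZMod r)) := by
    intro N
    rcases Int.natAbs_eq N with h | h
    · left; rw [← h]
    · right
      refine ⟨h, ?_⟩
      conv_lhs => rw [h]
      rw [Int.cast_neg, ← neg_one_mul, map_mul]
  rcases hm with hm | hm
  · have W : Wt (fun N => χ N) (25 * r ^ 2) 0 (fun n => χ n) := by
      refine ⟨PB_chi χ, fun N => ?_, by positivity, fun y hy => ?_, fun n => by simp, fun n => χ.norm_le_one _⟩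
      · rcases hneg N with h | ⟨-, h⟩
        · exact h
        · rw [hm, one_mul] at h
          exact h
      · have := H_fe_even hχ hp hr hm hy
        rw [pow_zero, pow_zero, one_mul, one_mul]
        exact this
    exact W.exists_L
  · have W : Wt (fun N => N * χ N) (25 * r ^ 2) 1 (fun n => χ n) := by
      refine ⟨?_, fun N => ?_, by positivity, fun y hy => ?_, fun n => by simp, fun n => χ.norm_le_one _⟩
      · refine ⟨1, 1, fun N => ?_⟩
        rw [norm_mul, Complex.norm_intCast, one_mul, pow_one]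
        have := χ.norm_le_one (N : ZMod r)
        nlinarith [abs_nonneg (N : ℝ), norm_nonneg (χ (N : ZMod r))]
      · rcases Int.natAbs_eq N with h | h
        · rw [← h]
        · rcases hneg N with h' | ⟨-, h'⟩
          · by_cases h0 : N = 0
            · simp [h0]
            · -- then the value vanishes
              have h1 : χ (N : ZMod r) = χ (-1) * χ (((N.natAbs : ℕ) : ℤ) : ZMod r) := by
                conv_lhs => rw [h]
                rw [Int.cast_neg, ← neg_one_mul, map_mul]
              rw [hm] at h1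
              have h2 : χ (N : ZMod r) = 0 := by
                rw [← h'] at h1
                have : (2 : ℂ) * χ (N : ZMod r) = 0 := by linear_combination h1
                exact (mul_eq_zero.1 this).resolve_left two_ne_zero
              rw [← h', h2]
              simp
          · rw [hm] at h'
            have h1 : (N : ℂ) = -(((N.natAbs : ℕ) : ℤ) : ℂ) := by
              conv_lhs => rw [h]
              push_cast
              ring
            rw [h', h1]
            ring
      · have := H_fe_odd hχ hp hr hm hy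
        rw [pow_one, pow_one]
        push_cast at this ⊢
        exact this
    exact W.exists_L

theorem exists_L {r : ℕ} [NeZero r] {χ : DirichletCharacter ℂ r} (hχ : χ ^ 2 = 1) (hp : χ.IsPrimitive) :
    ∃ L : ℂ → ℂ, Differentiable ℂ L ∧
    (∀ s : ℂ, 1 < s.re → LSeriesHasSum (fun n => aco n * χ n) s (L s)) ∧ L (1 / 2) = 0 := by
  by_cases h5 : 5 ∣ r
  · obtain ⟨t, rfl⟩ := h5
    have ht : NeZero t := ⟨fun h => NeZero.ne (5 * t) (by rw [h, mul_zero])⟩
    have hc := not_dvd_25 hχ hp
    obtain ⟨L, h1, h2, h3⟩ := exists_L_coprime (away_sq hc hχ) (away_primitive hc hp) hc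
    refine ⟨L, h1, fun s hs => ?_, h3⟩
    have h4 : (fun n : ℕ => aco n * χ n) = fun n : ℕ => aco n * away hc χ n := by
      funext n
      by_cases hn : n % 5 = 1 ∨ n % 5 = 4
      · rw [away_nat hc hχ hn]
      · rw [aco_support hn, zero_mul, zero_mul]
    rw [h4]
    exact h2 s hs
  · exact exists_L_coprime hχ hp ((Nat.Prime.coprime_iff_not_dvd (by norm_num)).2 h5)

end Pool.Agent.J4.H31.MF
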