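import Mathlib
import Pool.Agent.J4.H31.MF.Reduce

/-! The functional equation of the twisted `L`-functions. -/

set_option autoImplicit false

open Complex MeasureTheory Filter

namespace Pool.Agent.J4.H31.MF

variable {w : ℤ → ℂ} {M : ℝ} {d : ℕ} {b : ℕ → ℂ}

lemma Wt.fe_mellin (W : Wt w M d b) (s : ℂ) :
    mellin (H w) (1 - s + d) = -(M : ℂ) ^ (s - 1 / 2) * mellin (H w) (s + d) := by
  have hM := W.M_pos
  set Φ : ℝ → ℂ := fun t => (t : ℂ) ^ ((1 / 2 : ℂ) + d) • H w t with hΦ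
  have h1 : ∀ t : ℂ, mellin Φ t = mellin (H w) (t + ((1 / 2 : ℂ) + d)) := by
    intro t
    rw [hΦ, mellin_cpow_smul]
  have h2 : ∀ t : ℂ, mellin (fun y => Φ ((M * y)⁻¹)) t = (M : ℂ) ^ (-t) * mellin Φ (-t) := by
    intro t
    have h3 := mellin_comp_mul_left (fun t => Φ t⁻¹) t hM
    rw [mellin_comp_inv] at h3
    rw [h3, smul_eq_mul]
  have h4 : ∀ t : ℂ, mellin (fun y => Φ ((M * y)⁻¹)) t = -mellin Φ t := by
    intro t
    unfold mellin
    rw [← integral_neg]
    refine setIntegral_congr_fun measurableSet_Ioi fun y hy => ?_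
    have hy' : (0 : ℝ) < y := hy
    have h5 : Φ ((M * y)⁻¹) = -Φ y := by
      rw [hΦ]
      simp only [smul_eq_mul]
      have h6 := W.fe y hy'
      rw [cpow_half hy', cpow_half (by positivity), ← one_div, mul_assoc, mul_assoc]
      exact h6
    show (y : ℂ) ^ (t - 1) • Φ ((M * y)⁻¹) = -((y : ℂ) ^ (t - 1) • Φ y)
    rw [h5, smul_neg]
  have hMc : (M : ℂ) ≠ 0 := by exact_mod_cast hM.ne'
  have h5 := h2 (s - 1 / 2)
  rw [h4, h1, h1] at h5
  have e1 : s - 1 / 2 + ((1 / 2 : ℂ) + d) = s + d := by ring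
  have e2 : -(s - 1 / 2) + ((1 / 2 : ℂ) + d) = 1 - s + d := by ring
  rw [e1, e2, Complex.cpow_neg] at h5
  have h6 : (M : ℂ) ^ (s - 1 / 2) ≠ 0 := by
    rw [Ne, Complex.cpow_eq_zero_iff]
    tauto
  have h7 := congrArg (fun t => (M : ℂ) ^ (s - 1 / 2) * t) h5
  beta_reduce at h7
  rw [← mul_assoc ((M : ℂ) ^ (s - 1 / 2)) (((M : ℂ) ^ (s - 1 / 2))⁻¹), mul_inv_cancel₀ h6,
    one_mul] at h7
  linear_combination -h7

/-- the completed function -/
noncomputable def completed (Q : ℝ) (d : ℕ) (ν : ℝ) (L : ℂ → ℂ) (s : ℂ) : ℂ :=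
  (Q : ℂ) ^ (s / 2) * (Gammaℝ (s + d + ν * I) * Gammaℝ (s + d - ν * I)) * L s

lemma four_cancel {a : ℂ} (ha : 0 < a.re) :
    mellin (fun x => (KB x : ℂ)) a * (4 * ((2 * Real.pi : ℝ) : ℂ) ^ (-a)) =
      Gammaℝ (a + nu * I) * Gammaℝ (a - nu * I) := by
  rw [mellin_KB ha, Gammaℝ_def, Gammaℝ_def]
  have hpi : (Real.pi : ℂ) ≠ 0 := by exact_mod_cast Real.pi_pos.ne'
  have h1 : ((2 * Real.pi : ℝ) : ℂ) ^ (-a) = 2 ^ (-a) * (Real.pi : ℂ) ^ (-a) := by
    have := Complex.mul_cpow_ofReal_nonneg (a := 2) (b := Real.pi) (by norm_num) Real.pi_pos.le (-a)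
    rw [ofReal_mul]
    exact this
  have h2 : (2 : ℂ) ^ (a - 2) * 4 * 2 ^ (-a) = 1 := by
    have h3 : (4 : ℂ) = 2 ^ (2 : ℂ) := by norm_num
    rw [h3, ← Complex.cpow_add _ _ two_ne_zero, ← Complex.cpow_add _ _ two_ne_zero]
    have : a - 2 + 2 + -a = 0 := by ring
    rw [this, Complex.cpow_zero]
  have h4 : (Real.pi : ℂ) ^ (-(a + nu * I) / 2) * (Real.pi : ℂ) ^ (-(a - nu * I) / 2) = (Real.pi : ℂ) ^ (-a) := by
    rw [← Complex.cpow_add _ _ hpi]
    congr 1
    ring
  rw [h1, ← h4]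
  linear_combination ((Real.pi : ℂ) ^ (-(a + nu * I) / 2) * (Real.pi : ℂ) ^ (-(a - nu * I) / 2) *
    Complex.Gamma ((a + nu * I) / 2) * Complex.Gamma ((a - nu * I) / 2)) * h2

/-- existence of the `L`-function with its functional equation -/
theorem Wt.exists_L' (W : Wt w M d b) : ∃ L : ℂ → ℂ, Differentiable ℂ L ∧
    (∀ s : ℂ, 1 < s.re → LSeriesHasSum (fun n => aco n * b n) s (L s)) ∧ L (1 / 2) = 0 ∧
    ∀ s : ℂ, 0 < s.re → s.re < 1 → completed M d nu L (1 - s) = -completed M d nu L s := by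
  have hM := W.M_pos
  have hMc : (M : ℂ) ≠ 0 := by exact_mod_cast hM.ne'
  have h2pi : (((2 * Real.pi : ℝ) : ℂ)) ≠ 0 := by
    have : (2 * Real.pi : ℝ) ≠ 0 := by positivity
    exact_mod_cast this
  set L : ℂ → ℂ := fun s => mellin (H w) (s + d) * (((2 * Real.pi : ℝ) : ℂ) ^ (s + d) * Einv (s + d) / 4) with hL
  have hd : Differentiable ℂ L := by
    have h1 := W.differentiable
    have h2 := differentiable_Einv
    apply Differentiable.mul
    · exact h1.comp (by fun_prop)
    · apply Differentiable.div_const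
      apply Differentiable.mul
      · exact Differentiable.const_cpow (by fun_prop) (Or.inl h2pi)
      · exact h2.comp (by fun_prop)
  obtain ⟨L', hL'd, hL's, -⟩ := W.exists_L
  have hLser : ∀ s : ℂ, 1 < s.re → LSeriesHasSum (fun n => aco n * b n) s (L s) := by
    intro s hs
    have hsd : 0 < (s + d).re := by
      rw [add_re, natCast_re]
      positivity
    have h1 := (W.hasSum hs).mul_right (((2 * Real.pi : ℝ) : ℂ) ^ (s + d) * Einv (s + d) / 4)
    unfold LSeriesHasSum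
    have e : LSeries.term (fun n => aco n * b n) s = fun n : ℕ => 4 * aco n * w n *
        (((2 * Real.pi * n : ℝ) : ℂ) ^ (-(s + d)) * mellin (fun x => (KB x : ℂ)) (s + d)) *
        (((2 * Real.pi : ℝ) : ℂ) ^ (s + d) * Einv (s + d) / 4) := by
      funext n
      rcases Nat.eq_zero_or_pos n with rfl | hn
      · rw [LSeries.term_zero, aco_zero]
        ring
      · have hnc : (n : ℂ) ≠ 0 := by exact_mod_cast hn.ne'
        rw [LSeries.term_of_ne_zero hn.ne', W.val]
        have h2 := Einv_mul hsd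
        have h3 : (((2 * Real.pi * n : ℝ) : ℂ) ^ (-(s + d))) = ((2 * Real.pi : ℝ) : ℂ) ^ (-(s + d)) * (n : ℂ) ^ (-(s + d)) := by
          rw [ofReal_mul, Complex.mul_cpow_ofReal_nonneg (by positivity) (by positivity)]
          push_cast
          rfl
        have h4 : ((2 * Real.pi : ℝ) : ℂ) ^ (-(s + d)) * ((2 * Real.pi : ℝ) : ℂ) ^ (s + d) = 1 := by
          rw [← Complex.cpow_add _ _ h2pi, neg_add_cancel, Complex.cpow_zero]
        have h5 : (n : ℂ) ^ (-(s + d)) = (n : ℂ) ^ (-s) * ((n : ℂ) ^ d)⁻¹ := by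
          rw [neg_add, Complex.cpow_add _ _ hnc, Complex.cpow_neg _ (d : ℂ), Complex.cpow_natCast]
        have h6 : (n : ℂ) ^ d ≠ 0 := pow_ne_zero _ hnc
        rw [h3, h5]
        have h7 : aco n * b n / (n : ℂ) ^ s = aco n * b n * (n : ℂ) ^ (-s) := by
          rw [Complex.cpow_neg, div_eq_mul_inv]
        rw [h7]
        calc aco n * b n * (n : ℂ) ^ (-s) = aco n * b n * (n : ℂ) ^ (-s) * (((n : ℂ) ^ d)⁻¹ * (n : ℂ) ^ d) *
              (mellin (fun x => (KB x : ℂ)) (s + d) * Einv (s + d)) *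
              (((2 * Real.pi : ℝ) : ℂ) ^ (-(s + d)) * ((2 * Real.pi : ℝ) : ℂ) ^ (s + d)) := by
              rw [h2, h4, inv_mul_cancel₀ h6]; ring
          _ = _ := by ring
    rw [e]
    exact h1
  have hcomp : ∀ s : ℂ, 0 < s.re → completed M d nu L s = (M : ℂ) ^ (s / 2) * mellin (H w) (s + d) := by
    intro s hs
    have hsd : 0 < (s + d).re := by
      rw [add_re, natCast_re]
      positivity
    unfold completed
    rw [← four_cancel hsd, hL]
    have h1 := Einv_mul hsd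
    have h4 : ((2 * Real.pi : ℝ) : ℂ) ^ (-(s + d)) * ((2 * Real.pi : ℝ) : ℂ) ^ (s + d) = 1 := by
      rw [← Complex.cpow_add _ _ h2pi, neg_add_cancel, Complex.cpow_zero]
    linear_combination ((M : ℂ) ^ (s / 2) * mellin (H w) (s + d)) * (((2 * Real.pi : ℝ) : ℂ) ^ (-(s + d)) *
      ((2 * Real.pi : ℝ) : ℂ) ^ (s + d)) * h1 + ((M : ℂ) ^ (s / 2) * mellin (H w) (s + d)) * h4
  refine ⟨L, hd, hLser, ?_, fun s h0 h1 => ?_⟩
  · simp only [hL]
    rw [W.center, zero_mul]
  · have h2 : 0 < (1 - s).re := by simp; exact h1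
    rw [hcomp s h0, hcomp (1 - s) h2, W.fe_mellin]
    have h3 : (M : ℂ) ^ ((1 - s) / 2) * (M : ℂ) ^ (s - 1 / 2) = (M : ℂ) ^ (s / 2) := by
      rw [← Complex.cpow_add _ _ hMc]
      congr 1
      ring
    linear_combination (-mellin (H w) (s + d)) * h3

/-- the parity of a character -/
noncomputable def par {r : ℕ} (χ : DirichletCharacter ℂ r) : ℕ := by
  classical
  exact if χ (-1) = 1 then 0 else 1

lemma exists_L_coprime' {r : ℕ} [NeZero r] {χ : DirichletCharacter ℂ r} (hχ : χ ^ 2 = 1) (hp : χ.IsPrimitive)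
    (hr : Nat.Coprime 5 r) : ∃ L : ℂ → ℂ, Differentiable ℂ L ∧
    (∀ s : ℂ, 1 < s.re → LSeriesHasSum (fun n => aco n * χ n) s (L s)) ∧ L (1 / 2) = 0 ∧
    ∀ s : ℂ, 0 < s.re → s.re < 1 →
      completed (25 * r ^ 2) (par χ) nu L (1 - s) = -completed (25 * r ^ 2) (par χ) nu L s := by
  have hr0 : (0 : ℝ) < r := by exact_mod_cast Nat.pos_of_ne_zero (NeZero.ne r)
  have hm : χ (-1) = 1 ∨ χ (-1) = -1 := by
    have h1 : χ (-1) * χ (-1) = 1 := by rw [← map_mul]; simp
    exact mul_self_eq_one_iff.1 h1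
  have hneg : ∀ N : ℤ, χ (N : ZMod r) = χ (((N.natAbs : ℕ) : ℤ) : ZMod r) ∨
      (N = -((N.natAbs : ℕ) : ℤ) ∧ χ (N : ZMod r) = χ (-1) * χ (((N.natAbs : ℕ) : ℤ) : ZMod r)) := by
    intro N
    rcases Int.natAbs_eq N with h | h
    · left; rw [← h]
    · right
      refine ⟨h, ?_⟩
      conv_lhs => rw [h]
      rw [Int.cast_neg, ← neg_one_mul, map_mul]
  rcases hm with hm | hm
  · have hpar : par χ = 0 := by unfold par; simp [hm]
    rw [hpar]
    have W : Wt (fun N => χ N) (25 * r ^ 2) 0 (fun n => χ n) := by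
      refine ⟨PB_chi χ, fun N => ?_, by positivity, fun y hy => ?_, fun n => by simp, fun n => χ.norm_le_one _⟩
      · rcases hneg N with h | ⟨-, h⟩
        · exact h
        · rw [hm, one_mul] at h
          exact h
      · have := H_fe_even hχ hp hr hm hy
        rw [pow_zero, pow_zero, one_mul, one_mul]
        exact this
    exact W.exists_L'
  · have hpar : par χ = 1 := by
      unfold par
      rw [if_neg]
      rw [hm]
      norm_num
    rw [hpar]
    have W : Wt (fun N => N * χ N) (25 * r ^ 2) 1 (fun n => χ n) := by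
      refine ⟨?_, fun N => ?_, by positivity, fun y hy => ?_, fun n => by simp, fun n => χ.norm_le_one _⟩
      · refine ⟨1, 1, fun N => ?_⟩
        rw [norm_mul, Complex.norm_intCast, one_mul, pow_one]
        have := χ.norm_le_one (N : ZMod r)
        nlinarith [abs_nonneg (N : ℝ), norm_nonneg (χ (N : ZMod r))]
      · rcases Int.natAbs_eq N with h | h
        · rw [← h]
        · rcases hneg N with h' | ⟨-, h'⟩
          · by_cases h0 : N = 0
            · simp [h0]
            · -- then the value vanishes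
              have h1 : χ (N : ZMod r) = χ (-1) * χ (((N.natAbs : ℕ) : ℤ) : ZMod r) := by
                conv_lhs => rw [h]
                rw [Int.cast_neg, ← neg_one_mul, map_mul]
              rw [hm] at h1
              have h2 : χ (N : ZMod r) = 0 := by
                rw [← h'] at h1
                have : (2 : ℂ) * χ (N : ZMod r) = 0 := by linear_combination h1
                exact (mul_eq_zero.1 this).resolve_left two_ne_zero
              rw [← h', h2]
              simp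
          · rw [hm] at h'
            have h1 : (N : ℂ) = -(((N.natAbs : ℕ) : ℤ) : ℂ) := by
              conv_lhs => rw [h]
              push_cast
              ring
            rw [h', h1]
            ring
      · have := H_fe_odd hχ hp hr hm hy
        rw [pow_one, pow_one]
        push_cast at this ⊢
        exact this
    exact W.exists_L'

lemma away_neg_one {r : ℕ} [NeZero r] (hc : Nat.Coprime 5 r) {χ : DirichletCharacter ℂ (5 * r)} (hχ : χ ^ 2 = 1) :
    χ (-1) = away hc χ (-1) := by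
  have hr : 0 < r := Nat.pos_of_ne_zero (NeZero.ne r)
  have h1 : ((5 * r - 1 : ℕ) : ZMod (5 * r)) = -1 := by
    rw [Nat.cast_sub (by omega), ZMod.natCast_self]
    simp
  have h2 : ((5 * r - 1 : ℕ) : ZMod r) = -1 := by
    rw [Nat.cast_sub (by omega)]
    push_cast
    rw [ZMod.natCast_self]
    ring
  rw [← h1, ← h2]
  exact away_nat hc hχ (by omega)

/-- all quadratic twists -/
theorem exists_L_all {r : ℕ} [NeZero r] {χ : DirichletCharacter ℂ r} (hχ : χ ^ 2 = 1) (hp : χ.IsPrimitive) :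
    ∃ L : ℂ → ℂ, Differentiable ℂ L ∧
    (∀ s : ℂ, 1 < s.re → LSeriesHasSum (fun n => aco n * χ n) s (L s)) ∧ L (1 / 2) = 0 ∧
    ∀ s : ℂ, 0 < s.re → s.re < 1 →
      completed (Nat.lcm 25 (r ^ 2)) (par χ) nu L (1 - s) = -completed (Nat.lcm 25 (r ^ 2)) (par χ) nu L s := by
  by_cases h5 : 5 ∣ r
  · obtain ⟨t, rfl⟩ := h5
    have ht : NeZero t := ⟨fun h => NeZero.ne (5 * t) (by rw [h, mul_zero])⟩
    have hc := not_dvd_25 hχ hp
    obtain ⟨L, h1, h2, h3, h5⟩ := exists_L_coprime' (away_sq hc hχ) (away_primitive hc hp) hc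
    have h6 : par (away hc χ) = par χ := by
      unfold par
      rw [away_neg_one hc hχ]
    have h7 : ((Nat.lcm 25 ((5 * t) ^ 2) : ℕ) : ℝ) = 25 * (t : ℝ) ^ 2 := by
      have : Nat.lcm 25 ((5 * t) ^ 2) = 25 * t ^ 2 := by
        rw [show (5 * t) ^ 2 = 25 * t ^ 2 by ring]
        exact Nat.lcm_eq_right (dvd_mul_right _ _)
      rw [this]
      push_cast
      ring
    rw [h6] at h5
    refine ⟨L, h1, fun s hs => ?_, h3, fun s hs0 hs1 => by rw [h7]; exact h5 s hs0 hs1⟩
    have h4 : (fun n : ℕ => aco n * χ n) = fun n : ℕ => aco n * away hc χ n := by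
      funext n
      by_cases hn : n % 5 = 1 ∨ n % 5 = 4
      · rw [away_nat hc hχ hn]
      · rw [aco_support hn, zero_mul, zero_mul]
    rw [h4]
    exact h2 s hs
  · have hc : Nat.Coprime 5 r := (Nat.Prime.coprime_iff_not_dvd (by norm_num)).2 h5
    obtain ⟨L, h1, h2, h3, h5⟩ := exists_L_coprime' hχ hp hc
    have h7 : ((Nat.lcm 25 (r ^ 2) : ℕ) : ℝ) = 25 * (r : ℝ) ^ 2 := by
      have : Nat.lcm 25 (r ^ 2) = 25 * r ^ 2 := by
        apply Nat.Coprime.lcm_eq_mul
        have : (25 : ℕ) = 5 ^ 2 := by norm_num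
        rw [this]
        exact Nat.Coprime.pow 2 2 hc
      rw [this]
      push_cast
      ring
    exact ⟨L, h1, h2, h3, fun s hs0 hs1 => by rw [h7]; exact h5 s hs0 hs1⟩

end Pool.Agent.J4.H31.MF
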