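import Mathlib
import Pool.Agent.J4.H31.MF.Ops
import Pool.Agent.J4.H31.MF.Twist

/-! The traces of the form from level 25 to level 5. -/

set_option autoImplicit false

open Complex MeasureTheory
open scoped MatrixGroups

namespace Pool.Agent.J4.H31.MF

lemma mem_G0 (N : ℕ) (g : SL(2, ℤ)) : g ∈ CongruenceSubgroup.Gamma0 N ↔ (N : ℤ) ∣ g 1 0 := by
  rw [CongruenceSubgroup.Gamma0_mem, ZMod.intCast_zmod_eq_zero_iff_dvd]

/-- the lower triangular matrices -/
def low (j : ℤ) : SL(2, ℤ) := ⟨!![1, 0; 5 * j, 1], by simp [Matrix.det_fin_two_of]⟩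

lemma mul_low_inv (g : SL(2, ℤ)) (j : ℤ) : (g * (low j)⁻¹) 1 0 = g 1 0 - 5 * j * g 1 1 := by
  rw [Matrix.SpecialLinearGroup.coe_mul, Matrix.SpecialLinearGroup.coe_inv]
  simp [low, Matrix.adjugate_fin_two_of, Matrix.mul_apply, Fin.sum_univ_two]
  ring

lemma moeb_mul (g h : SL(2, ℤ)) {z : ℂ} (hz : 0 < z.im) : moeb (g * h) z = moeb g (moeb h z) := by
  have h1 := coe_smul_eq (g * h) ⟨z, hz⟩
  have h2 := coe_smul_eq g (h • (⟨z, hz⟩ : UpperHalfPlane))
  have h3 := coe_smul_eq h ⟨z, hz⟩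
  rw [mul_smul] at h1
  rw [h1, h3] at h2
  exact h2

/-- sums over representatives -/
lemma sum_reps {R : Finset SL(2, ℤ)} (hR : ∀ g ∈ R, g ∈ CongruenceSubgroup.Gamma0 5)
    (hR' : ∀ h ∈ CongruenceSubgroup.Gamma0 5, ∃! g, g ∈ R ∧ h * g⁻¹ ∈ CongruenceSubgroup.Gamma0 25)
    {F : SL(2, ℤ) → ℂ} (hF : ∀ g h : SL(2, ℤ), g ∈ CongruenceSubgroup.Gamma0 25 → F (g * h) = F h) :
    ∑ g ∈ R, F g = ∑ j ∈ Finset.range 5, F (low j) := by
  classical
  have hlow : ∀ j : ℤ, low j ∈ CongruenceSubgroup.Gamma0 5 := by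
    intro j
    rw [mem_G0]
    simp [low]
  -- for every element of the group there is a lower triangular matrix
  have hj : ∀ g ∈ CongruenceSubgroup.Gamma0 5, ∃ j : ℕ, j < 5 ∧ g * (low j)⁻¹ ∈ CongruenceSubgroup.Gamma0 25 := by
    intro g hg
    rw [mem_G0] at hg
    obtain ⟨c, hc⟩ := hg
    have hdet := g.det_coe
    rw [Matrix.det_fin_two, hc] at hdet
    -- the inverse of the diagonal entry mod 5
    refine ⟨((c * g 0 0) % 5).toNat, ?_, ?_⟩
    · have := Int.emod_lt_of_pos (c * g 0 0) (show (0 : ℤ) < 5 by norm_num)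
      have := Int.emod_nonneg (c * g 0 0) (show (5 : ℤ) ≠ 0 by norm_num)
      omega
    · rw [mem_G0, mul_low_inv, hc]
      have h0 := Int.emod_nonneg (c * g 0 0) (show (5 : ℤ) ≠ 0 by norm_num)
      rw [Int.toNat_of_nonneg h0]
      have h1 : (c * g 0 0) % 5 = c * g 0 0 - 5 * ((c * g 0 0) / 5) := by
        have := Int.emod_add_mul_ediv (c * g 0 0) 5
        linarith
      rw [h1]
      refine ⟨-(c * g 0 1 * c) + g 1 1 * ((c * g 0 0) / 5), ?_⟩
      push_cast at hdet ⊢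
      linear_combination (-5 * c) * hdet
  choose! jj hjlt hjmem using hj
  refine Finset.sum_bij (fun g _ => jj g) ?_ ?_ ?_ ?_
  · intro g hg
    exact Finset.mem_range.2 (hjlt g (hR g hg))
  · intro g hg g' hg' he
    have h1 := hjmem g (hR g hg)
    have h2 := hjmem g' (hR g' hg')
    have he' : jj g = jj g' := he
    rw [he'] at h1
    obtain ⟨u, hu, huu⟩ := hR' g' (hR g' hg')
    have h3 : g' * g⁻¹ ∈ CongruenceSubgroup.Gamma0 25 := by
      have := mul_mem h2 (inv_mem h1)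
      convert this using 1
      group
    have h4 : g' * g'⁻¹ ∈ CongruenceSubgroup.Gamma0 25 := by
      rw [mul_inv_cancel]
      exact one_mem _
    rw [huu g ⟨hg, h3⟩, huu g' ⟨hg', h4⟩]
  · intro j hj
    obtain ⟨g, ⟨hg, hg'⟩, -⟩ := hR' (low j) (hlow j)
    refine ⟨g, hg, ?_⟩
    have h1 := hjmem g (hR g hg)
    have h2 : low j * (low (jj g))⁻¹ ∈ CongruenceSubgroup.Gamma0 25 := by
      have := mul_mem hg' h1
      convert this using 1
      group
    rw [mem_G0, mul_low_inv] at h2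
    have h3 := hjlt g (hR g hg)
    have h4 := Finset.mem_range.1 hj
    simp [low] at h2
    obtain ⟨c, hc⟩ := h2
    omega
  · intro g hg
    have h1 := hjmem g (hR g hg)
    rw [← hF _ (low (jj g)) h1]
    congr 1
    group

lemma f_low {z : ℂ} (hz : 0 < z.im) (j : ℤ) : f (moeb (low j) z) = -f (-1 / (25 * z) - j / 5) := by
  have h1 := moeb_im_pos (low j) hz
  have h2 := f_fricke h1
  have hz0 : z ≠ 0 := by
    rintro rfl
    simp at hz
  have h3 : -1 / (25 * moeb (low j) z) = -1 / (25 * z) - j / 5 := by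
    unfold moeb
    have hd : (5 * (j : ℂ) * z + 1) ≠ 0 := by
      have := denom_ne (g := low j) hz
      simpa [low] using this
    simp [low]
    field_simp
    ring
  rw [h3] at h2
  rw [h2, neg_neg]

/-- the trace to level 5 vanishes -/
theorem f_trace {R : Finset SL(2, ℤ)} (hR : ∀ g ∈ R, g ∈ CongruenceSubgroup.Gamma0 5)
    (hR' : ∀ h ∈ CongruenceSubgroup.Gamma0 5, ∃! g, g ∈ R ∧ h * g⁻¹ ∈ CongruenceSubgroup.Gamma0 25)
    {z : ℂ} (hz : 0 < z.im) : ∑ g ∈ R, f (moeb g z) = 0 := by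
  rw [sum_reps hR hR' (F := fun g => f (moeb g z))]
  · set u : ℂ := -1 / (25 * z) with hu
    have h25 : 0 < (25 * z).im := by simpa using hz
    have hu0 : 0 < u.im := im_neg_inv_pos h25
    have h1 : ∀ j : ℕ, f (moeb (low j) z) = -f (u - j / 5) := by
      intro j
      have := f_low hz j
      push_cast at this
      exact this
    simp only [h1]
    rw [Finset.sum_neg_distrib]
    have h5 : 0 < (5 * u).im := by simpa using hu0
    have h2 := f_five h5
    have h3 : ∀ j : ℕ, ((5 * u + j) / 5 : ℂ) = u + j / 5 := by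
      intro j
      ring
    simp only [h3] at h2
    rw [← h2, neg_eq_zero.2]
    · rw [h2]
    · have h4 : ∀ x : ℂ, f (x - 1) = f x := by
        intro x
        have := f_add_int x (-1)
        rw [← this]
        congr 1
        push_cast
        ring
      rw [← h2]
      simp only [Finset.sum_range_succ, Finset.sum_range_zero]
      have e1 : f (u - ((1 : ℕ) : ℂ) / 5) = f (u + ((4 : ℕ) : ℂ) / 5) := by
        rw [← h4 (u + ((4 : ℕ) : ℂ) / 5)]; congr 1; push_cast; ring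
      have e2 : f (u - ((2 : ℕ) : ℂ) / 5) = f (u + ((3 : ℕ) : ℂ) / 5) := by
        rw [← h4 (u + ((3 : ℕ) : ℂ) / 5)]; congr 1; push_cast; ring
      have e3 : f (u - ((3 : ℕ) : ℂ) / 5) = f (u + ((2 : ℕ) : ℂ) / 5) := by
        rw [← h4 (u + ((2 : ℕ) : ℂ) / 5)]; congr 1; push_cast; ring
      have e4 : f (u - ((4 : ℕ) : ℂ) / 5) = f (u + ((1 : ℕ) : ℂ) / 5) := by
        rw [← h4 (u + ((1 : ℕ) : ℂ) / 5)]; congr 1; push_cast; ring
      have e0 : f (u - ((0 : ℕ) : ℂ) / 5) = f (u + ((0 : ℕ) : ℂ) / 5) := by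
        simp
      rw [e0, e1, e2, e3, e4]
      ring
  · intro g h hg
    rw [moeb_mul g h hz]
    exact f_invariant g ((mem_G0 25 g).1 hg) (moeb_im_pos h hz)

end Pool.Agent.J4.H31.MF
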