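import Mathlib
import Pool.Agent.N880.QF.Dz
import Pool.Agent.N880.QF.Char

/-! Quadratic fields and their primitive characters. -/

set_option autoImplicit false

open Complex Filter Topology Polynomial
open Pool.Agent.N880.QF Pool.Agent.TH560.QT

namespace Pool.Agent.J4.H31.MF

lemma decomp' (m : ℤ) (h0 : m ≠ 0) (hsq : ¬ IsSquare m) :
    ∃ (k : ℤ) (b : ℕ), Squarefree k ∧ k ≠ 1 ∧ 1 ≤ b ∧ m = k * (b : ℤ) ^ 2 := by
  obtain ⟨a, b, hab, ha⟩ := Nat.sq_mul_squarefree m.natAbs
  have hm : m = (m.sign * (a : ℤ)) * (b : ℤ) ^ 2 := by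
    conv_lhs => rw [← Int.sign_mul_natAbs m, ← hab]
    push_cast
    ring
  refine ⟨m.sign * a, b, ?_, ?_, ?_, hm⟩
  · rw [← Int.squarefree_natAbs, Int.natAbs_mul, Int.natAbs_sign_of_ne_zero h0, one_mul,
      Int.natAbs_natCast]
    exact ha
  · intro h
    rw [h, one_mul, sq] at hm
    exact hsq ⟨_, hm⟩
  · by_contra hb
    have : b = 0 := by omega
    rw [this] at hm
    simp at hm
    exact h0 hm

lemma att_to' {k : ℤ} {b : ℕ} (hb : 1 ≤ b) {N : ℕ} {χ : DirichletCharacter ℂ N}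
    (h : Attached k χ) : Attached (k * (b : ℤ) ^ 2) χ := by
  obtain ⟨B, hB⟩ := h
  refine ⟨max B (b + 1), fun p hp hBp => ?_⟩
  rw [hB p hp ((le_max_left _ _).trans hBp), jacobiSym.mul_left, sq, jacobiSym.mul_left]
  have hbp : b < p := lt_of_lt_of_le (Nat.lt_succ_self b) ((le_max_right _ _).trans hBp)
  have hcop : IsCoprime (b : ℤ) (p : ℤ) := by
    rw [Nat.isCoprime_iff_coprime]
    exact (Nat.coprime_of_lt_prime (by omega) hbp hp).symm
  have h1 : jacobiSym (b : ℤ) p * jacobiSym (b : ℤ) p = 1 := by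
    rw [← jacobiSym.mul_left, ← sq]
    exact jacobiSym.sq_one' (Int.isCoprime_iff_gcd_eq_one.1 hcop)
  rw [h1, mul_one]

lemma exists_char' (m : ℤ) (hm : ¬ IsSquare m) :
    ∃ (N : ℕ) (_ : NeZero N) (χ : DirichletCharacter ℂ N), χ.IsPrimitive ∧ Attached m χ := by
  have h0 : m ≠ 0 := by rintro rfl; exact hm IsSquare.zero
  obtain ⟨k, b, hk, hk1, hb, hmk⟩ := decomp' m h0 hm
  obtain ⟨⟨N, hN, χ, hp, ha⟩, -⟩ := char_main k hk hk1
  exact ⟨N, hN, χ, hp, hmk ▸ att_to' hb ha⟩

lemma sq_of_attached {m : ℤ} (h0 : m ≠ 0) {N : ℕ} [NeZero N] {χ : DirichletCharacter ℂ N}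
    (h : Attached m χ) : χ ^ 2 = 1 := by
  obtain ⟨B, hB⟩ := h
  apply MulChar.ext
  intro u
  obtain ⟨p, hp, hpp, hpu⟩ := Nat.forall_exists_prime_gt_and_eq_mod u.isUnit (B + m.natAbs)
  rw [MulChar.one_apply_coe, MulChar.pow_apply_coe, ← hpu, hB p hpp (by omega)]
  have hcop : IsCoprime m (p : ℤ) := by
    rw [Int.isCoprime_iff_gcd_eq_one, Int.gcd_comm, Int.gcd]
    rw [Int.natAbs_natCast]
    exact (Nat.Prime.coprime_iff_not_dvd hpp).2 fun hd => by
      have := Nat.le_of_dvd (Int.natAbs_pos.2 h0) hd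
      omega
  have h1 : jacobiSym m p ^ 2 = 1 := jacobiSym.sq_one (Int.isCoprime_iff_gcd_eq_one.1 hcop)
  exact_mod_cast h1

/-- every quadratic field has its primitive quadratic character -/
theorem exists_field_char (K : Type) [Field K] [NumberField K] (hK : Module.finrank ℚ K = 2) :
    ∃ (r : ℕ) (_ : NeZero r) (χ : DirichletCharacter ℂ r), χ.IsPrimitive ∧ χ ^ 2 = 1 ∧
      ∀ s : ℂ, 1 < s.re → NumberField.dedekindZeta K s = riemannZeta s * LSeries (fun n => χ n) s := by
  obtain ⟨m, a, ham, hm⟩ := quad_main K hK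
  obtain ⟨r, hr, χ, hp, ha⟩ := exists_char' m hm
  have h0 : m ≠ 0 := by rintro rfl; exact hm IsSquare.zero
  refine ⟨r, hr, χ, hp, sq_of_attached h0 ha, fun s hs => ?_⟩
  rw [dz_main K hK m a ham hm r hr χ hp ha s hs, DirichletCharacter.LFunction_eq_LSeries χ hs]

/-- the character is unique on positive integers -/
theorem field_char_unique {F : ℂ → ℂ} {r r' : ℕ} {χ : DirichletCharacter ℂ r} {χ' : DirichletCharacter ℂ r'}
    (h : ∀ s : ℂ, 1 < s.re → F s = riemannZeta s * LSeries (fun n => χ n) s)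
    (h' : ∀ s : ℂ, 1 < s.re → F s = riemannZeta s * LSeries (fun n => χ' n) s) {n : ℕ} (hn : n ≠ 0) :
    χ n = χ' n := by
  have hab : ∀ {t : ℕ} (ψ : DirichletCharacter ℂ t), LSeries.abscissaOfAbsConv (fun n => ψ n) < ⊤ := by
    intro t ψ
    refine lt_of_le_of_lt (LSeries.abscissaOfAbsConv_le_of_le_const (f := fun n => ψ n) ⟨1, fun n _ => ψ.norm_le_one _⟩) ?_
    exact EReal.coe_lt_top 1
  refine LSeries.eq_of_LSeries_eventually_eq (f := fun n => χ n) (g := fun n => χ' n) (hab χ) (hab χ') ?_ hn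
  filter_upwards [Filter.eventually_gt_atTop (1 : ℝ)] with x hx
  have hx' : 1 < (x : ℂ).re := by simpa using hx
  have h1 := h x hx'
  rw [h' x hx'] at h1
  exact (mul_left_cancel₀ (riemannZeta_ne_zero_of_one_lt_re hx') h1).symm

/-- a quadratic subfield of the complex numbers -/
theorem exists_quad_field : ∃ E : IntermediateField ℚ ℂ, Module.finrank ℚ E = 2 := by
  have hI : IsIntegral ℚ (Complex.I) := by
    refine ⟨X ^ 2 + 1, by monicity!, ?_⟩
    simp
  refine ⟨IntermediateField.adjoin ℚ {Complex.I}, ?_⟩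
  rw [IntermediateField.adjoin.finrank hI]
  have h1 : minpoly ℚ Complex.I = X ^ 2 + 1 := by
    symm
    apply minpoly.eq_of_irreducible_of_monic
    · apply Polynomial.irreducible_of_degree_le_three_of_not_isRoot
      · have : (X ^ 2 + 1 : ℚ[X]).natDegree = 2 := by compute_degree!
        rw [this]
        decide
      · intro x hx
        rw [Polynomial.IsRoot] at hx
        simp at hx
        nlinarith [sq_nonneg x]
    · simp
    · monicity!
  rw [h1]
  compute_degree!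

/-- finiteness of the set of quadratic fields of bounded discriminant -/
theorem finite_fields (x : ℝ) : {E : IntermediateField ℚ ℂ | Module.finrank ℚ E = 2 ∧
    ∃ _ : NumberField E, |(NumberField.discr E : ℝ)| < x}.Finite := by
  have h := NumberField.finite_of_discr_bdd ℂ (Nat.ceil x)
  refine (h.image (fun K => K.1)).subset ?_
  rintro E ⟨h2, hN, hd⟩
  refine ⟨⟨E, hN.to_finiteDimensional⟩, ?_, rfl⟩
  simp only [Set.mem_setOf_eq]
  have h3 : |(NumberField.discr E : ℝ)| ≤ (Nat.ceil x : ℝ) := hd.le.trans (Nat.le_ceil x)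
  exact_mod_cast h3

end Pool.Agent.J4.H31.MF
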